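import Pool.Agent.Helper10.MU.Main

/-!
# Uniformization of valuations with a regular formal surface germ: definitions
-/

set_option autoImplicit false
set_option linter.unusedSectionVars false

open scoped TensorProduct
open IsLocalRing

universe u

namespace Pool.Agent.Helper10.MV

open Pool.Agent.Helper7.LU (psi inc)
open Pool.Agent.Helper10.MU

/-- The height of the centre of `W` on the image of `f`. -/
noncomputable def cht {B W : Type u} [CommRing B] [CommRing W] [IsLocalRing W] (f : B →+* W) : ℕ∞ :=
  ((maximalIdeal W).comap f.range.subtype).height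

/-- A polynomial whose reduction is a minimal polynomial of the residue of `t`. -/
def MinPol {B W : Type u} [CommRing B] [CommRing W] [IsLocalRing W] (f : B →+* W) (t : W) (g : Polynomial B) :
    Prop :=
  IsUnit (f g.leadingCoeff) ∧ 1 ≤ g.natDegree ∧ g.eval₂ f t ∈ maximalIdeal W ∧
    ∀ ρ : Polynomial B, ρ.natDegree < g.natDegree → ρ.eval₂ f t ∈ maximalIdeal W →
      ∀ i, f (ρ.coeff i) ∈ maximalIdeal W

/-- The residue of `t` is transcendental. -/
def Trans {B W : Type u} [CommRing B] [CommRing W] [IsLocalRing W] (f : B →+* W) (t : W) : Prop :=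
  ∀ ρ : Polynomial B, ρ.eval₂ f t ∈ maximalIdeal W → ∀ i, f (ρ.coeff i) ∈ maximalIdeal W

/-- `b` has order `n` modulo `x`, up to units and modulo the kernel. -/
def Reg {B W : Type u} [CommRing B] [CommRing W] (f : B →+* W) (x y : B) (n : ℕ) (b : B) : Prop :=
  ∃ s v c, IsUnit (f s) ∧ IsUnit (f v) ∧ f (s * b) = f (v * y ^ n + c * x)

section

variable {R V : Type u} [CommRing R] [CommRing V] [IsDomain V] [ValuationRing V] [Algebra R V]

/-- A good level: a subalgebra of finite type with one or two parameters, of the right dimension. -/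
structure Good (S W : Type u) [CommRing S] [CommRing W] [IsDomain W] [ValuationRing W] [Algebra R S]
    [Algebra V W] [Algebra R W] [Algebra S W] [IsScalarTower R S W] [IsScalarTower R V W] {e : ℕ}
    (A : Subalgebra R V) (x : Fin e → V) : Prop where
  lev : Lev S W A x
  xm : ∀ i, x i ∈ maximalIdeal V
  x0 : ∀ i, x i ≠ 0
  pos : 1 ≤ e
  le2 : e ≤ 2
  dim : (e : ℕ∞) ≤ cht (ps S W A)

/-- An extension of good levels. -/
structure Ex (S W : Type u) [CommRing S] [CommRing W] [IsDomain W] [ValuationRing W] [Algebra R S]
    [Algebra V W] [Algebra R W] [Algebra S W] [IsScalarTower R S W] [IsScalarTower R V W] {e e' : ℕ}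
    (A A' : Subalgebra R V) (x : Fin e → V) (x' : Fin e' → V) : Prop where
  le : A ≤ A'
  good : Good S W A' x'
  mono : ∀ i, ∃ β, MonAt S W A' x' (x i) β
  ker : RingHom.ker (ps S W A') ≤ sat (ps S W A') ((RingHom.ker (ps S W A)).map (tr S le))

end

end Pool.Agent.Helper10.MV
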