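import Pool.Agent.Helper10.MV.Tri
import Pool.Agent.Helper10.MU.Stp

/-!
# Module BLO (helper59)
-/

set_option autoImplicit false
set_option linter.unusedSectionVars false

open scoped TensorProduct
open IsLocalRing

universe u

namespace Pool.Agent.Helper10.MV

open Pool.Agent.Helper7.LU (psi inc)
open Pool.Agent.Helper10.MU

section

variable {R V S W : Type u} [CommRing R] [IsLocalRing R] [IsNoetherianRing R] [CommRing V] [IsDomain V]
  [ValuationRing V] [CommRing S] [IsNoetherianRing S] [CommRing W] [IsDomain W] [ValuationRing W] [Algebra R V]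
  [Algebra R S] [Algebra V W] [Algebra R W] [Algebra S W] [IsScalarTower R S W] [IsScalarTower R V W]

theorem blo_fg (A : Subalgebra R V) (hA : A.FG) (y : V) : (Algebra.adjoin R ((A : Set V) ∪ {y})).FG := by
  classical
  obtain ⟨G, hG⟩ := hA
  refine ⟨insert y G, ?_⟩
  apply le_antisymm
  · rw [Algebra.adjoin_le_iff]
    intro v hv
    rw [Finset.coe_insert] at hv
    rcases hv with rfl | hv
    · exact Algebra.subset_adjoin (Or.inr rfl)
    · refine Algebra.subset_adjoin (Or.inl ?_)
      rw [← hG]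
      exact Algebra.subset_adjoin hv
  · rw [Algebra.adjoin_le_iff]
    rintro v (hv | hv)
    · have h1 : v ∈ Algebra.adjoin R (G : Set V) := by
        rw [hG]
        exact hv
      refine Algebra.adjoin_mono ?_ h1
      rw [Finset.coe_insert]
      exact Set.subset_insert _ _
    · rw [Set.mem_singleton_iff] at hv
      subst hv
      refine Algebra.subset_adjoin ?_
      rw [Finset.coe_insert]
      exact Set.mem_insert _ _

theorem blo_aeval_mem (A A' : Subalgebra R V) (hle : A ≤ A') (T : V) (hT : T ∈ A') (g : Polynomial A) :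
    Polynomial.aeval T g ∈ A' := by
  rw [Polynomial.aeval_eq_sum_range]
  refine Subalgebra.sum_mem _ fun i _ => ?_
  rw [Algebra.smul_def]
  exact Subalgebra.mul_mem _ (hle (g.coeff i).2) (Subalgebra.pow_mem _ hT _)

theorem blo_eval (A A' : Subalgebra R V) (hle : A ≤ A') (T : V) (hT : T ∈ A') (g : Polynomial A)
    (hg : Polynomial.aeval T g ∈ A') :
    (g.map (inc S A : A →+* S ⊗[R] A)).eval₂ (tr S hle : S ⊗[R] A →+* S ⊗[R] A') (inc S A' ⟨T, hT⟩) =
      inc S A' ⟨Polynomial.aeval T g, hg⟩ := by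
  have h1 : (⟨Polynomial.aeval T g, hg⟩ : A') =
      g.eval₂ (Subalgebra.inclusion hle : A →+* A') (⟨T, hT⟩ : A') := by
    apply Subtype.ext
    change Polynomial.aeval T g = A'.val _
    rw [Polynomial.aeval_def]
    have := Polynomial.hom_eval₂ g (Subalgebra.inclusion hle : A →+* A') (A'.val : A' →+* V) (⟨T, hT⟩ : A')
    exact this.symm
  rw [h1, Polynomial.eval₂_map]
  have h2 := Polynomial.hom_eval₂ g (Subalgebra.inclusion hle : A →+* A') (inc S A' : A' →+* S ⊗[R] A')
    (⟨T, hT⟩ : A')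
  have h3 : (inc S A' : A' →+* S ⊗[R] A').comp (Subalgebra.inclusion hle : A →+* A') =
      (tr S hle : S ⊗[R] A →+* S ⊗[R] A').comp (inc S A : A →+* S ⊗[R] A) := by
    ext a
    change inc S A' (Subalgebra.inclusion hle a) = tr S hle (inc S A a)
    rw [tr_inc]
  rw [h3] at h2
  exact h2.symm

theorem blo_monAt_one {e : ℕ} (A : Subalgebra R V) (x : Fin e → V) (f u : V) (hu : IsUnit (algebraMap V W u))
    (hA : u ∈ A) (β : Fin e → ℕ) (h : f = u * mon x β) : MonAt S W A x f β := by
  refine ⟨1, inc S A ⟨u, hA⟩, by simp, ?_, ?_⟩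
  · rw [ps_inc]
    exact hu
  · rw [map_one, one_mul, ps_inc, h, map_mul]

end

theorem blo (hRSD : S_RSD.{u}) (hTRI : S_TRI.{u}) (hMV2 : S_MV2.{u}) (hDMP : S_DMP.{u}) (hMV1 : S_MV1.{u}) :
    S_BLO.{u} := by
  intro R V S W _ _ _ _ _ _ _ _ _ _ _ _ _ _ _ _ _ _ hd A x G T hxT
  classical
  let A' : Subalgebra R V := Algebra.adjoin R ((A : Set V) ∪ {T})
  have hle : A ≤ A' := fun v hv => Algebra.subset_adjoin (Or.inl hv)
  have hT' : T ∈ A' := Algebra.subset_adjoin (Or.inr rfl)
  have hfg' : A'.FG := blo_fg A G.lev.fg T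
  have hnoeth : IsNoetherianRing (S ⊗[R] A) := by
    have : Algebra.FiniteType R A := A.fg_iff_finiteType.mp G.lev.fg
    exact Algebra.FiniteType.isNoetherianRing S (S ⊗[R] A)
  have hnoeth' : IsNoetherianRing (S ⊗[R] A') := by
    have : Algebra.FiniteType R A' := A'.fg_iff_finiteType.mp hfg'
    exact Algebra.FiniteType.isNoetherianRing S (S ⊗[R] A')
  set f := ps S W A with hf
  set f' := ps S W A' with hf'
  let φ : S ⊗[R] A →+* S ⊗[R] A' := (tr S hle : S ⊗[R] A →+* S ⊗[R] A')
  have hφ : ∀ b, f' (φ b) = f b := fun b => ps_tr hle b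
  let X : S ⊗[R] A := inc S A ⟨x 0, G.lev.mem 0⟩
  let Y : S ⊗[R] A := inc S A ⟨x 1, G.lev.mem 1⟩
  let T' : S ⊗[R] A' := inc S A' ⟨T, hT'⟩
  have hfX : f X = algebraMap V W (x 0) := ps_inc _ _
  have hfY : f Y = algebraMap V W (x 1) := ps_inc _ _
  have hfT : f' T' = algebraMap V W T := ps_inc _ _
  have hX : f X ∈ maximalIdeal W := by
    rw [hfX, mem_max_W hd]
    exact G.xm 0
  have hY : f Y ∈ maximalIdeal W := by
    rw [hfY, mem_max_W hd]
    exact G.xm 1
  have hX0 : f X ≠ 0 := by
    rw [hfX]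
    exact fun h => G.x0 0 (hd.inj (by rw [h, map_zero]))
  have hPar : Par f ![X, Y] := by
    have h1 : (fun i => inc S A ⟨x i, G.lev.mem i⟩) = ![X, Y] := by
      funext i
      fin_cases i <;> rfl
    have h2 := G.lev.par
    rwa [h1] at h2
  have hdim : 2 ≤ cht f := by exact_mod_cast G.dim
  have hφXv : φ X = inc S A' ⟨x 0, hle (G.lev.mem 0)⟩ := by
    change tr S hle (inc S A _) = _
    rw [tr_inc]
    rfl
  have hφY : φ Y = φ X * T' := by
    change tr S hle (inc S A _) = tr S hle (inc S A _) * inc S A' _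
    rw [tr_inc, tr_inc, ← map_mul]
    congr 1
    exact Subtype.ext hxT
  have hgen : ∀ b : S ⊗[R] A', ∃ p : Polynomial (S ⊗[R] A), b = p.eval₂ φ T' := fun b =>
    stp_gen A A' T rfl hle hT' b
  refine ⟨A', hT', ?_⟩
  rcases hTRI R V S W hd A T with ⟨g, hmin, hgX⟩ | htr
  · left
    refine ⟨g, hmin, hgX, ?_⟩
    have hmin' : MinPol f (f' T') (g.map (inc S A : A →+* S ⊗[R] A)) := by
      rw [hfT]
      exact hmin
    obtain ⟨h1, h2⟩ := hMV2 (S ⊗[R] A) (S ⊗[R] A') W f f' φ hφ X Y hX hY hPar hdim T' hφY hgen _ hmin'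
    have h3 := hDMP (S ⊗[R] A) (S ⊗[R] A') W f f' φ hφ X Y hX hY hPar hdim T' hφY hgen _ hmin'
    have hgA' : Polynomial.aeval T g ∈ A' := blo_aeval_mem A A' hle T hT' g
    have hev : (g.map (inc S A : A →+* S ⊗[R] A)).eval₂ φ T' = inc S A' ⟨Polynomial.aeval T g, hgA'⟩ :=
      blo_eval A A' hle T hT' g hgA'
    rw [hev, hφXv] at h1
    have hgm : Polynomial.aeval T g ∈ maximalIdeal V := by
      rw [← mem_max_W hd, ← tri_coeff (S := S)]
      exact hmin.2.2.1
    have hmem : ∀ i, (![x 0, Polynomial.aeval T g] : Fin 2 → V) i ∈ A' := by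
      intro i
      fin_cases i
      · exact hle (G.lev.mem 0)
      · exact hgA'
    have hpar' : Par f' (fun i => inc S A' ⟨(![x 0, Polynomial.aeval T g] : Fin 2 → V) i, hmem i⟩) := by
      have h4 : (fun i => inc S A' ⟨(![x 0, Polynomial.aeval T g] : Fin 2 → V) i, hmem i⟩) =
          ![inc S A' ⟨x 0, hle (G.lev.mem 0)⟩, inc S A' ⟨Polynomial.aeval T g, hgA'⟩] := by
        funext i
        fin_cases i <;> rfl
      rw [h4]
      exact h1
    have hg0 : Polynomial.aeval T g ≠ 0 := by
      intro h0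
      have hz : f' (inc S A' ⟨Polynomial.aeval T g, hgA'⟩) = 0 := by
        rw [hf', ps_inc]
        change algebraMap V W (Polynomial.aeval T g) = 0
        rw [h0, map_zero]
      have hx' : f' (inc S A' ⟨x 0, hle (G.lev.mem 0)⟩) ∈ maximalIdeal W := by
        rw [← hφXv, hφ]
        exact hX
      have h5 := hRSD (S ⊗[R] A') W f' (inc S A' ⟨x 0, hle (G.lev.mem 0)⟩)
        (inc S A' ⟨Polynomial.aeval T g, hgA'⟩) hx' (by rw [hz]; exact Ideal.zero_mem _) h1 h3 1 0
        (by rw [hz, mul_zero, map_zero, zero_mul])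
      obtain ⟨s, hs, h6⟩ := h5
      rw [mul_one] at h6
      obtain ⟨a, ha, k, hk, hsum⟩ := Submodule.mem_sup.mp h6
      obtain ⟨c, rfl⟩ := Ideal.mem_span_singleton.mp ha
      have h7 : f' s ∈ maximalIdeal W := by
        rw [← hsum, map_add, RingHom.mem_ker.mp hk, add_zero, map_mul]
        exact Ideal.mul_mem_right _ _ hx'
      exact h7 hs
    refine ⟨hle, ⟨⟨hfg', hmem, hpar'⟩, ?_, ?_, by norm_num, le_refl _, by exact_mod_cast h3⟩, ?_, h2⟩
    · intro i
      fin_cases i
      · exact G.xm 0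
      · exact hgm
    · intro i
      fin_cases i
      · exact G.x0 0
      · exact hg0
    · intro i
      fin_cases i
      · refine ⟨![1, 0], blo_monAt_one A' _ _ 1 (by simp) (Subalgebra.one_mem _) _ ?_⟩
        simp [mon, Fin.prod_univ_two]
      · by_cases hTm : T ∈ maximalIdeal V
        · refine ⟨![1, 1], blo_monAt_one A' _ _ 1 (by simp) (Subalgebra.one_mem _) _ ?_⟩
          have hg := hgX hTm
          simp [mon, Fin.prod_univ_two, hg, hxT]
        · refine ⟨![1, 0], blo_monAt_one A' _ _ T ?_ hT' _ ?_⟩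
          · rw [isUnit_iff_W hd]
            by_contra h
            exact hTm h
          · simp [mon, Fin.prod_univ_two, hxT, mul_comm]
  · right
    have htr' : Trans f (f' T') := by
      rw [hfT]
      exact htr
    obtain ⟨h1, h2, h3⟩ := hMV1 (S ⊗[R] A) (S ⊗[R] A') W f f' φ hφ X Y hX hY hX0 hPar hdim T' hφY hgen htr'
    rw [hφXv] at h1
    have hTu : IsUnit T := by
      by_contra hTm
      have hTm' : T ∈ maximalIdeal V := hTm
      have h4 := htr Polynomial.X (by
        rw [Polynomial.eval₂_X, mem_max_W hd]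
        exact hTm') 1
      rw [Polynomial.coeff_X_one, map_one] at h4
      exact h4 isUnit_one
    have hmem : ∀ i, (![x 0] : Fin 1 → V) i ∈ A' := by
      intro i
      fin_cases i
      exact hle (G.lev.mem 0)
    have hpar' : Par f' (fun i => inc S A' ⟨(![x 0] : Fin 1 → V) i, hmem i⟩) := by
      have h4 : (fun i => inc S A' ⟨(![x 0] : Fin 1 → V) i, hmem i⟩) =
          ![inc S A' ⟨x 0, hle (G.lev.mem 0)⟩] := by
        funext i
        fin_cases i
        rfl
      rw [h4]
      exact h1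
    refine ⟨hle, ⟨⟨hfg', hmem, hpar'⟩, ?_, ?_, le_refl _, by norm_num, by exact_mod_cast h3⟩, ?_, h2⟩
    · intro i
      fin_cases i
      exact G.xm 0
    · intro i
      fin_cases i
      exact G.x0 0
    · intro i
      fin_cases i
      · refine ⟨![1], blo_monAt_one A' _ _ 1 (by simp) (Subalgebra.one_mem _) _ ?_⟩
        simp [mon]
      · refine ⟨![1], blo_monAt_one A' _ _ T ?_ hT' _ ?_⟩
        · rw [isUnit_iff_W hd]
          exact hTu
        · simp [mon, hxT, mul_comm]

end Pool.Agent.Helper10.MV
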