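import Pool.Agent.Helper10.MV.Stm

/-!
# CTR: the height of the centre does not decrease inside the local ring (helper98)
-/

set_option autoImplicit false
set_option linter.unusedSectionVars false

open scoped TensorProduct
open IsLocalRing

universe u

namespace Pool.Agent.Helper10.MV

open Pool.Agent.Helper7.LU (psi inc)
open Pool.Agent.Helper10.MU

section ctrGen

variable {C C' : Type u} [CommRing C] [CommRing C'] (i : C →+* C') (n : Ideal C) [hn : n.IsPrime]

/-- The extension of an ideal to a larger ring inside the local ring. -/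
def ctrIdeal (h : ∀ c' : C', ∃ s, s ∉ n ∧ ∃ c, i s * c' = i c) (p : Ideal C) : Ideal C' where
  carrier := {c' | ∃ s, s ∉ n ∧ ∃ c ∈ p, i s * c' = i c}
  zero_mem' := ⟨1, fun h => hn.ne_top ((Ideal.eq_top_iff_one n).2 h), 0, p.zero_mem, by simp⟩
  add_mem' := by
    rintro a b ⟨s, hs, c, hc, h1⟩ ⟨t, ht, d, hd, h2⟩
    refine ⟨s * t, fun h => (hn.mem_or_mem h).elim hs ht, t * c + s * d,
      p.add_mem (p.mul_mem_left _ hc) (p.mul_mem_left _ hd), ?_⟩
    rw [map_mul, map_add, map_mul, map_mul, ← h1, ← h2]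
    ring
  smul_mem' := by
    rintro a b ⟨s, hs, c, hc, h1⟩
    obtain ⟨t, ht, d, h2⟩ := h a
    refine ⟨t * s, fun h => (hn.mem_or_mem h).elim ht hs, d * c, p.mul_mem_left _ hc, ?_⟩
    rw [map_mul, map_mul, ← h1, ← h2, smul_eq_mul]
    ring

variable {i n}

theorem ctr_mem {h : ∀ c' : C', ∃ s, s ∉ n ∧ ∃ c, i s * c' = i c} {p : Ideal C} {c' : C'} :
    c' ∈ ctrIdeal i n h p ↔ ∃ s, s ∉ n ∧ ∃ c ∈ p, i s * c' = i c := Iff.rfl

theorem ctr_comap (hi : Function.Injective i) (h : ∀ c' : C', ∃ s, s ∉ n ∧ ∃ c, i s * c' = i c)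
    {p : Ideal C} (hp : p.IsPrime) (hpn : p ≤ n) : (ctrIdeal i n h p).comap i = p := by
  ext c
  rw [Ideal.mem_comap, ctr_mem]
  constructor
  · rintro ⟨s, hs, d, hd, h1⟩
    rw [← map_mul] at h1
    have h2 : s * c = d := hi h1
    exact (hp.mem_or_mem (by rwa [h2])).resolve_left (fun h3 => hs (hpn h3))
  · intro hc
    exact ⟨1, fun h => hn.ne_top ((Ideal.eq_top_iff_one n).2 h), c, hc, by simp⟩

theorem ctr_prime (hi : Function.Injective i) (h : ∀ c' : C', ∃ s, s ∉ n ∧ ∃ c, i s * c' = i c)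
    {p : Ideal C} (hp : p.IsPrime) (hpn : p ≤ n) : (ctrIdeal i n h p).IsPrime := by
  refine Ideal.isPrime_iff.2 ⟨fun h1 => ?_, ?_⟩
  · have h2 : (1 : C') ∈ ctrIdeal i n h p := by
      rw [h1]
      exact Submodule.mem_top
    have h3 : (1 : C) ∈ (ctrIdeal i n h p).comap i := by
      rw [Ideal.mem_comap, map_one]
      exact h2
    rw [ctr_comap hi h hp hpn] at h3
    exact hp.ne_top ((Ideal.eq_top_iff_one p).2 h3)
  · rintro a b ⟨s, hs, c, hc, h1⟩
    obtain ⟨t1, ht1, a1, ha1⟩ := h a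
    obtain ⟨t2, ht2, b1, hb1⟩ := h b
    have h2 : i (s * a1 * b1) = i (t1 * t2 * c) := by
      rw [map_mul, map_mul, map_mul, map_mul, ← ha1, ← hb1, ← h1]
      ring
    have h3 := hi h2
    have h4 : s * a1 * b1 ∈ p := by
      rw [h3]
      exact p.mul_mem_left _ hc
    rcases hp.mem_or_mem h4 with h5 | h5
    · rcases hp.mem_or_mem h5 with h6 | h6
      · exact absurd (hpn h6) hs
      · exact Or.inl ⟨t1, ht1, a1, h6, ha1⟩
    · exact Or.inr ⟨t2, ht2, b1, h5, hb1⟩

theorem ctr_height (hi : Function.Injective i)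
    (h : ∀ c' : C', ∃ s, s ∉ n ∧ ∃ c, i s * c' = i c) (n' : Ideal C') [hn' : n'.IsPrime]
    (hnn : n'.comap i = n) : n.height ≤ n'.height := by
  have h1 := PrimeSpectrum.height_eq_orderHeight (⟨n, hn⟩ : PrimeSpectrum C)
  have h2 := PrimeSpectrum.height_eq_orderHeight (⟨n', hn'⟩ : PrimeSpectrum C')
  change n.height = _ at h1
  change n'.height = _ at h2
  rw [h1, h2]
  have h3 : (Order.height (⟨n, hn⟩ : PrimeSpectrum C) : WithBot ℕ∞) ≤
      Order.height (⟨n', hn'⟩ : PrimeSpectrum C') := by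
    rw [Order.height_eq_krullDim_Iic, Order.height_eq_krullDim_Iic]
    have hle : ∀ p : Set.Iic (⟨n, hn⟩ : PrimeSpectrum C), p.1.asIdeal ≤ n := fun p => p.2
    refine Order.krullDim_le_of_strictMono
      (fun p => (⟨⟨ctrIdeal i n h p.1.asIdeal, ctr_prime hi h p.1.2 (hle p)⟩, ?_⟩ :
        Set.Iic (⟨n', hn'⟩ : PrimeSpectrum C'))) ?_
    · show ctrIdeal i n h p.1.asIdeal ≤ n'
      rintro c' ⟨s, hs, c, hc, h4⟩
      have h5 : i c ∈ n' := by
        have : c ∈ n'.comap i := by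
          rw [hnn]
          exact hle p hc
        exact this
      rw [← h4] at h5
      refine (hn'.mem_or_mem h5).resolve_left fun h6 => hs ?_
      rw [← hnn]
      exact h6
    · intro p q hpq
      have hpq' : p.1.asIdeal < q.1.asIdeal := hpq
      have hle2 : ctrIdeal i n h p.1.asIdeal ≤ ctrIdeal i n h q.1.asIdeal := by
        rintro c' ⟨s, hs, c, hc, h4⟩
        exact ⟨s, hs, c, hpq'.le hc, h4⟩
      have hne : ctrIdeal i n h p.1.asIdeal ≠ ctrIdeal i n h q.1.asIdeal := by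
        intro h4
        have h5 := congrArg (Ideal.comap i) h4
        rw [ctr_comap hi h p.1.2 (hle p), ctr_comap hi h q.1.2 (hle q)] at h5
        exact hpq'.ne h5
      have hlt : ctrIdeal i n h p.1.asIdeal < ctrIdeal i n h q.1.asIdeal :=
        lt_of_le_of_ne hle2 hne
      exact hlt
  exact_mod_cast h3

end ctrGen

theorem ctr : S_CTR.{u} := by
  intro R V S W _ _ _ _ _ _ _ _ _ _ _ _ _ _ _ _ _ _ hD A A' hAA' h
  unfold cht
  have hle : (ps S W A).range ≤ (ps S W A').range := by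
    rintro _ ⟨b, rfl⟩
    exact ⟨tr S hAA' b, ps_tr hAA' b⟩
  have hprime : ∀ (X : Subring W), ((maximalIdeal W).comap X.subtype).IsPrime := fun X =>
    Ideal.comap_isPrime _ _
  have := hprime (ps S W A).range
  have := hprime (ps S W A').range
  refine ctr_height (i := Subring.inclusion hle) (Subring.inclusion_injective hle) ?_ _ ?_
  · -- every element has a denominator
    have key : ∀ b' : S ⊗[R] A', ∃ s b : S ⊗[R] A, IsUnit (ps S W A s) ∧
        ps S W A s * ps S W A' b' = ps S W A b := by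
      intro b'
      induction b' with
      | zero => exact ⟨1, 0, by simp, by simp⟩
      | add x y hx hy =>
        obtain ⟨s1, b1, hs1, h1⟩ := hx
        obtain ⟨s2, b2, hs2, h2⟩ := hy
        refine ⟨s1 * s2, s2 * b1 + s1 * b2, by rw [map_mul]; exact hs1.mul hs2, ?_⟩
        rw [map_mul, map_add, map_add, map_mul, map_mul, ← h1, ← h2]
        ring
      | tmul z a =>
        obtain ⟨s, b, hs, h1⟩ := h a a.2
        refine ⟨s, (z ⊗ₜ 1) * b, hs, ?_⟩
        rw [map_mul, ps_tmul, ps_tmul, ← h1]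
        simp
        ring
    rintro ⟨_, ⟨b', rfl⟩⟩
    obtain ⟨s, b, hs, h1⟩ := key b'
    refine ⟨⟨ps S W A s, ⟨s, rfl⟩⟩, ?_, ⟨ps S W A b, ⟨b, rfl⟩⟩, Subtype.ext h1⟩
    intro h2
    have h3 : ps S W A s ∈ maximalIdeal W := h2
    exact (mem_nonunits_iff.1 ((mem_maximalIdeal _).1 h3)) hs
  · rw [Ideal.comap_comap]
    rfl

end Pool.Agent.Helper10.MV
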