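import Pool.Agent.Helper10.MV.Stm
import Pool.Agent.Helper10.MU.Abh

/-!
# Project MV, module DM2
-/

set_option autoImplicit false
set_option linter.unusedSectionVars false

open scoped TensorProduct
open IsLocalRing

universe u

namespace Pool.Agent.Helper10.MV

open Pool.Agent.Helper7.LU (psi inc)
open Pool.Agent.Helper10.MU

/-- The height of the kernel and of the centre. -/
theorem dm2_height (B W : Type u) [CommRing B] [IsNoetherianRing B] [CommRing W] [IsDomain W] [ValuationRing W]
    (f : B →+* W) : (RingHom.ker f).height + cht f ≤ ((maximalIdeal W).comap f).height := by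
  have hQ : (RingHom.ker f).IsPrime := RingHom.ker_isPrime f
  let f' : B ⧸ RingHom.ker f →+* W := RingHom.kerLift f
  let P : Ideal (B ⧸ RingHom.ker f) := (maximalIdeal W).comap f'
  have hP : P.IsPrime := Ideal.comap_isPrime _ _
  have h1 : cht f = P.height := by
    have h2 := RingEquiv.height_comap (RingHom.quotientKerEquivRange f)
      ((maximalIdeal W).comap f.range.subtype)
    rw [cht, ← h2]
    congr 1
    ext b
    obtain ⟨b, rfl⟩ := Ideal.Quotient.mk_surjective b
    rfl
  have h3 : P.height ≠ ⊤ := Ideal.height_ne_top hP.ne_top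
  obtain ⟨n, hn⟩ := ENat.ne_top_iff_exists.mp h3
  rw [h1, ← hn]
  exact abh_height (RingHom.ker f) n P hn.le

theorem dm2 : S_DM2.{u} := by
  intro R V S W _ _ _ _ _ _ _ _ _ _ _ _ _ _ _ _ _ _ hd A hA
  have hnu : ∀ v : V, IsUnit (algebraMap V W v) → IsUnit v := by
    intro v hv
    have h2 : v ∣ 1 := hd.div v 1 (by
      rw [map_one]
      exact hv.dvd)
    exact isUnit_of_dvd_one h2
  have hmax : ∀ v : V, v ∈ maximalIdeal V ↔ algebraMap V W v ∈ maximalIdeal W := by
    intro v
    rw [mem_maximalIdeal, mem_maximalIdeal, mem_nonunits_iff, mem_nonunits_iff, not_iff_not]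
    exact ⟨fun h => h.map _, hnu v⟩
  have : Algebra.FiniteType R A := A.fg_iff_finiteType.mp hA
  have : Algebra.FiniteType S (S ⊗[R] A) := inferInstance
  have hN : IsNoetherianRing (S ⊗[R] A) := Algebra.FiniteType.isNoetherianRing S (S ⊗[R] A)
  have hNA : IsNoetherianRing A := Algebra.FiniteType.isNoetherianRing R A
  refine (dm2_height (S ⊗[R] A) W (ps S W A)).trans ?_
  let : Algebra A (S ⊗[R] A) := (inc S A).toRingHom.toAlgebra
  let M : Ideal (S ⊗[R] A) := (maximalIdeal W).comap (ps S W A)
  have hMp : M.IsPrime := Ideal.comap_isPrime _ _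
  have hcp : (cen A).IsPrime := Ideal.comap_isPrime _ _
  have hcen : ∀ a : A, a ∈ cen A ↔ inc S A a ∈ M := by
    intro a
    change (a : V) ∈ maximalIdeal V ↔ ps S W A (inc S A a) ∈ maximalIdeal W
    rw [ps_inc]
    exact hmax _
  have hM : M = (cen A).map (algebraMap A (S ⊗[R] A)) := by
    apply le_antisymm
    · intro b hb
      obtain ⟨a, ha⟩ := hd.approx_tensor A 1 b
      have h2 : (maximalIdeal R ^ 1).map (algebraMap R (S ⊗[R] A)) ≤
          (cen A).map (algebraMap A (S ⊗[R] A)) := by
        have h3 : ((maximalIdeal R ^ 1).map (algebraMap R A)).map (inc S A) =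
            (maximalIdeal R ^ 1).map (algebraMap R (S ⊗[R] A)) := map_algHom _ _
        rw [← h3]
        refine Ideal.map_mono ?_
        rw [Ideal.map_le_iff_le_comap]
        intro r hr
        rw [pow_one] at hr
        rw [Ideal.mem_comap]
        exact hd.dom r hr
      have h4 : (maximalIdeal R ^ 1).map (algebraMap R (S ⊗[R] A)) ≤ M := by
        rw [Ideal.map_le_iff_le_comap]
        intro r hr
        rw [pow_one] at hr
        change ps S W A (algebraMap R (S ⊗[R] A) r) ∈ maximalIdeal W
        rw [ps_algebraMap]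
        exact (hmax _).mp (hd.dom r hr)
      have h5 : inc S A a ∈ M := by
        have := Ideal.sub_mem _ hb (h4 ha)
        rwa [sub_sub_cancel] at this
      have h6 : a ∈ cen A := (hcen a).mpr h5
      have h7 : b = (b - inc S A a) + inc S A a := by ring
      rw [h7]
      exact Ideal.add_mem _ (h2 ha) (Ideal.mem_map_of_mem (algebraMap A (S ⊗[R] A)) h6)
    · rw [Ideal.map_le_iff_le_comap]
      intro a ha
      exact (hcen a).mp ha
  have hover : M.LiesOver (cen A) := by
    constructor
    ext a
    exact hcen a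
  have h2 := Ideal.height_le_height_add_of_liesOver (cen A) M
  have h3 : M.map (Ideal.Quotient.mk ((cen A).map (algebraMap A (S ⊗[R] A)))) = ⊥ := by
    rw [← hM]
    exact Ideal.map_quotient_self M
  have h4 : Nontrivial ((S ⊗[R] A) ⧸ (cen A).map (algebraMap A (S ⊗[R] A))) := by
    rw [← hM]
    exact Ideal.Quotient.nontrivial_iff.mpr hMp.ne_top
  rw [h3, Ideal.height_bot, add_zero] at h2
  exact h2

end Pool.Agent.Helper10.MV
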