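import Pool.Agent.Helper10.MV.Stm

/-!
# Project MV, module DMP
-/

set_option autoImplicit false
set_option linter.unusedSectionVars false

open scoped TensorProduct Polynomial
open IsLocalRing

universe u

namespace Pool.Agent.Helper10.MV

open Pool.Agent.Helper10.MU

/-- The height of a prime ideal does not decrease in the polynomial ring. -/
theorem dmp_map_C {C : Type u} [CommRing C] : ∀ (n : ℕ) (p : Ideal C) [p.IsPrime], (n : ℕ∞) ≤ p.height →
    (n : ℕ∞) ≤ (p.map (Polynomial.C : C →+* C[X])).height := by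
  intro n
  induction n with
  | zero => intro p _ _; simp
  | succ n ih =>
    intro p _ hp
    have h1 : ¬ p.height ≤ (n : ℕ∞) := by
      intro h
      have h2 := hp.trans h
      have h3 : n + 1 ≤ n := by exact_mod_cast h2
      omega
    rw [Ideal.height_le_iff] at h1
    push Not at h1
    obtain ⟨p', hp', hlt, h2⟩ := h1
    have h3 := ih p' h2
    have hpr : (p.map (Polynomial.C : C →+* C[X])).IsPrime := Ideal.isPrime_map_C_of_isPrime
    have hpr' : (p'.map (Polynomial.C : C →+* C[X])).IsPrime := Ideal.isPrime_map_C_of_isPrime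
    have hlt' : p'.map (Polynomial.C : C →+* C[X]) < p.map (Polynomial.C : C →+* C[X]) := by
      refine lt_of_le_of_ne (Ideal.map_mono hlt.le) ?_
      intro heq
      obtain ⟨a, ha, ha'⟩ := SetLike.exists_of_lt hlt
      have h4 : Polynomial.C a ∈ p'.map (Polynomial.C : C →+* C[X]) := by
        rw [heq]
        exact Ideal.mem_map_of_mem _ ha
      rw [Ideal.mem_map_C_iff] at h4
      have h5 := h4 0
      rw [Polynomial.coeff_C_zero] at h5
      exact ha' h5
    have h4 := Ideal.height_add_one_le_of_lt_of_isPrime hlt'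
    calc ((n + 1 : ℕ) : ℕ∞) = (n : ℕ∞) + 1 := by push_cast; rfl
      _ ≤ (p'.map (Polynomial.C : C →+* C[X])).height + 1 := by gcongr
      _ ≤ _ := h4

/-- Heights and surjective homomorphisms whose kernel is in all the small prime ideals. -/
theorem dmp_height {E F : Type u} [CommRing E] [CommRing F] (ρ : E →+* F) (hρ : Function.Surjective ρ) :
    ∀ (n : ℕ) (P : Ideal F) [P.IsPrime], (∀ q : Ideal E, q.IsPrime → q ≤ P.comap ρ → RingHom.ker ρ ≤ q) →
      (n : ℕ∞) ≤ (P.comap ρ).height → (n : ℕ∞) ≤ P.height := by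
  intro n
  induction n with
  | zero => intro P _ _ _; simp
  | succ n ih =>
    intro P _ hq hP
    have h1 : ¬ (P.comap ρ).height ≤ (n : ℕ∞) := by
      intro h
      have h2 := hP.trans h
      have h3 : n + 1 ≤ n := by exact_mod_cast h2
      omega
    rw [Ideal.height_le_iff] at h1
    push Not at h1
    obtain ⟨p', hp', hlt, h2⟩ := h1
    have hk : RingHom.ker ρ ≤ p' := hq p' hp' hlt.le
    have hpr : (p'.map ρ).IsPrime := Ideal.map_isPrime_of_surjective hρ hk
    have hcm : (p'.map ρ).comap ρ = p' := by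
      rw [Ideal.comap_map_of_surjective' ρ hρ]
      exact sup_eq_left.mpr hk
    have hlt' : p'.map ρ < P := by
      refine lt_of_le_of_ne ?_ ?_
      · rw [Ideal.map_le_iff_le_comap]
        exact hlt.le
      · intro heq
        rw [heq] at hcm
        exact hlt.ne hcm.symm
    have h3 := ih (p'.map ρ) (by
      intro q hq1 hq2
      rw [hcm] at hq2
      exact hq q hq1 (hq2.trans hlt.le)) (by rw [hcm]; exact h2)
    have h4 := Ideal.height_add_one_le_of_lt_of_isPrime hlt'
    calc ((n + 1 : ℕ) : ℕ∞) = (n : ℕ∞) + 1 := by push_cast; rfl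
      _ ≤ (p'.map ρ).height + 1 := by gcongr
      _ ≤ _ := h4

theorem dmp_key (n : ℕ) (a b : ℕ∞) (h1 : ((n + 1 : ℕ) : ℕ∞) ≤ a) (h2 : a ≤ b + 1) : (n : ℕ∞) ≤ b := by
  have h3 : ((n + 1 : ℕ) : ℕ∞) = (n : ℕ∞) + 1 := by push_cast; rfl
  have h4 := h1.trans h2
  rw [h3] at h4
  exact (ENat.add_le_add_iff_right (by simp)).mp h4

/-- Division by an element that generates the kernel locally. -/
theorem dmp_quot {E F : Type u} [CommRing E] [IsNoetherianRing E] [CommRing F] (π : E →+* F)
    (hπ : Function.Surjective π) (r : E) (hr : π r = 0) (P : Ideal F) [P.IsPrime]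
    (hk : ∀ p, π p = 0 → ∃ s, π s ∉ P ∧ s * p ∈ Ideal.span {r}) (n : ℕ)
    (hn : ((n + 1 : ℕ) : ℕ∞) ≤ (P.comap π).height) : (n : ℕ∞) ≤ P.height := by
  have hspan : ∀ a ∈ Ideal.span {r}, π a = 0 := by
    intro a ha
    obtain ⟨b, rfl⟩ := Ideal.mem_span_singleton.mp ha
    rw [map_mul, hr, zero_mul]
  obtain ⟨ρ, hρ⟩ : ∃ ρ : E ⧸ Ideal.span {r} →+* F, ∀ p, ρ (Ideal.Quotient.mk _ p) = π p :=
    ⟨Ideal.Quotient.lift (Ideal.span {r}) π hspan, fun p => Ideal.Quotient.lift_mk _ _ _⟩
  have hρs : Function.Surjective ρ := by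
    intro z
    obtain ⟨p, rfl⟩ := hπ z
    exact ⟨Ideal.Quotient.mk _ p, hρ p⟩
  have hNP : P.comap π = (P.comap ρ).comap (Ideal.Quotient.mk (Ideal.span {r})) := by
    ext p
    rw [Ideal.mem_comap, Ideal.mem_comap, Ideal.mem_comap, hρ]
  have hN : (P.comap π).IsPrime := Ideal.comap_isPrime _ _
  have h4 : (P.comap π).map (Ideal.Quotient.mk (Ideal.span {r})) = P.comap ρ := by
    rw [hNP, Ideal.map_comap_of_surjective _ Ideal.Quotient.mk_surjective]
  have h5 := Ideal.height_le_height_add_one_of_mem (show r ∈ P.comap π by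
    rw [Ideal.mem_comap, hr]
    exact Ideal.zero_mem _)
  rw [h4] at h5
  refine dmp_height ρ hρs n P ?_ (dmp_key n _ _ hn h5)
  intro q hq hqP z hz
  obtain ⟨p, rfl⟩ := Ideal.Quotient.mk_surjective z
  rw [RingHom.mem_ker, hρ] at hz
  obtain ⟨s, hs, hsp⟩ := hk p hz
  have h8 : Ideal.Quotient.mk (Ideal.span {r}) s * Ideal.Quotient.mk (Ideal.span {r}) p ∈ q := by
    rw [← map_mul, Ideal.Quotient.eq_zero_iff_mem.mpr hsp]
    exact Ideal.zero_mem _
  rcases hq.mem_or_mem h8 with h9 | h9
  · exfalso
    have h10 := hqP h9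
    rw [Ideal.mem_comap, hρ] at h10
    exact hs h10
  · exact h9

/-- RSD for powers. -/
theorem dmp_pow (hR : S_RSD.{u}) (B W : Type u) [CommRing B] [IsNoetherianRing B] [CommRing W] [IsDomain W]
    [ValuationRing W] (f : B →+* W) (x y : B) (hx : f x ∈ maximalIdeal W) (hy : f y ∈ maximalIdeal W)
    (hpar : Par f ![x, y]) (hd : 2 ≤ cht f) : ∀ (k : ℕ) (b c : B), f b * f y ^ k = f c * f x →
      ∃ s c', IsUnit (f s) ∧ f s * f b = f c' * f x := by
  intro k
  induction k with
  | zero =>
    intro b c h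
    exact ⟨1, c, by simp, by simpa using h⟩
  | succ k ih =>
    intro b c h
    obtain ⟨s, hs, hsb⟩ := hR B W f x y hx hy hpar hd (b * y ^ k) c (by
      rw [map_mul, map_pow, ← h, pow_succ]
      ring)
    rw [Submodule.mem_sup] at hsb
    obtain ⟨u, hu, v, hv, huv⟩ := hsb
    obtain ⟨u', rfl⟩ := Ideal.mem_span_singleton.mp hu
    obtain ⟨s', c', hs', hc'⟩ := ih (s * b) u' (by
      have h1 := congrArg f huv
      rw [map_add, (RingHom.mem_ker).mp hv, add_zero, map_mul, map_mul, map_mul, map_pow] at h1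
      rw [map_mul]
      rw [mul_comm (f u'), h1]
      ring)
    refine ⟨s' * s, c', ?_, ?_⟩
    · rw [map_mul]
      exact hs'.mul hs
    · rw [← hc', map_mul, map_mul]
      ring

/-- The kernel of the evaluation is generated by `x X - y` up to elements with unit image. -/
theorem dmp_ker (hR : S_RSD.{u}) (B W : Type u) [CommRing B] [IsNoetherianRing B] [CommRing W] [IsDomain W]
    [ValuationRing W] (f : B →+* W) (x y : B) (hx : f x ∈ maximalIdeal W) (hy : f y ∈ maximalIdeal W)
    (hpar : Par f ![x, y]) (hd : 2 ≤ cht f) (t : W) (ht : f y = f x * t) :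
    ∀ (n : ℕ) (p : f.range[X]), p.natDegree ≤ n → p.eval₂ f.range.subtype t = 0 →
      ∃ s : f.range, IsUnit (s : W) ∧ Polynomial.C s * p ∈
        Ideal.span {Polynomial.C (f.rangeRestrict x) * Polynomial.X - Polynomial.C (f.rangeRestrict y)} := by
  intro n
  induction n with
  | zero =>
    intro p hp h
    have h1 : p = Polynomial.C (p.coeff 0) := Polynomial.eq_C_of_natDegree_le_zero hp
    rw [h1, Polynomial.eval₂_C] at h
    have h2 : p.coeff 0 = 0 := Subtype.val_injective (by simpa using h)
    refine ⟨1, by simp, ?_⟩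
    rw [h1, h2]
    simp
  | succ n ih =>
    intro p hp h
    have h1 : ((p.coeff (n + 1) : f.range) : W) * f y ^ (n + 1) =
        ((-∑ i ∈ Finset.range (n + 1), p.coeff i * f.rangeRestrict y ^ i * f.rangeRestrict x ^ (n - i) :
          f.range) : W) * f x := by
      have h2 : p.eval₂ f.range.subtype t * f x ^ (n + 1) = 0 := by rw [h, zero_mul]
      rw [Polynomial.eval₂_eq_sum_range' f.range.subtype (show p.natDegree < n + 1 + 1 by omega),
        Finset.sum_range_succ, add_mul, Finset.sum_mul] at h2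
      have h3 : ∑ i ∈ Finset.range (n + 1), f.range.subtype (p.coeff i) * t ^ i * f x ^ (n + 1) =
          ((∑ i ∈ Finset.range (n + 1), p.coeff i * f.rangeRestrict y ^ i * f.rangeRestrict x ^ (n - i) :
          f.range) : W) * f x := by
        rw [← Subring.subtype_apply, map_sum, Finset.sum_mul]
        refine Finset.sum_congr rfl fun i hi => ?_
        have hi' : i ≤ n := Nat.lt_succ_iff.mp (Finset.mem_range.mp hi)
        rw [map_mul, map_mul, map_pow, map_pow]
        change _ = f.range.subtype (p.coeff i) * f y ^ i * f x ^ (n - i) * f x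
        rw [ht, mul_pow]
        have h4 : f x ^ (n + 1) = f x ^ i * f x ^ (n - i) * f x := by
          rw [← pow_add, ← pow_succ]
          congr 1
          omega
        rw [h4]
        ring
      rw [h3] at h2
      have h5 : ((p.coeff (n + 1) : f.range) : W) * f y ^ (n + 1) =
          f.range.subtype (p.coeff (n + 1)) * t ^ (n + 1) * f x ^ (n + 1) := by
        rw [ht, mul_pow, Subring.subtype_apply]
        ring
      rw [h5]
      push_cast at h2 ⊢
      linear_combination h2
    obtain ⟨a, ha⟩ := f.rangeRestrict_surjective (p.coeff (n + 1))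
    obtain ⟨c, hc⟩ := f.rangeRestrict_surjective
      (-∑ i ∈ Finset.range (n + 1), p.coeff i * f.rangeRestrict y ^ i * f.rangeRestrict x ^ (n - i))
    rw [← hc, ← ha] at h1
    obtain ⟨s, c', hs, hsc⟩ := dmp_pow hR B W f x y hx hy hpar hd (n + 1) a c h1
    have h2 : f.rangeRestrict s * p.coeff (n + 1) = f.rangeRestrict c' * f.rangeRestrict x := by
      rw [← ha]
      exact Subtype.val_injective hsc
    set p' : f.range[X] := Polynomial.C (f.rangeRestrict s) * p - Polynomial.C (f.rangeRestrict c') *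
      (Polynomial.C (f.rangeRestrict x) * Polynomial.X ^ (n + 1) -
        Polynomial.C (f.rangeRestrict y) * Polynomial.X ^ n) with hp'
    have hdeg : p'.natDegree ≤ n := by
      rw [Polynomial.natDegree_le_iff_coeff_eq_zero]
      intro m hm
      rw [hp', Polynomial.coeff_sub, Polynomial.coeff_C_mul, Polynomial.coeff_C_mul, Polynomial.coeff_sub,
        Polynomial.coeff_C_mul, Polynomial.coeff_C_mul, Polynomial.coeff_X_pow, Polynomial.coeff_X_pow,
        if_neg (show ¬ m = n by omega)]
      by_cases hmn : m = n + 1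
      · subst hmn
        rw [if_pos rfl, h2]
        ring
      · rw [if_neg hmn, Polynomial.coeff_eq_zero_of_natDegree_lt (show p.natDegree < m by omega)]
        ring
    have hev : p'.eval₂ f.range.subtype t = 0 := by
      rw [hp', Polynomial.eval₂_sub, Polynomial.eval₂_mul, Polynomial.eval₂_mul, Polynomial.eval₂_sub,
        Polynomial.eval₂_mul, Polynomial.eval₂_mul, h, Polynomial.eval₂_X_pow, Polynomial.eval₂_X_pow,
        Polynomial.eval₂_C, Polynomial.eval₂_C, Polynomial.eval₂_C, Polynomial.eval₂_C]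
      change _ * 0 - _ * (f x * t ^ (n + 1) - f y * t ^ n) = 0
      rw [ht]
      ring
    obtain ⟨s', hs', hm⟩ := ih p' hdeg hev
    refine ⟨s' * f.rangeRestrict s, ?_, ?_⟩
    · rw [Subring.coe_mul]
      exact hs'.mul hs
    · have h3 : Polynomial.C (s' * f.rangeRestrict s) * p = Polynomial.C s' * p' +
          Polynomial.C s' * Polynomial.C (f.rangeRestrict c') * Polynomial.X ^ n *
            (Polynomial.C (f.rangeRestrict x) * Polynomial.X - Polynomial.C (f.rangeRestrict y)) := by
        rw [hp', Polynomial.C_mul]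
        ring
      rw [h3]
      exact Ideal.add_mem _ hm (Ideal.mul_mem_left _ _ (Ideal.mem_span_singleton_self _))

theorem dmp (hR : S_RSD.{u}) : S_DMP.{u} := by
  intro B B' W _ _ _ _ _ _ f f' φ hφ x y hx hy hpar hd T hT hsur g hg
  have hfφ : f'.comp φ = f := RingHom.ext hφ
  set t : W := f' T with ht
  have hyx : f y = f x * t := by
    rw [← hφ y, hT, map_mul, hφ]
  let π : f.range[X] →+* W := Polynomial.eval₂RingHom f.range.subtype t
  have hπ : ∀ p : B[X], π (p.map f.rangeRestrict) = f' (p.eval₂ φ T) := by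
    intro p
    change (p.map f.rangeRestrict).eval₂ f.range.subtype t = _
    rw [Polynomial.eval₂_map, Polynomial.hom_eval₂, hfφ]
    rfl
  have hlift : ∀ p : f.range[X], ∃ p₀ : B[X], p₀.map f.rangeRestrict = p := by
    intro p
    exact Polynomial.map_surjective _ f.rangeRestrict_surjective p
  have hπr : ∀ p, π p ∈ f'.range := by
    intro p
    obtain ⟨p₀, rfl⟩ := hlift p
    rw [hπ]
    exact ⟨_, rfl⟩
  let π' : f.range[X] →+* f'.range := π.codRestrict f'.range hπr
  have hπ's : Function.Surjective π' := by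
    rintro ⟨_, b, rfl⟩
    obtain ⟨p, rfl⟩ := hsur b
    exact ⟨p.map f.rangeRestrict, Subtype.val_injective (hπ p)⟩
  have hπ'v : ∀ p, ((π' p : f'.range) : W) = π p := fun _ => rfl
  set r : f.range[X] :=
    Polynomial.C (f.rangeRestrict x) * Polynomial.X - Polynomial.C (f.rangeRestrict y) with hr
  have hπr0 : π r = 0 := by
    change Polynomial.eval₂ f.range.subtype t r = 0
    rw [hr, Polynomial.eval₂_sub, Polynomial.eval₂_mul, Polynomial.eval₂_C, Polynomial.eval₂_C,
      Polynomial.eval₂_X]
    change f x * t - f y = 0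
    rw [hyx, sub_self]
  have hπ'r0 : π' r = 0 := Subtype.val_injective hπr0
  let P' : Ideal f'.range := (maximalIdeal W).comap f'.range.subtype
  have hP' : P'.IsPrime := Ideal.comap_isPrime _ _
  let n : Ideal f.range := (maximalIdeal W).comap f.range.subtype
  have hn : n.IsPrime := Ideal.comap_isPrime _ _
  let N : Ideal f.range[X] := (maximalIdeal W).comap π
  have hN : N.IsPrime := Ideal.comap_isPrime _ _
  have hNP : P'.comap π' = N := by
    ext p
    rw [Ideal.mem_comap, Ideal.mem_comap, Ideal.mem_comap]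
    rfl
  have hnoeth : IsNoetherianRing f.range :=
    isNoetherianRing_of_surjective B f.range f.rangeRestrict f.rangeRestrict_surjective
  have hpr : (n.map (Polynomial.C : f.range →+* f.range[X])).IsPrime := Ideal.isPrime_map_C_of_isPrime
  have hlt : n.map (Polynomial.C : f.range →+* f.range[X]) < N := by
    refine lt_of_le_of_ne ?_ ?_
    · rw [Ideal.map_le_iff_le_comap]
      intro a ha
      rw [Ideal.mem_comap, Ideal.mem_comap]
      change Polynomial.eval₂ f.range.subtype t (Polynomial.C a) ∈ _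
      rw [Polynomial.eval₂_C]
      exact ha
    · intro heq
      have h1 : g.map f.rangeRestrict ∈ N := by
        rw [Ideal.mem_comap]
        change (g.map f.rangeRestrict).eval₂ f.range.subtype t ∈ _
        rw [Polynomial.eval₂_map]
        exact hg.2.2.1
      rw [← heq, Ideal.mem_map_C_iff] at h1
      have h2 := h1 g.natDegree
      rw [Polynomial.coeff_map] at h2
      exact (mem_maximalIdeal _).mp h2 hg.1
  have h3 : ((3 : ℕ) : ℕ∞) ≤ N.height := by
    have h4 : ((2 : ℕ) : ℕ∞) ≤ (n.map (Polynomial.C : f.range →+* f.range[X])).height :=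
      dmp_map_C 2 n (by exact_mod_cast hd)
    have h5 := Ideal.height_add_one_le_of_lt_of_isPrime hlt
    calc ((3 : ℕ) : ℕ∞) = ((2 : ℕ) : ℕ∞) + 1 := by norm_num
      _ ≤ _ := by gcongr
      _ ≤ _ := h5
  have h7 := dmp_quot π' hπ's r hπ'r0 P' ?_ 2 (by rw [hNP]; exact h3)
  · exact_mod_cast h7
  · intro p hp
    have hp0 : p.eval₂ f.range.subtype t = 0 := congrArg (fun z : f'.range => (z : W)) hp
    obtain ⟨s, hs, hsp⟩ := dmp_ker hR B W f x y hx hy hpar hd t hyx p.natDegree p le_rfl hp0
    refine ⟨Polynomial.C s, ?_, hsp⟩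
    intro h10
    have h11 : Polynomial.eval₂ f.range.subtype t (Polynomial.C s) ∈ maximalIdeal W := h10
    rw [Polynomial.eval₂_C] at h11
    exact (mem_maximalIdeal _).mp h11 hs

end Pool.Agent.Helper10.MV
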