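import Pool.Agent.Helper10.MV.Stm

/-!
# The dimension is preserved: an elementary proof
-/

set_option autoImplicit false
set_option linter.unusedSectionVars false

open scoped TensorProduct
open IsLocalRing Polynomial

universe u

namespace Pool.Agent.Helper10.MV

open Pool.Agent.Helper7.LU (psi inc)
open Pool.Agent.Helper10.MU

/-- polynomials that vanish at `t = y / x` have coefficients in the centre -/
theorem dmq_coeff {B W : Type u} [CommRing B] [CommRing W] [IsDomain W] [ValuationRing W] (f : B →+* W)
    (x y : B) (hx : f x ∈ maximalIdeal W) (t : W) (ht : f y = f x * t)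
    (h : ∀ b c : B, f b * f y = f c * f x → b ∈ sat f (Ideal.span {x} ⊔ RingHom.ker f)) (n : ℕ) :
    ∀ p : B[X], p.natDegree ≤ n → p.eval₂ f t = 0 → ∀ i, f (p.coeff i) ∈ maximalIdeal W := by
  -- `a y ^ n ∈ (x)` implies `a ∈ (x)`
  have key : ∀ n : ℕ, ∀ b c : B, f b * f y ^ n = f c * f x →
      ∃ u d : B, IsUnit (f u) ∧ f u * f b = f d * f x := by
    intro n
    induction n with
    | zero =>
      intro b c e
      exact ⟨1, c, by simp, by rw [map_one, one_mul, ← e, pow_zero, mul_one]⟩
    | succ n ih =>
      intro b c e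
      obtain ⟨u, hu, hub⟩ := h (b * y ^ n) c (by rw [map_mul, map_pow, ← e, pow_succ]; ring)
      obtain ⟨z, hz, k, hk, e3⟩ := Submodule.mem_sup.1 hub
      obtain ⟨d, hd⟩ := Ideal.mem_span_singleton'.1 hz
      have e4 := congrArg f e3
      rw [map_add, (RingHom.mem_ker).1 hk, add_zero, ← hd, map_mul, map_mul, map_mul, map_pow] at e4
      obtain ⟨v, d', hv, e5⟩ := ih (u * b) d (by rw [map_mul, e4]; ring)
      refine ⟨v * u, d', by rw [map_mul]; exact hv.mul hu, ?_⟩
      rw [map_mul, mul_assoc, ← map_mul f u b]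
      exact e5
  induction n with
  | zero =>
    intro p hp he i
    have e : p = C (p.coeff 0) := Polynomial.eq_C_of_natDegree_le_zero hp
    rw [e, Polynomial.eval₂_C] at he
    by_cases hi : i = 0
    · subst hi
      rw [he]
      exact Ideal.zero_mem _
    · rw [e, Polynomial.coeff_C, if_neg hi, map_zero]
      exact Ideal.zero_mem _
  | succ n ih =>
    intro p hp he
    -- the leading coefficient
    have e1 : p.eval₂ f t = ∑ i ∈ Finset.range (n + 2), f (p.coeff i) * t ^ i := by
      rw [Polynomial.eval₂_eq_sum_range' f (show p.natDegree < n + 2 by omega)]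
    have e2 : f (p.coeff (n + 1)) * f y ^ (n + 1) =
        f (-∑ i ∈ Finset.range (n + 1), p.coeff i * y ^ i * x ^ (n - i)) * f x := by
      have h3 : f x ^ (n + 1) * p.eval₂ f t = ∑ i ∈ Finset.range (n + 2),
          f (p.coeff i) * f y ^ i * f x ^ (n + 1 - i) := by
        rw [e1, Finset.mul_sum]
        refine Finset.sum_congr rfl fun i hi => ?_
        have hi' : i ≤ n + 1 := by have := Finset.mem_range.1 hi; omega
        have : f x ^ (n + 1) = f x ^ (n + 1 - i) * f x ^ i := by
          rw [← pow_add]
          congr 1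
          omega
        rw [this, ht, mul_pow]
        ring
      rw [he, mul_zero, Finset.sum_range_succ, Nat.sub_self, pow_zero, mul_one] at h3
      have h4 : ∑ i ∈ Finset.range (n + 1), f (p.coeff i) * f y ^ i * f x ^ (n + 1 - i) =
          f (∑ i ∈ Finset.range (n + 1), p.coeff i * y ^ i * x ^ (n - i)) * f x := by
        rw [map_sum, Finset.sum_mul]
        refine Finset.sum_congr rfl fun i hi => ?_
        have : n + 1 - i = (n - i) + 1 := by have := Finset.mem_range.1 hi; omega
        rw [map_mul, map_mul, map_pow, map_pow, this, pow_succ]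
        ring
      rw [h4] at h3
      rw [map_neg]
      linear_combination -h3
    obtain ⟨u, d, hu, hd⟩ := key (n + 1) _ _ e2
    -- the reduced polynomial
    set q : B[X] := C u * (p - C (p.coeff (n + 1)) * X ^ (n + 1)) + C (d * y) * X ^ n with hq
    have hqdeg : q.natDegree ≤ n := by
      rw [Polynomial.natDegree_le_iff_coeff_eq_zero]
      intro N hN
      have h5 : (C (d * y) * X ^ n : B[X]).coeff N = 0 := by
        rw [Polynomial.coeff_C_mul_X_pow, if_neg (by omega)]
      rw [hq, Polynomial.coeff_add, h5, Polynomial.coeff_C_mul, Polynomial.coeff_sub,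
        Polynomial.coeff_C_mul_X_pow, add_zero]
      by_cases hN' : N = n + 1
      · rw [if_pos hN', hN', sub_self, mul_zero]
      · rw [if_neg hN', Polynomial.coeff_eq_zero_of_natDegree_lt (by omega), sub_zero, mul_zero]
    have hq0 : q.eval₂ f t = 0 := by
      rw [hq]
      simp only [Polynomial.eval₂_add, Polynomial.eval₂_mul, Polynomial.eval₂_sub, Polynomial.eval₂_C,
        Polynomial.eval₂_pow, Polynomial.eval₂_X]
      rw [he, map_mul, ht, zero_sub]
      have : f u * f (p.coeff (n + 1)) * t ^ (n + 1) = f d * f x * t ^ (n + 1) := by rw [hd]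
      linear_combination -this
    have hqc := ih q hqdeg hq0
    intro i
    have hy : f y ∈ maximalIdeal W := by
      rw [ht]
      exact Ideal.mul_mem_right _ _ hx
    have hstep : ∀ b : B, f (u * b) ∈ maximalIdeal W → f b ∈ maximalIdeal W := by
      intro b hb
      rw [map_mul] at hb
      rcases (Ideal.IsPrime.mem_or_mem inferInstance hb) with h | h
      · exact absurd hu ((mem_maximalIdeal _).1 h)
      · exact h
    by_cases hi : i = n + 1
    · subst hi
      refine hstep _ ?_
      rw [map_mul, hd]
      exact Ideal.mul_mem_left _ _ hx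
    · refine hstep _ ?_
      have h1 := hqc i
      rw [hq, Polynomial.coeff_add, Polynomial.coeff_C_mul, Polynomial.coeff_sub,
        Polynomial.coeff_C_mul_X_pow, if_neg hi, sub_zero, Polynomial.coeff_C_mul_X_pow, map_add] at h1
      have h2 : f (if i = n then d * y else 0) ∈ maximalIdeal W := by
        split_ifs
        · rw [map_mul]
          exact Ideal.mul_mem_left _ _ hy
        · rw [map_zero]
          exact Ideal.zero_mem _
      exact (Ideal.add_mem_iff_left _ h2).1 h1

/-- **DMP** -/
theorem dmq (hrsd : S_RSD.{u}) : S_DMP.{u} := by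
  intro B B' W _ _ _ _ _ _ f f' φ hφ x y hx hy hpar hdim T hT hgen g hg
  obtain ⟨hl, hgd, hgt, -⟩ := hg
  have hrs := hrsd B W f x y hx hy hpar hdim
  set t := f' T with ht
  have hyt : f y = f x * t := by
    rw [← hφ y, hT, map_mul, hφ]
  -- `f x` is not zero
  have hx0 : f x ≠ 0 := by
    intro h0
    have hbot : (maximalIdeal W).comap f.range.subtype = ⊥ := by
      rw [eq_bot_iff]
      rintro ⟨_, b, rfl⟩ hc
      have hbm : f b ∈ maximalIdeal W := hc
      obtain ⟨u, hu, hub⟩ := hpar b hbm
      obtain ⟨z, hz, k, hk, e⟩ := Submodule.mem_sup.1 hub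
      have hr : Set.range ![x, y] = {x, y} := Matrix.range_cons_cons_empty x y _
      rw [hr] at hz
      obtain ⟨p, q, hpq⟩ := Ideal.mem_span_pair.1 hz
      have e2 := congrArg f e
      rw [map_add, (RingHom.mem_ker).1 hk, add_zero, ← hpq, map_add, map_mul, map_mul, map_mul, hyt,
        h0, mul_zero, zero_mul, mul_zero, add_zero] at e2
      rcases mul_eq_zero.1 e2.symm with h | h
      · rw [h] at hu
        exact absurd hu not_isUnit_zero
      · rw [Ideal.mem_bot]
        exact Subtype.ext h
    unfold cht at hdim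
    rw [hbot, Ideal.height_bot] at hdim
    simp at hdim
  -- the elements of `f'.range`
  have hev : ∀ p : B[X], f' (p.eval₂ φ T) = p.eval₂ f t := by
    intro p
    rw [Polynomial.hom_eval₂]
    congr 1
    ext b
    exact hφ b
  have hmemR : ∀ p : B[X], p.eval₂ f t ∈ f'.range := fun p => ⟨p.eval₂ φ T, hev p⟩
  have hsurj : ∀ c : f'.range, ∃ p : B[X], (c : W) = p.eval₂ f t := by
    rintro ⟨_, b, rfl⟩
    obtain ⟨p, hp⟩ := hgen b
    exact ⟨p, by rw [← hev p, ← hp]⟩
  -- the multiplicative set
  let G : f'.range := ⟨g.eval₂ f t, hmemR g⟩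
  let X' : f'.range := ⟨f x, ⟨φ x, hφ x⟩⟩
  let S : Submonoid f'.range :=
    { carrier := {c | ∃ (s : f'.range) (k : ℕ), IsUnit (s : W) ∧ c = s * G ^ k}
      one_mem' := ⟨1, 0, by simp, by simp⟩
      mul_mem' := by
        rintro _ _ ⟨s, k, hs, rfl⟩ ⟨s', k', hs', rfl⟩
        exact ⟨s * s', k + k', by rw [Subring.coe_mul]; exact hs.mul hs', by rw [pow_add]; ring⟩ }
  have hdisj : Disjoint ((Ideal.span {X'} : Ideal f'.range) : Set f'.range) S := by
    rw [Set.disjoint_left]
    rintro c hc ⟨s, k, hs, rfl⟩
    obtain ⟨h, hh⟩ := Ideal.mem_span_singleton'.1 hc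
    obtain ⟨σ, hσ⟩ := hsurj s
    obtain ⟨η, hη⟩ := hsurj h
    have e1 : η.eval₂ f t * f x = σ.eval₂ f t * (g.eval₂ f t) ^ k := by
      have := congrArg (Subtype.val : f'.range → W) hh
      rw [Subring.coe_mul, Subring.coe_mul, Subring.coe_pow, hσ, hη] at this
      exact this
    have e2 : (σ * g ^ k - C x * η).eval₂ f t = 0 := by
      rw [Polynomial.eval₂_sub, Polynomial.eval₂_mul, Polynomial.eval₂_mul, Polynomial.eval₂_pow,
        Polynomial.eval₂_C, ← e1]
      ring
    have h1 := dmq_coeff f x y hx t hyt hrs _ _ (le_refl _) e2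
    -- reduction modulo the maximal ideal
    let r : B →+* ResidueField W := (residue W).comp f
    have hr : ∀ b, r b = 0 ↔ f b ∈ maximalIdeal W := fun b => residue_eq_zero_iff (f b)
    have h2 : (σ * g ^ k - C x * η).map r = 0 := by
      ext i
      rw [Polynomial.coeff_map, Polynomial.coeff_zero, hr]
      exact h1 i
    have h3 : σ.map r * (g.map r) ^ k = 0 := by
      rw [Polynomial.map_sub, Polynomial.map_mul, Polynomial.map_mul, Polynomial.map_pow,
        Polynomial.map_C, (hr x).2 hx, C_0, zero_mul, sub_zero] at h2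
      exact h2
    have hg0 : g.map r ≠ 0 := by
      intro h0
      have h4 : r (g.coeff g.natDegree) = 0 := by
        rw [← Polynomial.coeff_map, h0, Polynomial.coeff_zero]
      exact (mem_maximalIdeal _).1 ((hr _).1 h4) hl
    rcases mul_eq_zero.1 h3 with h4 | h4
    · have h5 : (σ.eval₂ f t) ∈ maximalIdeal W := by
        rw [Polynomial.eval₂_eq_sum_range]
        refine Ideal.sum_mem _ fun i _ => Ideal.mul_mem_right _ _ ?_
        rw [← hr, ← Polynomial.coeff_map, h4, Polynomial.coeff_zero]
      rw [hσ] at hs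
      exact (mem_maximalIdeal _).1 h5 hs
    · exact pow_ne_zero k hg0 h4
  obtain ⟨P, hP, hXP, hPS⟩ := Ideal.exists_le_prime_disjoint _ S hdisj
  -- the chain of prime ideals
  set N : Ideal f'.range := (maximalIdeal W).comap f'.range.subtype with hN
  have hNp : N.IsPrime := Ideal.comap_isPrime _ _
  have hPN : P < N := by
    refine lt_of_le_of_ne ?_ ?_
    · intro c hc
      by_contra hcn
      have hcu : IsUnit (c : W) := by
        by_contra h
        exact hcn ((mem_maximalIdeal _).2 h)
      exact Set.disjoint_left.1 hPS hc ⟨c, 0, hcu, by simp⟩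
    · intro h
      have hGN : G ∈ N := hgt
      rw [← h] at hGN
      exact Set.disjoint_left.1 hPS hGN ⟨1, 1, by simp, by simp⟩
  have hbP : (⊥ : Ideal f'.range) < P := by
    refine lt_of_le_of_ne bot_le ?_
    intro h
    have hX : X' ∈ P := hXP (Ideal.mem_span_singleton_self X')
    rw [← h, Ideal.mem_bot] at hX
    exact hx0 (congrArg (Subtype.val : f'.range → W) hX)
  have hbp : (⊥ : Ideal f'.range).IsPrime := Ideal.isPrime_bot
  have h1 := Ideal.height_add_one_le_of_lt_of_isPrime hbP
  have h2 := Ideal.height_add_one_le_of_lt_of_isPrime hPN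
  unfold cht
  rw [← hN]
  calc (2 : ℕ∞) = 0 + 1 + 1 := by norm_num
    _ ≤ (⊥ : Ideal f'.range).height + 1 + 1 := by gcongr; exact bot_le
    _ ≤ P.height + 1 := by gcongr
    _ ≤ N.height := h2

end Pool.Agent.Helper10.MV
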