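import Pool.Agent.Helper10.MV.Stm

/-!
# Division by a minimal polynomial
-/

set_option autoImplicit false
set_option linter.unusedSectionVars false

open scoped TensorProduct
open IsLocalRing Polynomial

universe u

namespace Pool.Agent.Helper10.MV

open Pool.Agent.Helper7.LU (psi inc)
open Pool.Agent.Helper10.MU

/-- Pseudo-division. -/
theorem dvg_pdiv {B : Type u} [CommRing B] (g : B[X]) (hg : 1 ≤ g.natDegree) (n : ℕ) :
    ∀ φ : B[X], φ.natDegree ≤ n → ∃ (m : ℕ) (q ρ : B[X]),
      C (g.leadingCoeff ^ m) * φ = g * q + ρ ∧ ρ.natDegree < g.natDegree ∧ q.natDegree ≤ n - 1 := by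
  induction n with
  | zero =>
    intro φ hφ
    exact ⟨0, 0, φ, by simp, by omega, by simp⟩
  | succ n ih =>
    intro φ hφ
    by_cases hd : φ.natDegree < g.natDegree
    · exact ⟨0, 0, φ, by simp, hd, by simp⟩
    · set d := g.natDegree with hdd
      have hdn : d ≤ n + 1 := by omega
      have h1 : (C g.leadingCoeff * φ - C (φ.coeff (n + 1)) * X ^ (n + 1 - d) * g).natDegree ≤ n := by
        rw [Polynomial.natDegree_le_iff_coeff_eq_zero]
        intro N hN
        rw [Polynomial.coeff_sub, Polynomial.coeff_C_mul, mul_assoc, Polynomial.coeff_C_mul,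
          mul_comm (X ^ (n + 1 - d)), Polynomial.coeff_mul_X_pow', if_pos (by omega)]
        rcases Nat.lt_or_ge (n + 1) N with h | h
        · rw [Polynomial.coeff_eq_zero_of_natDegree_lt (p := φ) (by omega),
            Polynomial.coeff_eq_zero_of_natDegree_lt (p := g) (by omega)]
          ring
        · have hN' : N = n + 1 := by omega
          subst hN'
          have : n + 1 - (n + 1 - d) = d := by omega
          rw [this, hdd, Polynomial.coeff_natDegree]
          ring
      obtain ⟨m, q, ρ, e, hρ, hq⟩ := ih _ h1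
      refine ⟨m + 1, q + C (g.leadingCoeff ^ m * φ.coeff (n + 1)) * X ^ (n + 1 - d), ρ, ?_, hρ, ?_⟩
      · have e2 : C (g.leadingCoeff ^ (m + 1)) * φ = C (g.leadingCoeff ^ m) *
            (C g.leadingCoeff * φ - C (φ.coeff (n + 1)) * X ^ (n + 1 - d) * g) +
            g * (C (g.leadingCoeff ^ m * φ.coeff (n + 1)) * X ^ (n + 1 - d)) := by
          rw [pow_succ, C_mul, C_mul]
          ring
        rw [e2, e]
        ring
      · refine (Polynomial.natDegree_add_le _ _).trans (max_le (by omega) ?_)
        refine (Polynomial.natDegree_C_mul_X_pow_le _ _).trans (by omega)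

theorem dvg_max {B W : Type u} [CommRing B] [CommRing W] [IsLocalRing W] (f : B →+* W) (p q : B[X])
    (h : ∀ i, f (q.coeff i) ∈ maximalIdeal W) (i : ℕ) : f ((p * q).coeff i) ∈ maximalIdeal W := by
  rw [Polynomial.coeff_mul, map_sum]
  refine Ideal.sum_mem _ fun c _ => ?_
  rw [map_mul]
  exact Ideal.mul_mem_left _ _ (h _)

/-- **DVG** -/
theorem dvg : S_DVG.{u} := by
  intro B W _ _ _ _ f t g hg φ r
  obtain ⟨hl, hd, hgt, hmin⟩ := hg
  induction r generalizing φ with
  | zero =>
    intro hφ hu
    obtain ⟨i, hi⟩ := hu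
    have e : φ = C (φ.coeff 0) := Polynomial.eq_C_of_natDegree_le_zero hφ
    have hi0 : i = 0 := by
      by_contra hne
      rw [e, Polynomial.coeff_C, if_neg hne, map_zero] at hi
      exact not_isUnit_zero hi
    subst hi0
    refine ⟨0, 1, φ, 0, le_refl _, by simp, by simp, by simp, ?_⟩
    rw [e, Polynomial.eval₂_C]
    exact hi
  | succ r ih =>
    intro hφ hu
    by_cases hun : IsUnit (φ.eval₂ f t)
    · exact ⟨0, 1, φ, 0, Nat.zero_le _, by simp, by simp, by simp, hun⟩
    · have hφt : φ.eval₂ f t ∈ maximalIdeal W := (mem_maximalIdeal _).2 hun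
      obtain ⟨m, q, ρ, e, hρ, hq⟩ := dvg_pdiv g hd (r + 1) φ hφ
      have hρt : ρ.eval₂ f t ∈ maximalIdeal W := by
        have h2 := congrArg (Polynomial.eval₂ f t) e
        rw [Polynomial.eval₂_mul, Polynomial.eval₂_add, Polynomial.eval₂_mul] at h2
        have h3 : ρ.eval₂ f t = (C (g.leadingCoeff ^ m)).eval₂ f t * φ.eval₂ f t -
            g.eval₂ f t * q.eval₂ f t := by
          rw [h2]
          ring
        rw [h3]
        exact Ideal.sub_mem _ (Ideal.mul_mem_left _ _ hφt) (Ideal.mul_mem_right _ _ hgt)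
      have hρc := hmin ρ hρ hρt
      have hqu : ∃ i, IsUnit (f (q.coeff i)) := by
        by_contra hcon
        push Not at hcon
        have hqm : ∀ i, f (q.coeff i) ∈ maximalIdeal W := fun i => (mem_maximalIdeal _).2 (hcon i)
        obtain ⟨i, hi⟩ := hu
        have h4 : f ((C (g.leadingCoeff ^ m) * φ).coeff i) ∈ maximalIdeal W := by
          rw [e, Polynomial.coeff_add, map_add]
          exact Ideal.add_mem _ (dvg_max f g q hqm i) (hρc i)
        rw [Polynomial.coeff_C_mul, map_mul, map_pow] at h4
        exact (mem_maximalIdeal _).1 h4 ((hl.pow m).mul hi)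
      obtain ⟨k, s, h, ρ', hk, hs, e', hρ', hh⟩ := ih q (by omega) hqu
      refine ⟨k + 1, s * g.leadingCoeff ^ m, h, g * ρ' + C s * ρ, by omega, ?_, ?_, ?_, hh⟩
      · rw [map_mul, map_pow]
        exact hs.mul (hl.pow m)
      · have e3 : C (s * g.leadingCoeff ^ m) * φ = C s * (C (g.leadingCoeff ^ m) * φ) := by
          rw [C_mul]
          ring
        rw [e3, e, mul_add]
        have e4 : C s * (g * q) = g * (C s * q) := by ring
        rw [e4, e', pow_succ]
        ring
      · intro i
        rw [Polynomial.coeff_add, map_add]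
        exact Ideal.add_mem _ (dvg_max f g ρ' hρ' i) (dvg_max f (C s) ρ hρc i)

end Pool.Agent.Helper10.MV
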