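import Pool.Agent.Helper10.MV.Stm
import Pool.Agent.Helper10.MU.Fin

/-!
# Module FN2: the last blowing up (adapted from Pool/Agent/Helper10/MU/Fin.lean)
-/

set_option autoImplicit false
set_option linter.unusedSectionVars false

open scoped TensorProduct
open IsLocalRing

universe u

namespace Pool.Agent.Helper10.MV

open Pool.Agent.Helper7.LU (psi inc)
open Pool.Agent.Helper10.MU

section fin

variable {R V W B : Type u} [CommRing R] [IsLocalRing R] [CommRing V] [IsDomain V] [ValuationRing V]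
  [CommRing W] [IsDomain W] [ValuationRing W] [CommRing B] [Algebra R V] [Algebra V W] [Algebra R B]

variable {A : Subalgebra R V} {ψ : B →+* W} {ic : A →ₐ[R] B} {τ : A} {M : ℕ}

/-- The elements of the new algebra are fractions. -/
theorem fn2_frac (D : FinD A ψ ic τ M) (a : V) (ha : a ∈ finB ψ ic τ) :
    ∃ s b : B, IsUnit (ψ s) ∧ ψ s * algebraMap V W a = ψ b := by
  rw [finB] at ha
  refine Algebra.adjoin_induction (p := fun (a : V) _ =>
    ∃ s b : B, IsUnit (ψ s) ∧ ψ s * algebraMap V W a = ψ b) ?_ ?_ ?_ ?_ ha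
  · rintro v (hv | ⟨a0, ha0, hav⟩)
    · exact ⟨1, ic ⟨v, hv⟩, by rw [map_one]; exact isUnit_one, by rw [map_one, one_mul, D.ψic]⟩
    · obtain ⟨s, hs, hsa⟩ := mem_sat.mp (mem_finA.mp ha0)
      obtain ⟨c, hc, q, hq, hcq⟩ := Submodule.mem_sup.mp hsa
      obtain ⟨b, hb, rfl⟩ := Ideal.mem_span_singleton_mul.mp hc
      refine ⟨s, b, hs, ?_⟩
      have hτ : algebraMap V W (τ : V) ≠ 0 := fun h => D.τ0 (D.inj (by rw [h, map_zero]))
      apply mul_left_cancel₀ hτ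
      have h2 := congrArg ψ hcq
      rw [map_add, map_mul, map_mul, D.ψic, D.ψic, RingHom.mem_ker.mp hq, add_zero, hav,
        map_mul] at h2
      rw [h2]
      ring
  · intro r
    refine ⟨1, ic (algebraMap R A r), by rw [map_one]; exact isUnit_one, ?_⟩
    rw [map_one, one_mul, D.ψic]
    rfl
  · rintro x y _ _ ⟨s, b, hs, hb⟩ ⟨t, c, ht, hc⟩
    refine ⟨s * t, t * b + s * c, by rw [map_mul]; exact hs.mul ht, ?_⟩
    rw [map_add, map_add, map_mul, map_mul, map_mul, ← hb, ← hc]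
    ring
  · rintro x y _ _ ⟨s, b, hs, hb⟩ ⟨t, c, ht, hc⟩
    refine ⟨s * t, b * c, by rw [map_mul]; exact hs.mul ht, ?_⟩
    rw [map_mul, map_mul, map_mul, ← hb, ← hc]
    ring

theorem fn2_last (D : FinD A ψ ic τ M) [IsNoetherianRing A] (hA : A.FG) {e h : ℕ} (x : Fin e → A)
    (hpar : Par ψ (fun i => ic (x i))) (q : Fin h → B) (w : B)
    (hq : ∀ i, q i ∈ RingHom.ker ψ)
    (hfree : ∀ p ∈ RingHom.ker ψ, ∃ s, IsUnit (ψ s) ∧
      ∃ g ∈ Ideal.span (Set.range q), ∃ p' ∈ RingHom.ker ψ, w * p' ∈ RingHom.ker ψ ^ 2 ∧ s * p = g + p')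
    (hτ : ic τ ∈ sat ψ (Ideal.span {w} ⊔ RingHom.ker ψ)) :
    ∃ (A' : Subalgebra R V) (hA : A ≤ A') (z : Fin h → A'), A'.FG ∧
      (∀ i, (z i : V) ∈ maximalIdeal V) ∧
      (∀ a : A, a ∈ finA ψ ic τ → ∃ v : A', (v : V) ∈ maximalIdeal V ∧ (a : V) = τ * v) ∧
      cen A' ≤ sat (algebraMap A' V)
        (Ideal.span (Set.range (fun i => Subalgebra.inclusion hA (x i)) ∪ Set.range z) ⊔
          cen A' ^ 2) ∧
      ∀ a ∈ A', ∃ s b : B, IsUnit (ψ s) ∧ ψ s * algebraMap V W a = ψ b := by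
  have hAB : A ≤ finB ψ ic τ := le_finB
  -- the elements `y i`
  have hy0 : ∀ i, ∃ y : A, q i - ic y ∈ (maximalIdeal R ^ (2 * M)).map (algebraMap R B) :=
    fun i => D.ap (2 * M) (q i)
  choose y hy using hy0
  have hya : ∀ i, y i ∈ finA ψ ic τ := fun i => D.f2' (2 * M) (by omega) (q i) (hq i) (y i) (hy i)
  have hz0 : ∀ i, ∃ v ∈ maximalIdeal V, (y i : V) = τ * v := fun i => D.f0 _ (hya i)
  choose z0 hz0m hz0e using hz0
  let z : Fin h → finB ψ ic τ := fun i => ⟨z0 i, finS_subset ⟨y i, hya i, hz0e i⟩⟩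
  refine ⟨finB ψ ic τ, hAB, z, D.finB_fg hA, hz0m, ?_, ?_, fn2_frac D⟩
  · intro a ha
    obtain ⟨v, hv, hav⟩ := D.f0 a ha
    exact ⟨⟨v, finS_subset ⟨a, ha, hav⟩⟩, hv, hav⟩
  set ι : A →ₐ[R] finB ψ ic τ := Subalgebra.inclusion hAB with hιdef
  have hι : ∀ a : A, ((ι a : finB ψ ic τ) : V) = a := fun a => rfl
  set m := cen (finB ψ ic τ) with hm
  have hmem : ∀ x : finB ψ ic τ, x ∈ m ↔ (x : V) ∈ maximalIdeal V := fun x => Iff.rfl
  let J : Ideal (finB ψ ic τ) := Ideal.span {x : finB ψ ic τ | (x : V) ∈ finS ψ ic τ}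
  set T : Ideal (finB ψ ic τ) := sat (algebraMap (finB ψ ic τ) V)
    (Ideal.span (Set.range (fun i => ι (x i)) ∪ Set.range z) ⊔ m ^ 2) with hT
  have hJm : J ≤ m := by
    rw [Ideal.span_le]
    rintro x ⟨a, ha, hax⟩
    obtain ⟨v, hv, hav⟩ := D.f0 a ha
    have h3 : (x : V) = v := mul_left_cancel₀ D.τ0 (by rw [← hax, hav])
    change (x : V) ∈ maximalIdeal V
    rw [h3]
    exact hv
  have hm2T : m ^ 2 ≤ T := le_sup_right.trans (le_sat _ _)
  have hzT : ∀ i, z i ∈ T := fun i =>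
    le_sat _ _ (Ideal.mem_sup_left (Ideal.subset_span (Or.inr ⟨i, rfl⟩)))
  have hxT : ∀ i, ι (x i) ∈ T := fun i =>
    le_sat _ _ (Ideal.mem_sup_left (Ideal.subset_span (Or.inl ⟨i, rfl⟩)))
  have hsat : ∀ (s : A) (b : finB ψ ic τ), IsUnit (s : V) → ι s * b ∈ T → b ∈ T := by
    intro s b hs hb
    exact sat_sat _ _ ⟨ι s, hs, hb⟩
  -- step 1
  have h1 : ∀ a ∈ finA ψ ic τ, ι a ∈ m ^ 2 := by
    intro a ha
    obtain ⟨v, hv, hav⟩ := D.f0 a ha
    have h3 : ι a = ι τ * ⟨v, finS_subset ⟨a, ha, hav⟩⟩ := by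
      apply Subtype.ext
      exact hav
    rw [h3, pow_two]
    exact Ideal.mul_mem_mul D.τm hv
  -- step 2
  have h2 : ∀ a ∈ cen A, ι a ∈ T := by
    intro a ha
    obtain ⟨σ, hσ, hσa⟩ := D.f6 x hpar a ha
    apply hsat σ _ hσ
    rw [← map_mul]
    have h3 : Ideal.span (Set.range x) ⊔ finA ψ ic τ ≤ T.comap ι := by
      refine sup_le ?_ (fun a ha => hm2T (h1 a ha))
      rw [Ideal.span_le]
      rintro _ ⟨i, rfl⟩
      exact hxT i
    exact h3 hσa
  -- step 3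
  let 𝔟 : Ideal A :=
    { carrier := {u | ∃ w ∈ T, (u : V) = τ ^ 2 * (w : V)}
      zero_mem' := ⟨0, zero_mem _, by simp⟩
      add_mem' := by
        rintro a b ⟨w, hw, haw⟩ ⟨w', hw', hbw⟩
        exact ⟨w + w', add_mem hw hw', by
          rw [Subalgebra.coe_add, Subalgebra.coe_add, haw, hbw]
          ring⟩
      smul_mem' := by
        rintro c a ⟨w, hw, haw⟩
        refine ⟨ι c * w, Ideal.mul_mem_left _ _ hw, ?_⟩
        rw [smul_eq_mul, Subalgebra.coe_mul, Subalgebra.coe_mul, haw, hι]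
        ring }
  have h𝔟 : Ideal.span {τ ^ 2} * cen A ⊔ Ideal.span (Set.range fun i => τ * y i) ⊔
      finA ψ ic τ ^ 2 ≤ 𝔟 := by
    refine sup_le (sup_le ?_ ?_) ?_
    · intro c hc
      obtain ⟨b, hb, rfl⟩ := Ideal.mem_span_singleton_mul.mp hc
      exact ⟨ι b, h2 b hb, by rw [Subalgebra.coe_mul, Subalgebra.coe_pow, hι]⟩
    · rw [Ideal.span_le]
      rintro _ ⟨i, rfl⟩
      refine ⟨z i, hzT i, ?_⟩
      change ((τ * y i : A) : V) = τ ^ 2 * z0 i
      rw [Subalgebra.coe_mul, hz0e]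
      ring
    · rw [pow_two, Ideal.mul_le]
      intro a ha b hb
      obtain ⟨v, hv, hav⟩ := D.f0 a ha
      obtain ⟨w, hw, hbw⟩ := D.f0 b hb
      let v' : finB ψ ic τ := ⟨v, finS_subset ⟨a, ha, hav⟩⟩
      let w' : finB ψ ic τ := ⟨w, finS_subset ⟨b, hb, hbw⟩⟩
      have hv' : v' ∈ m := hv
      have hw' : w' ∈ m := hw
      refine ⟨v' * w', hm2T ?_, ?_⟩
      · rw [pow_two]
        exact Ideal.mul_mem_mul hv' hw'
      · rw [Subalgebra.coe_mul, hav, hbw, Subalgebra.coe_mul]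
        ring
  have hJT : J ≤ T := by
    rw [Ideal.span_le]
    rintro v ⟨a, ha, hav⟩
    obtain ⟨σ, hσ, hσa⟩ := D.f7 q w hq hfree hτ y hy a ha
    obtain ⟨u, hu, hxu⟩ := h𝔟 hσa
    have h3 : ι σ * v = u := by
      apply Subtype.ext
      apply mul_left_cancel₀ (pow_ne_zero 2 D.τ0)
      rw [← hxu, Subalgebra.coe_mul, Subalgebra.coe_mul, Subalgebra.coe_mul, hι, hav]
      ring
    apply hsat σ _ hσ
    rw [h3]
    exact hu
  have hdec : ∀ x : V, x ∈ finB ψ ic τ → ∃ a : A, ∃ j ∈ J, x = a + (j : V) := by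
    intro x hx
    rw [finB] at hx
    refine Algebra.adjoin_induction (p := fun (x : V) _ => ∃ a : A, ∃ j ∈ J, x = a + (j : V)) ?_ ?_ ?_ ?_ hx
    · rintro x (hx | hx)
      · exact ⟨⟨x, hx⟩, 0, zero_mem _, by simp⟩
      · exact ⟨0, ⟨x, finS_subset hx⟩, Ideal.subset_span hx, by simp⟩
    · intro r
      refine ⟨algebraMap R A r, 0, zero_mem _, ?_⟩
      rw [ZeroMemClass.coe_zero, add_zero]
      rfl
    · rintro x y _ _ ⟨a, j, hj, rfl⟩ ⟨b, k, hk, rfl⟩
      refine ⟨a + b, j + k, add_mem hj hk, ?_⟩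
      rw [Subalgebra.coe_add, Subalgebra.coe_add]
      ring
    · rintro x y _ _ ⟨a, j, hj, rfl⟩ ⟨b, k, hk, rfl⟩
      refine ⟨a * b, ι a * k + ι b * j + j * k, add_mem (add_mem (Ideal.mul_mem_left _ _ hk)
        (Ideal.mul_mem_left _ _ hj)) (Ideal.mul_mem_left _ _ hk), ?_⟩
      simp only [Subalgebra.coe_add, Subalgebra.coe_mul, hι]
      ring
  intro x' hx'
  obtain ⟨a, j, hj, hxa⟩ := hdec x' x'.2
  have hxj : x' = ι a + j := by
    apply Subtype.ext
    rw [Subalgebra.coe_add, hι, hxa]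
  have ham : a ∈ cen A := by
    change (a : V) ∈ maximalIdeal V
    have h3 : (a : V) = (x' : V) - (j : V) := by rw [hxa]; ring
    rw [h3]
    exact Ideal.sub_mem _ hx' (hJm hj)
  rw [hxj]
  exact Ideal.add_mem _ (h2 a ham) (hJT hj)

end fin

theorem fn2 : S_FN2.{u} := by
  intro R V S W _ _ _ _ _ _ _ _ _ _ _ _ _ _ _ _ _ _ hD e A x hL hx h q w hF τ hτ0 hτm hτw M hM hsm
  have : IsNoetherianRing A := isNoetherianRing_of_fg hL.fg
  have D : FinD A (ps S W A) (inc S A) τ M :=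
    { ψic := fun a => ps_inc A a
      inj := hD.inj
      div := hD.div
      dom := hD.dom
      ap := fun n b => hD.approx_tensor A n b
      co := fun n I hI a ha => hD.contract A n I hI a ha
      τ0 := hτ0
      τm := hτm
      M0 := hM
      small := hsm }
  exact fn2_last D hL.fg (fun i => ⟨x i, hL.mem i⟩) hL.par q w hF.1 hF.2 hτw

end Pool.Agent.Helper10.MV
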