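import Pool.Agent.Helper10.MV.Stm

/-!
# FP2: `Free` persists
-/

set_option autoImplicit false
set_option linter.unusedSectionVars false

open scoped TensorProduct
open IsLocalRing

universe u

namespace Pool.Agent.Helper10.MV

open Pool.Agent.Helper7.LU (psi inc)
open Pool.Agent.Helper10.MU

theorem fp2 : S_FP2.{u} := by
  intro R V S W _ _ _ _ _ _ _ _ _ _ _ _ _ _ _ _ _ _ _ A A' le hker h q w hF
  obtain ⟨h1, h2⟩ := hF
  have hk : ∀ b ∈ RingHom.ker (ps S W A), tr S le b ∈ RingHom.ker (ps S W A') := by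
    intro b hb
    rw [RingHom.mem_ker, ps_tr]
    exact hb
  have hmap : (RingHom.ker (ps S W A)).map (tr S le) ≤ RingHom.ker (ps S W A') := by
    rw [Ideal.map_le_iff_le_comap]
    exact hk
  refine ⟨fun i => hk _ (h1 i), ?_⟩
  have key : ∀ c ∈ (RingHom.ker (ps S W A)).map (tr S le), ∃ s, IsUnit (ps S W A' s) ∧
      ∃ g ∈ Ideal.span (Set.range fun i => tr S le (q i)), ∃ p' ∈ RingHom.ker (ps S W A'),
        tr S le w * p' ∈ RingHom.ker (ps S W A') ^ 2 ∧ s * c = g + p' := by
    intro c hc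
    unfold Ideal.map at hc
    refine Submodule.span_induction (p := fun c _ => ∃ s, IsUnit (ps S W A' s) ∧
      ∃ g ∈ Ideal.span (Set.range fun i => tr S le (q i)), ∃ p' ∈ RingHom.ker (ps S W A'),
        tr S le w * p' ∈ RingHom.ker (ps S W A') ^ 2 ∧ s * c = g + p') ?_ ?_ ?_ ?_ hc
    · rintro _ ⟨k, hk1, rfl⟩
      obtain ⟨s, hs, g, hg, p', hp', hw, he⟩ := h2 k hk1
      refine ⟨tr S le s, by rwa [ps_tr], tr S le g, ?_, tr S le p', hk _ hp', ?_, ?_⟩
      · have h3 : (Ideal.span (Set.range q)).map (tr S le) =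
            Ideal.span (Set.range fun i => tr S le (q i)) := by
          rw [Ideal.map_span, ← Set.range_comp]
          rfl
        rw [← h3]
        exact Ideal.mem_map_of_mem _ hg
      · rw [← map_mul]
        have h3 := Ideal.mem_map_of_mem (tr S le) hw
        rw [Ideal.map_pow] at h3
        exact Ideal.pow_right_mono hmap 2 h3
      · rw [← map_mul, ← map_add]
        exact congrArg _ he
    · exact ⟨1, by simp, 0, Ideal.zero_mem _, 0, Ideal.zero_mem _, by simp, by simp⟩
    · rintro c1 c2 _ _ ⟨s1, hs1, g1, hg1, p1, hp1, hw1, e1⟩ ⟨s2, hs2, g2, hg2, p2, hp2, hw2, e2⟩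
      refine ⟨s1 * s2, by rw [map_mul]; exact hs1.mul hs2, s2 * g1 + s1 * g2,
        Ideal.add_mem _ (Ideal.mul_mem_left _ _ hg1) (Ideal.mul_mem_left _ _ hg2),
        s2 * p1 + s1 * p2,
        Ideal.add_mem _ (Ideal.mul_mem_left _ _ hp1) (Ideal.mul_mem_left _ _ hp2), ?_, ?_⟩
      · have h3 : tr S le w * (s2 * p1 + s1 * p2) =
            s2 * (tr S le w * p1) + s1 * (tr S le w * p2) := by ring
        rw [h3]
        exact Ideal.add_mem _ (Ideal.mul_mem_left _ _ hw1) (Ideal.mul_mem_left _ _ hw2)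
      · linear_combination s2 * e1 + s1 * e2
    · rintro a c _ ⟨s, hs, g, hg, p', hp', hw, he⟩
      refine ⟨s, hs, a * g, Ideal.mul_mem_left _ _ hg, a * p', Ideal.mul_mem_left _ _ hp', ?_, ?_⟩
      · have h3 : tr S le w * (a * p') = a * (tr S le w * p') := by ring
        rw [h3]
        exact Ideal.mul_mem_left _ _ hw
      · rw [smul_eq_mul]
        linear_combination a * he
  intro p hp
  obtain ⟨s0, hs0, hs0p⟩ := hker hp
  obtain ⟨s, hs, g, hg, p', hp', hw, he⟩ := key _ hs0p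
  exact ⟨s * s0, by rw [map_mul]; exact hs.mul hs0, g, hg, p', hp', hw, by rw [mul_assoc]; exact he⟩

end Pool.Agent.Helper10.MV
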