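import Pool.Agent.Helper10.MV.Tr2

/-!
# KY2: finitely many divisibilities become true on a level
-/

set_option autoImplicit false
set_option linter.unusedSectionVars false

open scoped TensorProduct
open IsLocalRing

universe u

namespace Pool.Agent.Helper10.MV

open Pool.Agent.Helper7.LU (psi inc)
open Pool.Agent.Helper10.MU

section

variable {R V S W : Type u} [CommRing R] [IsLocalRing R] [IsNoetherianRing R] [CommRing V]
  [IsDomain V] [ValuationRing V] [CommRing S] [IsNoetherianRing S] [CommRing W] [IsDomain W]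
  [ValuationRing W] [Algebra R V] [Algebra R S] [Algebra V W] [Algebra R W] [Algebra S W]
  [IsScalarTower R S W] [IsScalarTower R V W]

/-- persistence -/
theorem ky2_persist {A A' : Subalgebra R V} (h : A ≤ A') {a b : S ⊗[R] A}
    (hab : a ∈ sat (ps S W A) (Ideal.span {b} ⊔ RingHom.ker (ps S W A))) :
    tr S h a ∈ sat (ps S W A') (Ideal.span {tr S h b} ⊔ RingHom.ker (ps S W A')) := by
  obtain ⟨s, hs, hsa⟩ := hab
  refine ⟨tr S h s, by rwa [ps_tr], ?_⟩
  rw [← map_mul]
  have h1 : (Ideal.span {b} ⊔ RingHom.ker (ps S W A)).map (tr S h) ≤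
      Ideal.span {tr S h b} ⊔ RingHom.ker (ps S W A') := by
    rw [Ideal.map_sup, Ideal.map_span, Set.image_singleton]
    refine sup_le_sup_left ?_ _
    rw [Ideal.map_le_iff_le_comap]
    intro c hc
    rw [Ideal.mem_comap, RingHom.mem_ker, ps_tr]
    exact hc
  exact h1 (Ideal.mem_map_of_mem _ hsa)

/-- one pair -/
theorem ky2_one (hMN2 : S_MN2.{u}) (hPR2 : S_PR2.{u})
    (hD : IsData R V S W) {e : ℕ} {A : Subalgebra R V} {x : Fin e → V} (hL : Good S W A x)
    (a b : S ⊗[R] A) (hb : ps S W A b ≠ 0) (hab : ps S W A b ∣ ps S W A a) :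
    ∃ (A' : Subalgebra R V) (e' : ℕ) (x' : Fin e' → V), ∃ E : Ex S W A A' x x',
      tr S E.le a ∈ sat (ps S W A') (Ideal.span {tr S E.le b} ⊔ RingHom.ker (ps S W A')) := by
  by_cases ha : ps S W A a = 0
  · refine ⟨A, e, x, tr2_refl hL, 1, by simp, ?_⟩
    rw [one_mul]
    refine Ideal.mem_sup_right ?_
    rw [RingHom.mem_ker, ps_tr]
    exact ha
  obtain ⟨A1, e1, x1, E1, β1, s, v, hs, hv, he⟩ := hMN2 R V S W hD e A x hL b hb
  obtain ⟨A2, e2, x2, E2, α2, s', v', hs', hv', he'⟩ := hMN2 R V S W hD e1 A1 x1 E1.good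
    (tr S E1.le a) (by rwa [ps_tr])
  rw [ps_tr] at he'
  -- `mon x1 β1` on the level `A2`
  obtain ⟨β2, t, r, ht, hr, hβ2⟩ := tr2_mon E2.mono β1
  -- the divisibility of the monomials
  have hdvd : mon x2 β2 ∣ mon x2 α2 := by
    apply hD.div
    have h1 : algebraMap V W (mon x2 β2) ∣ ps S W A b := by
      have k1 : algebraMap V W (mon x2 β2) ∣ algebraMap V W (mon x1 β1) := by
        rw [← ht.dvd_mul_left, hβ2]
        exact dvd_mul_left _ _
      refine k1.trans ?_
      rw [← hs.dvd_mul_left, he]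
      exact dvd_mul_left _ _
    have h2 : ps S W A a ∣ algebraMap V W (mon x2 α2) := by
      rw [← hv'.dvd_mul_left, ← he']
      exact dvd_mul_left _ _
    exact h1.trans (hab.trans h2)
  obtain ⟨A3, e3, x3, E3, σ, c, hσ, hc⟩ := hPR2 R V S W hD e2 A2 x2 E2.good β2 α2 hdvd
  have E12 := tr2_trans E1 E2
  have E := tr2_trans E12 E3
  refine ⟨A3, e3, x3, E, ?_⟩
  -- the elements on the last level
  set S1 := tr S (E2.le.trans E3.le) s with hS1
  set V1 := tr S (E2.le.trans E3.le) v with hV1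
  set S2 := tr S E3.le s' with hS2
  set V2 := tr S E3.le v' with hV2
  set T2 := tr S E3.le t with hT2
  set R2 := tr S E3.le r with hR2
  have p1 : ps S W A3 S1 = ps S W A1 s := ps_tr _ _
  have p2 : ps S W A3 V1 = ps S W A1 v := ps_tr _ _
  have p3 : ps S W A3 S2 = ps S W A2 s' := ps_tr _ _
  have p4 : ps S W A3 V2 = ps S W A2 v' := ps_tr _ _
  have p5 : ps S W A3 T2 = ps S W A2 t := ps_tr _ _
  have p6 : ps S W A3 R2 = ps S W A2 r := ps_tr _ _
  -- `σ r v s' a = v' c t s b` in `W`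
  refine ⟨σ * R2 * V1 * S2, ?_, ?_⟩
  · rw [map_mul, map_mul, map_mul, p6, p2, p3]
    exact ((hσ.mul hr).mul hv).mul hs'
  have hker : σ * R2 * V1 * S2 * tr S E.le a - V2 * c * T2 * S1 * tr S E.le b ∈
      RingHom.ker (ps S W A3) := by
    rw [RingHom.mem_ker, map_sub, map_mul, map_mul, map_mul, map_mul, map_mul, map_mul, map_mul,
      map_mul, p1, p2, p3, p4, p5, p6, ps_tr, ps_tr]
    linear_combination (ps S W A3 σ * ps S W A2 r * ps S W A1 v) * he' +
      (ps S W A2 r * ps S W A1 v * ps S W A2 v') * hc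
      - (ps S W A2 v' * ps S W A3 c * ps S W A1 v) * hβ2
      - (ps S W A2 v' * ps S W A3 c * ps S W A2 t) * he
  have h6 : σ * R2 * V1 * S2 * tr S E.le a = V2 * c * T2 * S1 * tr S E.le b +
      (σ * R2 * V1 * S2 * tr S E.le a - V2 * c * T2 * S1 * tr S E.le b) := by ring
  rw [h6]
  exact Ideal.add_mem _ (Ideal.mem_sup_left (Ideal.mem_span_singleton'.2 ⟨_, rfl⟩))
    (Ideal.mem_sup_right hker)

end

theorem ky2 (hMN2 : S_MN2.{u}) (hPR2 : S_PR2.{u}) : S_KY2.{u} := by
  classical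
  intro R V S W _ _ _ _ _ _ _ _ _ _ _ _ _ _ _ _ _ _ hD e A x hL n α β hαβ
  have hall : ∀ T : Finset (Fin n), ∃ (A' : Subalgebra R V) (e' : ℕ) (x' : Fin e' → V),
      ∃ E : Ex S W A A' x x', ∀ k ∈ T, tr S E.le (α k) ∈ sat (ps S W A')
        (Ideal.span {tr S E.le (β k)} ⊔ RingHom.ker (ps S W A')) := by
    intro T
    induction T using Finset.induction_on with
    | empty => exact ⟨A, e, x, tr2_refl hL, by simp⟩
    | insert k T _ ih =>
      obtain ⟨A', e', x', E, hE⟩ := ih
      obtain ⟨A'', e'', x'', E', hE'⟩ := ky2_one hMN2 hPR2 hD E.good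
        (tr S E.le (α k)) (tr S E.le (β k)) (by rw [ps_tr]; exact (hαβ k).1)
        (by rw [ps_tr, ps_tr]; exact (hαβ k).2)
      refine ⟨A'', e'', x'', tr2_trans E E', fun j hj => ?_⟩
      rcases Finset.mem_insert.1 hj with rfl | hj
      · rw [tr_tr, tr_tr] at hE'
        exact hE'
      · have h1 := ky2_persist (W := W) E'.le (hE j hj)
        rw [tr_tr, tr_tr] at h1
        exact h1
  obtain ⟨A', e', x', E, hE⟩ := hall Finset.univ
  exact ⟨A', e', x', E, fun k => hE k (Finset.mem_univ k)⟩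

end Pool.Agent.Helper10.MV
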