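import Pool.Agent.Helper10.MV.Stm
import Pool.Agent.Helper7.LU.Reg

/-!
# Uniformization of valuations with a regular formal surface germ: assembly
-/

set_option autoImplicit false
set_option linter.unusedSectionVars false

open scoped TensorProduct
open IsLocalRing

universe u

namespace Pool.Agent.Helper10.MV

open Pool.Agent.Helper7.LU (psi inc)
open Pool.Agent.Helper10.MU

section

variable {R V S W : Type u} [CommRing R] [IsLocalRing R] [IsNoetherianRing R] [CommRing V] [IsDomain V]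
  [ValuationRing V] [CommRing S] [IsNoetherianRing S] [CommRing W] [IsDomain W] [ValuationRing W] [Algebra R V]
  [Algebra R S] [Algebra V W] [Algebra R W] [Algebra S W] [IsScalarTower R S W] [IsScalarTower R V W]

/-- KY2 for a finite set of pairs. -/
theorem ky2_finset (hKEY : S_KY2.{u}) (hd : IsData R V S W) {e : ℕ} {A : Subalgebra R V} {x : Fin e → V}
    (hL : Good S W A x) (P : Finset ((S ⊗[R] A) × (S ⊗[R] A)))
    (hP : ∀ p ∈ P, ps S W A p.2 ≠ 0 ∧ ps S W A p.2 ∣ ps S W A p.1) :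
    ∃ (A' : Subalgebra R V) (e' : ℕ) (x' : Fin e' → V), ∃ E : Ex S W A A' x x',
      ∀ p ∈ P, tr S E.le p.1 ∈ sat (ps S W A') (Ideal.span {tr S E.le p.2} ⊔ RingHom.ker (ps S W A')) := by
  obtain ⟨A', e', x', E, h⟩ := hKEY R V S W hd e A x hL P.card (fun k => (P.equivFin.symm k).1.1)
    (fun k => (P.equivFin.symm k).1.2) (fun k => hP _ (P.equivFin.symm k).2)
  refine ⟨A', e', x', E, fun p hp => ?_⟩
  have := h (P.equivFin ⟨p, hp⟩)
  simpa using this

/-- All elements of a finite set become monomials times units. -/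
theorem mono_all2 (hTR2 : S_TR2.{u}) (hMN2 : S_MN2.{u}) (hd : IsData R V S W) {e : ℕ}
    {A : Subalgebra R V} {x : Fin e → V} (hL : Good S W A x)
    (F : Finset V) (hF : ∀ f ∈ F, f ∈ A) :
    ∃ (A' : Subalgebra R V) (e' : ℕ) (x' : Fin e' → V), Ex S W A A' x x' ∧
      ∀ f ∈ F, f ≠ 0 → ∃ β, MonAt S W A' x' f β := by
  classical
  induction F using Finset.induction_on with
  | empty => exact ⟨A, e, x, (hTR2 R V S W hd e e e A A A x x x).1 hL, by simp⟩
  | insert f F hfF ih =>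
    obtain ⟨A1, e1, x1, E1, h1⟩ := ih fun g hg => hF g (Finset.mem_insert_of_mem hg)
    by_cases hf0 : f = 0
    · refine ⟨A1, e1, x1, E1, fun g hg hg0 => ?_⟩
      rcases Finset.mem_insert.mp hg with rfl | hg
      · exact absurd hf0 hg0
      · exact h1 g hg hg0
    · have hfA : f ∈ A := hF f (Finset.mem_insert_self _ _)
      have hfA1 : f ∈ A1 := E1.le hfA
      obtain ⟨A2, e2, x2, E2, β, s, v, hs, hv, h2⟩ := hMN2 R V S W hd e1 A1 x1 E1.good (inc S A1 ⟨f, hfA1⟩)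
        (by
          rw [ps_inc]
          exact fun h => hf0 (hd.inj (by rw [h, map_zero])))
      refine ⟨A2, e2, x2, (hTR2 R V S W hd e e1 e2 A A1 A2 x x1 x2).2.1 E1 E2, fun g hg hg0 => ?_⟩
      rcases Finset.mem_insert.mp hg with rfl | hg
      · refine ⟨β, s, v, hs, hv, ?_⟩
        rw [ps_inc] at h2
        exact h2
      · obtain ⟨β', h3⟩ := h1 g hg hg0
        exact (hTR2 R V S W hd e1 e2 e2 A1 A2 A2 x1 x2 x2).2.2 E2 g β' h3

end

section

variable {R V S W K : Type u} [CommRing R] [IsDomain R] [IsLocalRing R] [IsNoetherianRing R] [CommRing V]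
  [IsDomain V] [ValuationRing V] [CommRing S] [IsNoetherianRing S] [CommRing W] [IsDomain W] [ValuationRing W]
  [Algebra R V] [Algebra R S] [Algebra V W] [Algebra R W] [Algebra S W] [IsScalarTower R S W]
  [IsScalarTower R V W] [Field K] [Algebra R K] [IsFractionRing R K] [Algebra V K] [IsScalarTower R V K]

/-- **Uniformization**, abstract form. -/
theorem main2 (hTR2 : S_TR2.{u}) (hMN2 : S_MN2.{u}) (hKY2 : S_KY2.{u}) (hST2 : S_ST2.{u})
    (hFR2 : S_FR2.{u}) (hFP2 : S_FP2.{u}) (hFN2 : S_FN2.{u}) (hCTR : S_CTR.{u}) (hDM2 : S_DM2.{u})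
    (hVK : Function.Injective (algebraMap V K))
    (reg : ∀ (P : Ideal (K ⊗[R] S)) [P.IsPrime], IsRegularLocalRing (Localization.AtPrime P))
    (hd : IsData R V S W) (t : R) (ht : t ∈ maximalIdeal R) (ht0 : t ≠ 0) (e : ℕ) (A₀ : Subalgebra R V)
    (x : Fin e → V) (hL : Good S W A₀ x) :
    ∃ h : ℕ, ∀ F : Finset V, ∃ B : Subalgebra R V, B.FG ∧ A₀ ≤ B ∧ (F : Set V) ⊆ B ∧
      ∃ (_ : (cen B).IsPrime) (e' : ℕ) (y : Fin e' → B) (z : Fin h → B), 1 ≤ e' ∧ e' ≤ 2 ∧
        IsRegularLocalRing (Localization.AtPrime (cen B)) ∧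
        ringKrullDim (Localization.AtPrime (cen B)) = (h + e' : ℕ) ∧
        maximalIdeal (Localization.AtPrime (cen B)) =
          Ideal.span (algebraMap B (Localization.AtPrime (cen B)) '' (Set.range y ∪ Set.range z)) ∧
        ∀ f ∈ F, f ≠ 0 → ∃ (β : Fin e' → ℕ) (s v : B), IsUnit (s : V) ∧ IsUnit (v : V) ∧
          (s : V) * f = v * mon (fun i => (y i : V)) β := by
  classical
  have hRV : Function.Injective (algebraMap R V) := by
    have h1 : (algebraMap R K : R → K) = (algebraMap V K) ∘ (algebraMap R V) := by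
      ext r
      exact IsScalarTower.algebraMap_apply R V K r
    have h2 := IsFractionRing.injective R K
    rw [h1] at h2
    exact h2.of_comp
  have hRW : Function.Injective (algebraMap R W) := by
    have h1 : (algebraMap R W : R → W) = (algebraMap V W) ∘ (algebraMap R V) := by
      ext r
      exact IsScalarTower.algebraMap_apply R V W r
    rw [h1]
    exact hd.inj.comp hRV
  obtain ⟨h, hh⟩ := Pool.Agent.Helper7.LU.generic_fibre (R := R) (V := V) (S := S) (W := W) (K := K) hRW hVK reg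
  refine ⟨h, fun F => ?_⟩
  -- the elements of `F` are in a level
  obtain ⟨A1, e1, x1, hA1, hF1, hL1⟩ := hST2 R V S W K hVK hd e A₀ x hL F
  obtain ⟨A2, e2, x2, E2, hm2⟩ := mono_all2 hTR2 hMN2 hd hL1 F hF1
  -- the kernel
  obtain ⟨-, g, hg, hg'⟩ := hh A2
  obtain ⟨A3, e3, x3, E3, q, w, hw0, hfree⟩ := hFR2 R V S W hd e2 A2 x2 E2.good h g hg hg'
  have hm3 : ∀ f : V, ∃ β, f ∈ F → f ≠ 0 → MonAt S W A3 x3 f β := by
    intro f
    by_cases hf : f ∈ F ∧ f ≠ 0
    · obtain ⟨β, hβ⟩ := hm2 f hf.1 hf.2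
      obtain ⟨β', hβ'⟩ := (hTR2 R V S W hd e2 e3 e3 A2 A3 A3 x2 x3 x3).2.2 E3 f β hβ
      exact ⟨β', fun _ _ => hβ'⟩
    · exact ⟨0, fun h1 h2 => absurd ⟨h1, h2⟩ hf⟩
  choose β hβ using hm3
  have hmonA : ∀ (k : ℕ) (B : Subalgebra R V) (y : Fin k → V), (∀ i, y i ∈ B) → ∀ α, mon y α ∈ B := by
    intro k B y hy α
    exact Subalgebra.prod_mem _ fun i _ => pow_mem (hy i) _
  have hWV : ∀ v : V, v ≠ 0 → algebraMap V W v ≠ 0 := fun v hv h0 => hv (hd.inj (by rw [h0, map_zero]))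
  have hfA3 : ∀ f ∈ F, f ∈ A3 := fun f hf => E3.le (E2.le (hF1 hf))
  -- the element `τ`
  obtain ⟨n, hn⟩ := hd.small (ps S W A3 w * ∏ f ∈ F.filter (· ≠ 0), algebraMap V W f)
    (mul_ne_zero hw0 (Finset.prod_ne_zero_iff.mpr fun f hf => hWV _ (Finset.mem_filter.mp hf).2))
  have htn : t ^ (n + 1) ∈ maximalIdeal R ^ n :=
    Ideal.pow_le_pow_right (Nat.le_succ n) (Ideal.pow_mem_pow ht _)
  have htau := hn _ htn
  set τ : V := algebraMap R V (t ^ (n + 1)) with hτ
  have hτ0 : τ ≠ 0 := fun h0 => pow_ne_zero (n + 1) ht0 (hRV (by rw [← hτ, h0, map_zero]))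
  have htV : algebraMap R V t ∈ maximalIdeal V := hd.dom t ht
  have hτm : τ ∈ maximalIdeal V := by
    rw [hτ, map_pow, pow_succ]
    exact Ideal.mul_mem_left _ _ htV
  have htV0 : algebraMap R V t ≠ 0 := fun h0 => ht0 (hRV (by rw [h0, map_zero]))
  have hτA : ∀ B : Subalgebra R V, τ ∈ B := fun B => B.algebraMap_mem _
  have htA : ∀ B : Subalgebra R V, algebraMap R V t ∈ B := fun B => B.algebraMap_mem _
  obtain ⟨M', hM'⟩ := hd.small (algebraMap V W (τ * algebraMap R V t)) (hWV _ (mul_ne_zero hτ0 htV0))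
  obtain ⟨G, hG⟩ := (maximalIdeal R ^ (M' + 1)).fg_of_isNoetherianRing
  have hGm : ∀ r ∈ G, algebraMap V W (τ * algebraMap R V t) ∣ algebraMap V W (algebraMap R V r) := by
    intro r hr
    apply hM'
    apply Ideal.pow_le_pow_right (Nat.le_succ M')
    rw [← hG]
    exact Ideal.subset_span hr
  -- the divisibilities
  have hFA : ∀ f : F.filter (· ≠ 0), (f : V) ∈ A3 := fun f => hfA3 _ (Finset.mem_filter.mp f.2).1
  let P : Finset ((S ⊗[R] A3) × (S ⊗[R] A3)) :=
    {(inc S A3 ⟨τ, hτA A3⟩, w)} ∪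
      Finset.image (fun f : {f // f ∈ F.filter (· ≠ 0)} => (inc S A3 ⟨τ, hτA A3⟩, inc S A3 ⟨(f : V), hFA f⟩))
        (F.filter (· ≠ 0)).attach ∪
      G.image (fun r => (algebraMap R (S ⊗[R] A3) r, inc S A3 (⟨τ, hτA A3⟩ * ⟨algebraMap R V t, htA A3⟩)))
  obtain ⟨A4, e4, x4, E4, h4⟩ := ky2_finset hKY2 hd E3.good P (by
    intro p hp
    simp only [P, Finset.mem_union, Finset.mem_singleton, Finset.mem_image] at hp
    rcases hp with (rfl | ⟨f, hf, rfl⟩) | ⟨r, hr, rfl⟩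
    · refine ⟨hw0, ?_⟩
      rw [ps_inc]
      exact (Dvd.intro _ rfl).trans htau
    · simp only [ps_inc]
      refine ⟨hWV _ (Finset.mem_filter.mp f.2).2, ?_⟩
      exact ((Finset.dvd_prod_of_mem (fun f => algebraMap V W f) f.2).trans (Dvd.intro_left _ rfl)).trans htau
    · simp only [ps_inc, ps_algebraMap]
      exact ⟨hWV _ (mul_ne_zero hτ0 htV0), hGm r hr⟩)
  have hx4A : ∀ i, x4 i ∈ A4 := E4.good.lev.mem
  have h4w : inc S A4 ⟨τ, hτA A4⟩ ∈ sat (ps S W A4) (Ideal.span {tr S E4.le w} ⊔ RingHom.ker (ps S W A4)) := by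
    have := h4 (inc S A3 ⟨τ, hτA A3⟩, w) (by simp [P])
    simp only [tr_inc] at this
    exact this
  have h4f : ∀ (f : V) (hf : f ∈ F) (_ : f ≠ 0), inc S A4 ⟨τ, hτA A4⟩ ∈ sat (ps S W A4)
      (Ideal.span {inc S A4 ⟨f, E4.le (hfA3 f hf)⟩} ⊔ RingHom.ker (ps S W A4)) := by
    intro f hf hf0
    have := h4 (inc S A3 ⟨τ, hτA A3⟩, inc S A3 ⟨f, hfA3 f hf⟩) (by
      simp only [P, Finset.mem_union, Finset.mem_image]
      exact Or.inl (Or.inr ⟨⟨f, Finset.mem_filter.mpr ⟨hf, hf0⟩⟩, Finset.mem_attach _ _, rfl⟩))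
    simp only [tr_inc] at this
    exact this
  have h4r : ∀ r ∈ maximalIdeal R ^ (M' + 1), algebraMap R (S ⊗[R] A4) r ∈
      sat (ps S W A4) (Ideal.span {inc S A4 ⟨τ, hτA A4⟩} * (maximalIdeal W).comap (ps S W A4) ⊔
        RingHom.ker (ps S W A4)) := by
    intro r hr
    have h5 : (maximalIdeal R ^ (M' + 1)) ≤ (sat (ps S W A4) (Ideal.span {inc S A4 ⟨τ, hτA A4⟩} *
        (maximalIdeal W).comap (ps S W A4) ⊔ RingHom.ker (ps S W A4))).comap (algebraMap R (S ⊗[R] A4)) := by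
      rw [← hG, Ideal.span_le]
      intro r hr
      have := h4 (algebraMap R (S ⊗[R] A3) r, inc S A3 (⟨τ, hτA A3⟩ * ⟨algebraMap R V t, htA A3⟩)) (by
        simp only [P, Finset.mem_union, Finset.mem_image]
        exact Or.inr ⟨r, hr, rfl⟩)
      simp only [tr_inc, AlgHom.commutes] at this
      rw [SetLike.mem_coe, Ideal.mem_comap]
      refine sat_mono _ (sup_le_sup_right ?_ _) this
      rw [Ideal.span_singleton_le_iff_mem]
      have h6 : inc S A4 (Subalgebra.inclusion E4.le (⟨τ, hτA A3⟩ * ⟨algebraMap R V t, htA A3⟩)) =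
          inc S A4 ⟨τ, hτA A4⟩ * inc S A4 ⟨algebraMap R V t, htA A4⟩ := by
        rw [← map_mul]
        rfl
      rw [h6]
      refine Ideal.mul_mem_mul (Ideal.mem_span_singleton_self _) ?_
      rw [Ideal.mem_comap, ps_inc, mem_max_W hd]
      exact htV
    exact h5 hr
  -- the last blowing up
  have hfree4 := hFP2 R V S W hd A3 A4 E4.le E4.ker h q w hfree
  obtain ⟨A5, hA5, z, hfg, hz, hdiv, hgen, hloc⟩ := hFN2 R V S W hd e4 A4 x4 E4.good.lev E4.good.xm h _ _ hfree4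
    ⟨τ, hτA A4⟩ hτ0 hτm h4w (M' + 1) (Nat.succ_pos _) h4r
  have hprime : (cen A5).IsPrime := Ideal.comap_isPrime _ _
  let y : Fin e4 → A5 := fun i => ⟨x4 i, hA5 (hx4A i)⟩
  have hft : IsNoetherianRing A5 := by
    have : Algebra.FiniteType R A5 := A5.fg_iff_finiteType.mp hfg
    exact Algebra.FiniteType.isNoetherianRing R A5
  have hmax : (cen A5).map (algebraMap A5 (Localization.AtPrime (cen A5))) =
      maximalIdeal (Localization.AtPrime (cen A5)) := Localization.AtPrime.map_eq_maximalIdeal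
  set s : Set (Localization.AtPrime (cen A5)) :=
    algebraMap A5 (Localization.AtPrime (cen A5)) '' (Set.range y ∪ Set.range z) with hs
  have hsub : Set.range y ∪ Set.range z ⊆ (cen A5 : Set A5) := by
    rintro _ (⟨i, rfl⟩ | ⟨i, rfl⟩)
    · exact E4.good.xm i
    · exact hz i
  have hunit : ∀ a : A5, IsUnit (a : V) → IsUnit (algebraMap A5 (Localization.AtPrime (cen A5)) a) := by
    intro a ha
    rw [IsLocalization.AtPrime.isUnit_to_map_iff (Localization.AtPrime (cen A5)) (cen A5)]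
    exact fun h5 => h5 ha
  have hgen' : maximalIdeal (Localization.AtPrime (cen A5)) ≤ Ideal.span s ⊔
      maximalIdeal (Localization.AtPrime (cen A5)) ^ 2 := by
    rw [← hmax, Ideal.map_le_iff_le_comap, ← Ideal.map_pow]
    intro a ha
    obtain ⟨c, hc, hca⟩ := hgen ha
    have h6 := Ideal.mem_map_of_mem (algebraMap A5 (Localization.AtPrime (cen A5))) hca
    rw [map_mul, Ideal.map_sup, Ideal.map_span] at h6
    rw [Ideal.mem_comap]
    exact (Ideal.unit_mul_mem_iff_mem _ (hunit c hc)).mp h6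
  have hfin : s.Finite := ((Set.finite_range y).union (Set.finite_range z)).image _
  have hcard : s.ncard ≤ h + e4 := by
    refine (Set.ncard_image_le ((Set.finite_range y).union (Set.finite_range z))).trans ?_
    refine (Set.ncard_union_le _ _).trans ?_
    have h1 : ∀ (k : ℕ) (y : Fin k → A5), (Set.range y).ncard ≤ k := by
      intro k y
      rw [← Set.image_univ]
      refine (Set.ncard_image_le Set.finite_univ).trans ?_
      rw [Set.ncard_univ, Nat.card_eq_fintype_card, Fintype.card_fin]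
    have h2 := h1 e4 y
    have h3 := h1 h z
    omega
  have hsm : s ⊆ maximalIdeal (Localization.AtPrime (cen A5)) := by
    rintro _ ⟨a, ha, rfl⟩
    rw [← hmax]
    exact Ideal.mem_map_of_mem _ (hsub ha)
  have hdim : (((h + e4 : ℕ) : ℕ∞) : WithBot ℕ∞) ≤ ringKrullDim (Localization.AtPrime (cen A5)) := by
    rw [IsLocalization.AtPrime.ringKrullDim_eq_height (cen A5)]
    have h1 := hDM2 R V S W hd A5 hfg
    have h2 := (hh A5).1
    rw [ker_ps, h2] at h1
    have h3 : (e4 : ℕ∞) ≤ cht (ps S W A5) := E4.good.dim.trans (hCTR R V S W hd A4 A5 hA5 hloc)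
    have h4 : ((h : ℕ∞) + (e4 : ℕ∞)) ≤ (cen A5).height := (add_le_add le_rfl h3).trans h1
    exact_mod_cast h4
  obtain ⟨hreg, hfr, -⟩ := Pool.Agent.Helper7.LU.regular_of_span s hfin hgen' hsm (h + e4) hcard hdim
  have hspan : maximalIdeal (Localization.AtPrime (cen A5)) = Ideal.span s := by
    apply le_antisymm
    · refine Submodule.le_of_le_smul_of_le_jacobson_bot (maximalIdeal _).fg_of_isNoetherianRing
        (maximalIdeal_le_jacobson ⊥) ?_
      rw [smul_eq_mul, ← pow_two]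
      exact hgen'
    · exact Ideal.span_le.mpr hsm
  have hFA5 : (F : Set V) ⊆ A5 := fun f hf => hA5 (E4.le (E3.le (E2.le (hF1 hf))))
  refine ⟨A5, hfg, hA1.trans (E2.le.trans (E3.le.trans (E4.le.trans hA5))), hFA5, hprime, e4, y, z,
    E4.good.pos, E4.good.le2, hreg, le_antisymm ?_ hdim, hspan, ?_⟩
  · rw [← IsRegularLocalRing.spanFinrank_maximalIdeal]
    exact_mod_cast hfr
  -- the elements of `F`
  intro f hf hf0
  obtain ⟨β', s1, v1, hs1, hv1, h5⟩ := (hTR2 R V S W hd e3 e4 e4 A3 A4 A4 x3 x4 x4).2.2 E4 f (β f) (hβ f hf hf0)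
  have hfA4 : f ∈ A4 := E4.le (hfA3 f hf)
  have hmA4 : mon x4 β' ∈ A4 := hmonA e4 A4 x4 hx4A _
  have hclose : ∀ b : S ⊗[R] A4, b ∈ (maximalIdeal R ^ (M' + 1)).map (algebraMap R (S ⊗[R] A4)) →
      b ∈ sat (ps S W A4) (Ideal.span {inc S A4 ⟨τ, hτA A4⟩} * (maximalIdeal W).comap (ps S W A4) ⊔
        RingHom.ker (ps S W A4)) := by
    intro b hb
    refine Ideal.map_le_iff_le_comap.mpr ?_ hb
    exact fun r hr => h4r r hr
  obtain ⟨s0, hs0, hs0'⟩ := exists_unit_approx hd A4 (M' + 1) (Nat.succ_pos _) s1 hs1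
  obtain ⟨v0, hv0, hv0'⟩ := exists_unit_approx hd A4 (M' + 1) (Nat.succ_pos _) v1 hv1
  obtain ⟨v', hv'm, hv'⟩ := hdiv (s0 * ⟨f, hfA4⟩ - v0 * ⟨mon x4 β', hmA4⟩) (by
    have h6 : inc S A4 (s0 * ⟨f, hfA4⟩ - v0 * ⟨mon x4 β', hmA4⟩) =
        (s1 * inc S A4 ⟨f, hfA4⟩ - v1 * inc S A4 ⟨mon x4 β', hmA4⟩) -
          (s1 - inc S A4 s0) * inc S A4 ⟨f, hfA4⟩ +
          (v1 - inc S A4 v0) * inc S A4 ⟨mon x4 β', hmA4⟩ := by
      rw [map_sub, map_mul, map_mul]
      ring
    rw [h6]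
    refine Ideal.add_mem _ (Ideal.sub_mem _ ?_ (Ideal.mul_mem_right _ _ (hclose _ hs0')))
      (Ideal.mul_mem_right _ _ (hclose _ hv0'))
    refine le_sat _ _ (Ideal.mem_sup_right ?_)
    rw [RingHom.mem_ker, map_sub, map_mul, map_mul, ps_inc, ps_inc, h5, sub_self])
  obtain ⟨s2, hs2, hs2'⟩ := h4f f hf hf0
  obtain ⟨b, hb, κ, hκ, hsum⟩ := Submodule.mem_sup.mp hs2'
  obtain ⟨γ, hγ⟩ := Ideal.mem_span_singleton.mp hb
  obtain ⟨s3, hs3, hs3'⟩ := exists_unit_approx hd A4 (M' + 1) (Nat.succ_pos _) s2 hs2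
  obtain ⟨γ0, hγ0⟩ := hd.approx_tensor A4 (M' + 1) γ
  obtain ⟨v'', hv''m, hv''⟩ := hdiv (s3 * ⟨τ, hτA A4⟩ - γ0 * ⟨f, hfA4⟩) (by
    have h6 : inc S A4 (s3 * ⟨τ, hτA A4⟩ - γ0 * ⟨f, hfA4⟩) =
        κ - (s2 - inc S A4 s3) * inc S A4 ⟨τ, hτA A4⟩ +
          (γ - inc S A4 γ0) * inc S A4 ⟨f, hfA4⟩ := by
      have h7 : κ = s2 * inc S A4 ⟨τ, hτA A4⟩ - inc S A4 ⟨f, hfA4⟩ * γ := by
        rw [← hγ]
        rw [← hsum]
        ring
      rw [h7, map_sub, map_mul, map_mul]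
      ring
    rw [h6]
    refine Ideal.add_mem _ (Ideal.sub_mem _ ?_ (Ideal.mul_mem_right _ _ (hclose _ hs3')))
      (Ideal.mul_mem_right _ _ (hclose _ hγ0))
    exact le_sat _ _ (Ideal.mem_sup_right hκ))
  have e1 : (s0 : V) * f - v0 * mon x4 β' = τ * v' := hv'
  have e2 : (s3 : V) * τ - γ0 * f = τ * v'' := hv''
  let ι : A4 →ₐ[R] A5 := Subalgebra.inclusion hA5
  have hu1 : IsUnit ((s3 : V) - v'') := by
    by_contra h7
    have h8 : (s3 : V) - v'' ∈ maximalIdeal V := h7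
    have h9 := Ideal.add_mem _ h8 hv''m
    rw [sub_add_cancel] at h9
    exact h9 hs3
  -- `(s3 - v'') τ = γ0 f` and `s0 f = v0 m + τ v'`
  refine ⟨β', (ι s3 - v'') * ι s0 - ι γ0 * v', (ι s3 - v'') * ι v0, ?_, ?_, ?_⟩
  · change IsUnit (((s3 : V) - v'') * s0 - γ0 * v')
    by_contra h7
    have h8 : ((s3 : V) - v'') * s0 - γ0 * v' ∈ maximalIdeal V := h7
    have h9 : (γ0 : V) * v' ∈ maximalIdeal V := Ideal.mul_mem_left _ _ hv'm
    have h10 := Ideal.add_mem _ h8 h9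
    rw [sub_add_cancel] at h10
    exact h10 (hu1.mul hs0)
  · exact hu1.mul hv0
  · change (((s3 : V) - v'') * s0 - γ0 * v') * f = (((s3 : V) - v'') * v0) * mon (fun i => (y i : V)) β'
    have h11 : mon (fun i => (y i : V)) β' = mon x4 β' := rfl
    rw [h11]
    linear_combination ((s3 : V) - v'') * e1 + (v' : V) * e2

end

end Pool.Agent.Helper10.MV
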