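import Pool.Agent.Helper10.MV.Stm

/-!
# MN2: monomialization of an element
-/

set_option autoImplicit false
set_option linter.unusedSectionVars false

open scoped TensorProduct
open IsLocalRing

universe u

namespace Pool.Agent.Helper10.MV

open Pool.Agent.Helper7.LU (psi inc)
open Pool.Agent.Helper10.MU

section

variable {R V S W : Type u} [CommRing R] [IsLocalRing R] [IsNoetherianRing R] [CommRing V] [IsDomain V]
  [ValuationRing V] [CommRing S] [IsNoetherianRing S] [CommRing W] [IsDomain W] [ValuationRing W] [Algebra R V]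
  [Algebra R S] [Algebra V W] [Algebra R W] [Algebra S W] [IsScalarTower R S W] [IsScalarTower R V W]

/-- the conclusion -/
def MnC (S W : Type u) [CommRing S] [CommRing W] [IsDomain W] [ValuationRing W] [Algebra R S]
    [Algebra V W] [Algebra R W] [Algebra S W] [IsScalarTower R S W] [IsScalarTower R V W] {e : ℕ}
    (A : Subalgebra R V) (x : Fin e → V) (b : S ⊗[R] A) : Prop :=
  ∃ (A' : Subalgebra R V) (e' : ℕ) (x' : Fin e' → V), Ex S W A A' x x' ∧
      ∃ (β : Fin e' → ℕ) (s v : S ⊗[R] A'), IsUnit (ps S W A' s) ∧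
        IsUnit (ps S W A' v) ∧ ps S W A' s * ps S W A b = ps S W A' v * algebraMap V W (mon x' β)

theorem mn_mon {e : ℕ} (x : Fin e → V) (β γ : Fin e → ℕ) (m : ℕ) :
    mon x β * mon x γ ^ m = mon x fun i => β i + γ i * m := by
  unfold mon
  rw [← Finset.prod_pow, ← Finset.prod_mul_distrib]
  refine Finset.prod_congr rfl fun i _ => ?_
  rw [pow_add, pow_mul]

theorem mn_self {e : ℕ} (A : Subalgebra R V) (x : Fin e → V) (i : Fin e) :
    MonAt S W A x (x i) (Pi.single i 1) := by
  refine ⟨1, 1, by simp, by simp, ?_⟩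
  congr 2
  unfold mon
  rw [Finset.prod_eq_single i]
  · simp
  · intro j _ hj
    rw [Pi.single_eq_of_ne hj, pow_zero]
  · intro h
    exact absurd (Finset.mem_univ i) h

theorem mn_ext (hTR2 : S_TR2.{u}) (hd : IsData R V S W) {e e' : ℕ} {A A' : Subalgebra R V}
    {x : Fin e → V} {x' : Fin e' → V} (E : Ex S W A A' x x') {b : S ⊗[R] A} {b' : S ⊗[R] A'}
    (hbb : ps S W A b = ps S W A' b') (h : MnC S W A' x' b') : MnC S W A x b := by
  obtain ⟨A'', e'', x'', E', β, s, v, hs, hv, he⟩ := h
  refine ⟨A'', e'', x'', (hTR2 R V S W hd e e' e'' A A' A'' x x' x'').2.1 E E', β, s, v, hs, hv, ?_⟩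
  rw [hbb, he]

theorem mn_comb (hTR2 : S_TR2.{u}) (hd : IsData R V S W) {e : ℕ} {A : Subalgebra R V}
    {x : Fin e → V} {b b₀ s : S ⊗[R] A} (hs : IsUnit (ps S W A s)) (i : Fin e) (m : ℕ)
    (h : ps S W A s * ps S W A b = ps S W A b₀ * algebraMap V W (x i) ^ m)
    (hb₀ : MnC S W A x b₀) : MnC S W A x b := by
  obtain ⟨A', e', x', E, β, s', v', hs', hv', he⟩ := hb₀
  obtain ⟨γ, s₀, v₀, hs₀, hv₀, he₀⟩ :=
    (hTR2 R V S W hd e e' e' A A' A' x x' x').2.2 E (x i) _ (mn_self A x i)
  refine ⟨A', e', x', E, fun i => β i + γ i * m, tr S E.le s * s' * s₀ ^ m, v' * v₀ ^ m, ?_, ?_, ?_⟩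
  · rw [map_mul, map_mul, map_pow, ps_tr]
    exact (hs.mul hs').mul (hs₀.pow m)
  · rw [map_mul, map_pow]
    exact hv'.mul (hv₀.pow m)
  · rw [← mn_mon, map_mul, map_mul, map_mul, map_mul, map_pow, map_pow, map_pow, ps_tr]
    have h1 : (ps S W A' s₀ * algebraMap V W (x i)) ^ m =
        (ps S W A' v₀ * algebraMap V W (mon x' γ)) ^ m := by rw [he₀]
    rw [mul_pow, mul_pow] at h1
    linear_combination (ps S W A' s' * ps S W A' s₀ ^ m) * h +
      (ps S W A' s₀ ^ m * algebraMap V W (x i) ^ m) * he +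
      (ps S W A' v' * algebraMap V W (mon x' β)) * h1

theorem mn_one (hONE : S_ONE.{u}) (hTR2 : S_TR2.{u}) (hd : IsData R V S W) {A : Subalgebra R V}
    {x : Fin 1 → V} (G : Good S W A x) (b : S ⊗[R] A) (hb : ps S W A b ≠ 0) : MnC S W A x b := by
  have hpar : Par (ps S W A) ![inc S A ⟨x 0, G.lev.mem 0⟩] := by
    have h1 : (fun i => inc S A ⟨x i, G.lev.mem i⟩) = ![inc S A ⟨x 0, G.lev.mem 0⟩] := by
      funext i
      fin_cases i
      rfl
    rw [← h1]
    exact G.lev.par
  obtain ⟨m, s, v, hs, hv, he⟩ := hONE _ W hd.arch (ps S W A) (inc S A ⟨x 0, G.lev.mem 0⟩)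
    (by rw [ps_inc, mem_max_W hd]; exact G.xm 0) hpar b hb
  refine ⟨A, 1, x, (hTR2 R V S W hd 1 1 1 A A A x x x).1 G, fun _ => m, s, v, hs, hv, ?_⟩
  rw [map_mul, map_mul, map_pow, ps_inc] at he
  rw [he]
  unfold mon
  rw [Fin.prod_univ_one, map_pow]

theorem mn_two (hONE : S_ONE.{u}) (hSTG : S_STG.{u}) (hTR2 : S_TR2.{u}) (hd : IsData R V S W) (n : ℕ) :
    ∀ (N : ℕ) (A : Subalgebra R V) (x : Fin 2 → V) (G : Good S W A x) (b : S ⊗[R] A),
      Reg (ps S W A) (inc S A ⟨x 0, G.lev.mem 0⟩) (inc S A ⟨x 1, G.lev.mem 1⟩) n b →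
      ps S W A b ≠ 0 → ps S W A b ∣ algebraMap V W (x 0) ^ N → MnC S W A x b := by
  induction n using Nat.strong_induction_on with
  | _ n ihn =>
    intro N
    induction N using Nat.strong_induction_on with
    | _ N ihN =>
      intro A x G b hReg hb hdvd
      rcases Nat.eq_zero_or_pos n with rfl | hn
      · -- a unit
        obtain ⟨s, v, c, hs, hv, he⟩ := hReg
        have hu : IsUnit (ps S W A b) := by
          by_contra hnu
          have h1 : ps S W A s * ps S W A b ∈ maximalIdeal W :=
            Ideal.mul_mem_left _ _ ((mem_maximalIdeal _).2 hnu)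
          have h2 : ps S W A c * algebraMap V W (x 0) ∈ maximalIdeal W :=
            Ideal.mul_mem_left _ _ ((mem_max_W hd _).2 (G.xm 0))
          rw [map_mul, pow_zero, mul_one, map_add, map_mul, ps_inc] at he
          have h3 := Ideal.sub_mem _ h1 h2
          rw [he, add_sub_cancel_right] at h3
          exact (mem_maximalIdeal _).1 h3 hv
        refine ⟨A, 2, x, (hTR2 R V S W hd 2 2 2 A A A x x x).1 G, fun _ => 0, 1, b, by simp, hu, ?_⟩
        unfold mon
        simp
      · obtain ⟨A', ⟨x', E⟩ | ⟨x', E, r, n', s, b', hs, he, hReg', hcase⟩⟩ :=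
          hSTG R V S W hd A x G n hn b hReg
        · refine mn_ext hTR2 hd E (b' := tr S E.le b) (ps_tr E.le b).symm
            (mn_one hONE hTR2 hd E.good _ ?_)
          rw [ps_tr]
          exact hb
        · have hb' : ps S W A' b' ≠ 0 := by
            intro h0
            rw [h0, zero_mul] at he
            rcases mul_eq_zero.1 he with h1 | h1
            · exact hs.ne_zero h1
            · exact hb h1
          have hx0 : algebraMap V W (x' 0) ∈ maximalIdeal W := (mem_max_W hd _).2 (E.good.xm 0)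
          have hx0' : algebraMap V W (x' 0) ≠ 0 := by
            intro h0
            apply E.good.x0 0
            apply hd.inj
            rw [h0, map_zero]
          have hmn : MnC S W A' x' b' := by
            rcases hcase with hlt | ⟨hle, hr, hxx⟩
            · obtain ⟨N', hN'⟩ := hd.arch _ hx0 _ hb'
              exact ihn n' hlt N' A' x' E.good b' hReg' hb' hN'
            · rcases Nat.lt_or_eq_of_le hle with hlt | rfl
              · obtain ⟨N', hN'⟩ := hd.arch _ hx0 _ hb'
                exact ihn n' hlt N' A' x' E.good b' hReg' hb' hN'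
              · -- same order, smaller `N`
                have h1 : ps S W A' b' * algebraMap V W (x' 0) ^ r ∣ algebraMap V W (x' 0) ^ N := by
                  rw [← he, hxx]
                  obtain ⟨u, hu⟩ := hs
                  rw [← hu]
                  exact (Units.mul_left_dvd).2 hdvd
                have hrN : r ≤ N := by
                  by_contra hc
                  push Not at hc
                  have h2 : algebraMap V W (x' 0) ^ r ∣ algebraMap V W (x' 0) ^ N :=
                    (dvd_mul_left _ _).trans h1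
                  have h3 : r ≤ N := (pow_dvd_pow_iff hx0' ((mem_maximalIdeal _).1 hx0)).1 h2
                  omega
                have h4 : ps S W A' b' ∣ algebraMap V W (x' 0) ^ (N - r) := by
                  have h5 : algebraMap V W (x' 0) ^ N =
                      algebraMap V W (x' 0) ^ (N - r) * algebraMap V W (x' 0) ^ r := by
                    rw [← pow_add]
                    congr 1
                    omega
                  rw [h5] at h1
                  exact (mul_dvd_mul_iff_right (pow_ne_zero r hx0')).1 h1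
                exact ihN (N - r) (by omega) A' x' E.good b' hReg' hb' h4
          refine mn_ext hTR2 hd E (b' := tr S E.le b) (ps_tr E.le b).symm
            (mn_comb hTR2 hd hs 0 r ?_ hmn)
          rw [ps_tr]
          exact he

end

/-- **MN2.** -/
theorem mn2 (hONE : S_ONE.{u}) (hRG0 : S_RG0.{u}) (hSTG : S_STG.{u}) (hTR2 : S_TR2.{u}) :
    S_MN2.{u} := by
  intro R V S W _ _ _ _ _ _ _ _ _ _ _ _ _ _ _ _ _ _ hd e A x G b hb
  change MnC S W A x b
  obtain rfl | rfl : e = 1 ∨ e = 2 := by
    have := G.pos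
    have := G.le2
    omega
  · exact mn_one hONE hTR2 hd G b hb
  · have hnoeth : IsNoetherianRing (S ⊗[R] A) := by
      have : Algebra.FiniteType R A := A.fg_iff_finiteType.mp G.lev.fg
      exact Algebra.FiniteType.isNoetherianRing S (S ⊗[R] A)
    have hx0' : algebraMap V W (x 0) ≠ 0 := by
      intro h0
      apply G.x0 0
      apply hd.inj
      rw [h0, map_zero]
    have m0 : algebraMap V W (x 0) ∈ maximalIdeal W := (mem_max_W hd _).2 (G.xm 0)
    have m1 : algebraMap V W (x 1) ∈ maximalIdeal W := (mem_max_W hd _).2 (G.xm 1)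
    have hpar : Par (ps S W A) ![inc S A ⟨x 0, G.lev.mem 0⟩, inc S A ⟨x 1, G.lev.mem 1⟩] := by
      have h1 : (fun i => inc S A ⟨x i, G.lev.mem i⟩) =
          ![inc S A ⟨x 0, G.lev.mem 0⟩, inc S A ⟨x 1, G.lev.mem 1⟩] := by
        funext i
        fin_cases i <;> rfl
      rw [← h1]
      exact G.lev.par
    obtain ⟨m, n, b₀, s, hs, he, hReg⟩ := hRG0 _ W hd.arch (ps S W A)
      (inc S A ⟨x 0, G.lev.mem 0⟩) (inc S A ⟨x 1, G.lev.mem 1⟩) (by rw [ps_inc]; exact m0)
      (by rw [ps_inc]; exact m1) (by rw [ps_inc]; exact hx0') hpar b hb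
    rw [map_mul, map_mul, map_pow, ps_inc, mul_comm (_ ^ m)] at he
    have hb₀ : ps S W A b₀ ≠ 0 := by
      intro h0
      rw [h0, zero_mul] at he
      rcases mul_eq_zero.1 he with h1 | h1
      · exact hs.ne_zero h1
      · exact hb h1
    obtain ⟨N, hN⟩ := hd.arch _ m0 _ hb₀
    exact mn_comb hTR2 hd hs 0 m he (mn_two hONE hSTG hTR2 hd n N A x G b₀ hReg hb₀ hN)

end Pool.Agent.Helper10.MV
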