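import Pool.Agent.Helper10.MV.Mv2

/-! module MV1 (helper9) -/

set_option autoImplicit false

open IsLocalRing

universe u

namespace Pool.Agent.Helper10.MV

open Pool.Agent.Helper10.MU

theorem mv_cht {B W : Type u} [CommRing B] [CommRing W] [IsDomain W] [IsLocalRing W] (f : B →+* W) (b : B)
    (hb : f b ∈ maximalIdeal W) (hb0 : f b ≠ 0) : 1 ≤ cht f := by
  unfold cht
  rw [Order.one_le_iff_ne_zero, Ne, Ideal.height_eq_zero_iff_eq_bot]
  intro h
  have h1 : (⟨f b, b, rfl⟩ : f.range) ∈ (maximalIdeal W).comap f.range.subtype := hb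
  rw [h, Ideal.mem_bot] at h1
  exact hb0 (congrArg Subtype.val h1)

theorem mv1 (hR : S_RSD.{u}) : S_MV1.{u} := by
  intro B B' W _ _ _ _ _ _ f f' φ hφ x y hx hy hx0 hP hd T hxy hgen ht
  refine ⟨?_, mv_ker hR f f' φ hφ x y hx hy hP hd T hxy hgen, mv_cht f' (φ x) (by rwa [hφ]) (by rwa [hφ])⟩
  intro b hb
  obtain ⟨p, rfl⟩ := hgen b
  have hcomp : ∀ r : Polynomial B, f' (r.eval₂ φ T) = r.eval₂ f (f' T) := by
    intro r
    rw [Polynomial.hom_eval₂]
    congr 1
    ext b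
    exact hφ b
  have h6 := ht p (by rwa [hcomp] at hb)
  have hX : φ x ∈ Ideal.span (Set.range (![φ x] : Fin 1 → B')) :=
    Ideal.subset_span ⟨0, rfl⟩
  have hI : (Ideal.span (Set.range (![x, y] : Fin 2 → B))).map φ ≤
      Ideal.span (Set.range (![φ x] : Fin 1 → B')) := by
    rw [Ideal.map_span, Ideal.span_le]
    rintro _ ⟨_, ⟨k, rfl⟩, rfl⟩
    fin_cases k
    · exact hX
    · change φ y ∈ _
      rw [hxy]
      exact Ideal.mul_mem_right _ _ hX
  rw [Polynomial.eval₂_eq_sum_range]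
  exact Ideal.sum_mem _ fun i _ => Ideal.mul_mem_right _ _ (mv_map hφ hI (hP _ (h6 i)))

end Pool.Agent.Helper10.MV
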