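import Pool.Agent.Helper10.MV.Stm

/-! module MV2 (helper9) -/

set_option autoImplicit false

open IsLocalRing

universe u

namespace Pool.Agent.Helper10.MV

open Pool.Agent.Helper10.MU

/-- pseudo-division -/
theorem mv_pdiv {B : Type u} [CommRing B] (g : Polynomial B) (hg : 1 ≤ g.natDegree) (n : ℕ) :
    ∀ p : Polynomial B, p.natDegree < g.natDegree + n → ∃ (m : ℕ) (q ρ : Polynomial B),
      Polynomial.C (g.leadingCoeff ^ m) * p = q * g + ρ ∧ ρ.natDegree < g.natDegree := by
  induction n with
  | zero => exact fun p hp => ⟨0, 0, p, by simp, by simpa using hp⟩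
  | succ n ih =>
    intro p hp
    have hdeg : (Polynomial.C g.leadingCoeff * p -
        Polynomial.C (p.coeff (g.natDegree + n)) * Polynomial.X ^ n * g).natDegree < g.natDegree + n := by
      have h1 : (Polynomial.C g.leadingCoeff * p -
          Polynomial.C (p.coeff (g.natDegree + n)) * Polynomial.X ^ n * g).natDegree ≤ g.natDegree + n := by
        refine (Polynomial.natDegree_sub_le _ _).trans (max_le ?_ ?_)
        · exact (Polynomial.natDegree_C_mul_le _ _).trans (by omega)
        · rw [mul_assoc]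
          refine (Polynomial.natDegree_C_mul_le _ _).trans (Polynomial.natDegree_mul_le.trans ?_)
          have := Polynomial.natDegree_X_pow_le (R := B) n
          omega
      have h2 : (Polynomial.C g.leadingCoeff * p -
          Polynomial.C (p.coeff (g.natDegree + n)) * Polynomial.X ^ n * g).coeff (g.natDegree + n) = 0 := by
        rw [Polynomial.coeff_sub, Polynomial.coeff_C_mul, mul_assoc, Polynomial.coeff_C_mul,
          Polynomial.coeff_X_pow_mul]
        change g.coeff g.natDegree * _ - _ = 0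
        ring
      have hgen : ∀ r : Polynomial B, r.natDegree ≤ g.natDegree + n → r.coeff (g.natDegree + n) = 0 →
          r.natDegree < g.natDegree + n := by
        intro r h1 h2
        refine lt_of_le_of_ne h1 fun e => ?_
        rw [← e] at h2
        have h3 := Polynomial.leadingCoeff_eq_zero.1 h2
        rw [h3, Polynomial.natDegree_zero] at e
        omega
      exact hgen _ h1 h2
    obtain ⟨m, q, ρ, h3, h4⟩ := ih _ hdeg
    refine ⟨m + 1, q + Polynomial.C (g.leadingCoeff ^ m) *
      (Polynomial.C (p.coeff (g.natDegree + n)) * Polynomial.X ^ n), ρ, ?_, h4⟩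
    rw [mul_sub] at h3
    rw [pow_succ, Polynomial.C_mul]
    linear_combination h3

theorem mv_unit {B W : Type u} [CommRing B] [CommRing W] {f : B →+* W} {I : Ideal B} {s b : B}
    (hs : IsUnit (f s)) (h : s * b ∈ sat f I) : b ∈ sat f I := by
  obtain ⟨t, ht, h1⟩ := h
  exact ⟨t * s, by rw [map_mul]; exact ht.mul hs, by rwa [mul_assoc]⟩

/-- powers of `y` -/
theorem mv_pow (hR : S_RSD.{u}) {B W : Type u} [CommRing B] [IsNoetherianRing B] [CommRing W]
    [IsDomain W] [ValuationRing W] (f : B →+* W) (x y : B) (hx : f x ∈ maximalIdeal W)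
    (hy : f y ∈ maximalIdeal W) (hP : Par f ![x, y]) (hd : 2 ≤ cht f) (m : ℕ) :
    ∀ b c : B, f b * f y ^ (m + 1) = f c * f x → b ∈ sat f (Ideal.span {x} ⊔ RingHom.ker f) := by
  induction m with
  | zero =>
    intro b c h
    rw [zero_add, pow_one] at h
    exact hR B W f x y hx hy hP hd b c h
  | succ m ih =>
    intro b c h
    have h1 : f (b * y ^ (m + 1)) * f y = f c * f x := by
      rw [map_mul, map_pow, ← h]
      ring
    obtain ⟨s, hs, h2⟩ := hR B W f x y hx hy hP hd _ c h1
    obtain ⟨g, hg, q, hq, hgq⟩ := Submodule.mem_sup.1 h2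
    obtain ⟨a, rfl⟩ := Ideal.mem_span_singleton'.1 hg
    have h3 : f (s * b) * f y ^ (m + 1) = f a * f x := by
      have h4 := congrArg f hgq
      rw [map_add, RingHom.mem_ker.1 hq, add_zero] at h4
      rw [← map_pow, ← map_mul, ← map_mul, h4]
      congr 1
      ring
    exact mv_unit hs (ih _ _ h3)

/-- the kernel -/
theorem mv_ker (hR : S_RSD.{u}) {B B' W : Type u} [CommRing B] [IsNoetherianRing B] [CommRing B'] [CommRing W]
    [IsDomain W] [ValuationRing W] (f : B →+* W) (f' : B' →+* W) (φ : B →+* B')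
    (hφ : ∀ b, f' (φ b) = f b) (x y : B) (hx : f x ∈ maximalIdeal W) (hy : f y ∈ maximalIdeal W)
    (hP : Par f ![x, y]) (hd : 2 ≤ cht f) (T : B') (hxy : φ y = φ x * T)
    (hgen : ∀ b : B', ∃ p : Polynomial B, b = p.eval₂ φ T) :
    RingHom.ker f' ≤ sat f' ((RingHom.ker f).map φ) := by
  have hXY : f y = f x * f' T := by
    rw [← hφ, ← hφ, hxy, map_mul]
  have key : ∀ (d : ℕ) (c : ℕ → B), f' (∑ k ∈ Finset.range (d + 1), φ (c k) * T ^ k) = 0 →
      ∑ k ∈ Finset.range (d + 1), φ (c k) * T ^ k ∈ sat f' ((RingHom.ker f).map φ) := by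
    intro d
    induction d with
    | zero =>
      intro c hc
      simp only [zero_add, Finset.range_one, Finset.sum_singleton, pow_zero, mul_one] at hc ⊢
      rw [hφ] at hc
      exact le_sat _ _ (Ideal.mem_map_of_mem _ hc)
    | succ d ih =>
      intro c hc
      -- the leading coefficient
      have h1 : ∑ k ∈ Finset.range (d + 1 + 1), f (c k) * f' T ^ k = 0 := by
        rw [map_sum] at hc
        rw [← hc]
        exact Finset.sum_congr rfl fun k _ => by rw [map_mul, map_pow, hφ]
      have h2 : f (c (d + 1)) * f y ^ (d + 1) =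
          f (-(∑ k ∈ Finset.range (d + 1), c k * y ^ k * x ^ (d - k))) * f x := by
        have h3 : f x ^ (d + 1) * ∑ k ∈ Finset.range (d + 1 + 1), f (c k) * f' T ^ k = 0 := by
          rw [h1, mul_zero]
        rw [Finset.sum_range_succ, mul_add] at h3
        have h4 : f x ^ (d + 1) * (f (c (d + 1)) * f' T ^ (d + 1)) =
            f (c (d + 1)) * f y ^ (d + 1) := by
          rw [hXY, mul_pow]
          ring
        have h5 : f x ^ (d + 1) * ∑ k ∈ Finset.range (d + 1), f (c k) * f' T ^ k =
            f (∑ k ∈ Finset.range (d + 1), c k * y ^ k * x ^ (d - k)) * f x := by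
          rw [map_sum, Finset.mul_sum, Finset.sum_mul]
          apply Finset.sum_congr rfl
          intro k hk
          rw [Finset.mem_range] at hk
          have h6 : f x ^ (d + 1) = f x ^ k * (f x ^ (d - k) * f x) := by
            rw [← pow_succ, ← pow_add]
            congr 1
            omega
          rw [h6, map_mul, map_mul, map_pow, map_pow, hXY, mul_pow]
          ring
        rw [h4, h5] at h3
        rw [map_neg, neg_mul]
        linear_combination h3
      obtain ⟨s, hs, h7⟩ := mv_pow hR f x y hx hy hP hd d _ _ h2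
      obtain ⟨g, hg, q, hq, hgq⟩ := Submodule.mem_sup.1 h7
      obtain ⟨a, rfl⟩ := Ideal.mem_span_singleton'.1 hg
      -- the new coefficients
      let c' : ℕ → B := fun k => if k = d then s * c d + a * y else s * c k
      have h8 : φ s * ∑ k ∈ Finset.range (d + 1 + 1), φ (c k) * T ^ k =
          ∑ k ∈ Finset.range (d + 1), φ (c' k) * T ^ k + φ q * T ^ (d + 1) := by
        rw [Finset.sum_range_succ, Finset.sum_range_succ, Finset.sum_range_succ]
        have h9 : ∑ k ∈ Finset.range d, φ (c' k) * T ^ k =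
            φ s * ∑ k ∈ Finset.range d, φ (c k) * T ^ k := by
          rw [Finset.mul_sum]
          apply Finset.sum_congr rfl
          intro k hk
          rw [Finset.mem_range] at hk
          simp only [c', if_neg (by omega : ¬ k = d), map_mul]
          ring
        have h10 : φ s * φ (c (d + 1)) = φ a * φ x + φ q := by
          rw [← map_mul, ← map_mul, ← map_add, hgq]
        rw [h9]
        simp only [c', if_true, map_add, map_mul]
        rw [hxy]
        linear_combination (T ^ (d + 1)) * h10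
      have h11 : f' (∑ k ∈ Finset.range (d + 1), φ (c' k) * T ^ k) = 0 := by
        have h12 := congrArg f' h8
        rw [map_mul, hc, mul_zero, map_add, map_mul f' (φ q), hφ, RingHom.mem_ker.1 hq, zero_mul,
          add_zero] at h12
        exact h12.symm
      have h13 := ih c' h11
      have h14 : φ s * ∑ k ∈ Finset.range (d + 1 + 1), φ (c k) * T ^ k ∈
          sat f' ((RingHom.ker f).map φ) := by
        rw [h8]
        exact Ideal.add_mem _ h13
          (le_sat _ _ (Ideal.mul_mem_right _ _ (Ideal.mem_map_of_mem _ hq)))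
      exact mv_unit (by rw [hφ]; exact hs) h14
  intro b hb
  obtain ⟨p, rfl⟩ := hgen b
  rw [Polynomial.eval₂_eq_sum_range] at hb ⊢
  exact key _ _ hb

/-- an element of the saturation downstairs -/
theorem mv_map {B B' W : Type u} [CommRing B] [CommRing B'] [CommRing W] {f : B →+* W} {f' : B' →+* W}
    {φ : B →+* B'} (hφ : ∀ b, f' (φ b) = f b) {I : Ideal B} {J : Ideal B'} (hI : I.map φ ≤ J) {b : B}
    (h : b ∈ sat f (I ⊔ RingHom.ker f)) : φ b ∈ sat f' (J ⊔ RingHom.ker f') := by
  obtain ⟨s, hs, h3⟩ := h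
  refine ⟨φ s, by rw [hφ]; exact hs, ?_⟩
  rw [← map_mul]
  have h4 : (I ⊔ RingHom.ker f).map φ ≤ J ⊔ RingHom.ker f' := by
    rw [Ideal.map_sup]
    apply sup_le_sup hI
    rw [Ideal.map_le_iff_le_comap]
    intro q hq
    rw [Ideal.mem_comap, RingHom.mem_ker, hφ]
    exact hq
  exact h4 (Ideal.mem_map_of_mem _ h3)

theorem mv2 (hR : S_RSD.{u}) : S_MV2.{u} := by
  intro B B' W _ _ _ _ _ _ f f' φ hφ x y hx hy hP hd T hxy hgen g hg
  refine ⟨?_, mv_ker hR f f' φ hφ x y hx hy hP hd T hxy hgen⟩
  obtain ⟨hg1, hg2, hg3, hg4⟩ := hg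
  intro b hb
  obtain ⟨p, rfl⟩ := hgen b
  obtain ⟨m, q, ρ, h1, h2⟩ := mv_pdiv g hg2 (p.natDegree + 1) p (by omega)
  have hcomp : ∀ r : Polynomial B, f' (r.eval₂ φ T) = r.eval₂ f (f' T) := by
    intro r
    rw [Polynomial.hom_eval₂]
    congr 1
    ext b
    exact hφ b
  have h3 : φ (g.leadingCoeff ^ m) * p.eval₂ φ T = q.eval₂ φ T * g.eval₂ φ T + ρ.eval₂ φ T := by
    have h4 := congrArg (Polynomial.eval₂ φ T) h1
    rwa [Polynomial.eval₂_mul, Polynomial.eval₂_C, Polynomial.eval₂_add, Polynomial.eval₂_mul] at h4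
  have h5 : ρ.eval₂ f (f' T) ∈ maximalIdeal W := by
    have h6 := congrArg f' h3
    rw [map_mul, map_add, map_mul, hcomp g, hcomp ρ] at h6
    have h7 : ρ.eval₂ f (f' T) = f' (φ (g.leadingCoeff ^ m)) * f' (p.eval₂ φ T) -
        f' (q.eval₂ φ T) * g.eval₂ f (f' T) := by
      rw [h6]
      ring
    rw [h7]
    exact Ideal.sub_mem _ (Ideal.mul_mem_left _ _ hb) (Ideal.mul_mem_left _ _ hg3)
  have h6 := hg4 ρ h2 h5
  have hG : g.eval₂ φ T ∈ Ideal.span (Set.range (![φ x, g.eval₂ φ T] : Fin 2 → B')) :=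
    Ideal.subset_span ⟨1, rfl⟩
  have hX : φ x ∈ Ideal.span (Set.range (![φ x, g.eval₂ φ T] : Fin 2 → B')) :=
    Ideal.subset_span ⟨0, rfl⟩
  have hI : (Ideal.span (Set.range (![x, y] : Fin 2 → B))).map φ ≤
      Ideal.span (Set.range (![φ x, g.eval₂ φ T] : Fin 2 → B')) := by
    rw [Ideal.map_span, Ideal.span_le]
    rintro _ ⟨_, ⟨k, rfl⟩, rfl⟩
    fin_cases k
    · exact hX
    · change φ y ∈ _
      rw [hxy]
      exact Ideal.mul_mem_right _ _ hX
  have h8 : ρ.eval₂ φ T ∈
      sat f' (Ideal.span (Set.range (![φ x, g.eval₂ φ T] : Fin 2 → B')) ⊔ RingHom.ker f') := by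
    rw [Polynomial.eval₂_eq_sum_range (p := ρ)]
    exact Ideal.sum_mem _ fun i _ => Ideal.mul_mem_right _ _ (mv_map hφ hI (hP _ (h6 i)))
  have h9 : φ (g.leadingCoeff ^ m) * p.eval₂ φ T ∈
      sat f' (Ideal.span (Set.range (![φ x, g.eval₂ φ T] : Fin 2 → B')) ⊔ RingHom.ker f') := by
    rw [h3]
    exact Ideal.add_mem _ (le_sat _ _ (Ideal.mul_mem_left _ _ (Ideal.mem_sup_left hG))) h8
  exact mv_unit (by rw [hφ, map_pow]; exact hg1.pow m) h9

end Pool.Agent.Helper10.MV
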