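import Pool.Agent.Helper10.MV.Stm

/-!
# Module ONE (helper59)
-/

set_option autoImplicit false

open IsLocalRing

universe u

namespace Pool.Agent.Helper10.MV

open Pool.Agent.Helper10.MU

theorem one : S_ONE.{u} := by
  intro B W _ _ _ _ harch f x hx hP b hb
  obtain ⟨n, hn⟩ := harch (f x) hx (f b) hb
  induction n generalizing b with
  | zero =>
    rw [pow_zero] at hn
    exact ⟨0, 1, b, by simp, isUnit_of_dvd_one hn, by simp⟩
  | succ n ih =>
    by_cases hu : IsUnit (f b)
    · exact ⟨0, 1, b, by simp, hu, by simp⟩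
    · obtain ⟨s, hs, h1⟩ := hP b hu
      have h2 : Set.range (![x] : Fin 1 → B) = {x} := by simp
      rw [h2] at h1
      obtain ⟨a, ha, k, hk, hsum⟩ := Submodule.mem_sup.mp h1
      obtain ⟨c, rfl⟩ := Ideal.mem_span_singleton.mp ha
      have h3 : f s * f b = f x * f c := by
        rw [← map_mul, ← hsum, map_add, (RingHom.mem_ker.mp hk), add_zero, map_mul]
      have hsb : f s * f b ≠ 0 := mul_ne_zero hs.ne_zero hb
      have hfx : f x ≠ 0 := by
        intro h0
        rw [h0, zero_mul] at h3
        exact hsb h3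
      have hfc : f c ≠ 0 := by
        intro h0
        rw [h0, mul_zero] at h3
        exact hsb h3
      have hdvd : f c ∣ f x ^ n := by
        have h4 : f x * f c ∣ f x * f x ^ n := by
          rw [← h3, ← pow_succ']
          exact hs.mul_left_dvd.mpr hn
        exact (mul_dvd_mul_iff_left hfx).mp h4
      obtain ⟨m, s', v, hs', hv, h4⟩ := ih c hfc hdvd
      refine ⟨m + 1, s' * s, v, ?_, hv, ?_⟩
      · rw [map_mul]
        exact hs'.mul hs
      · rw [map_mul, map_mul, mul_assoc, h3, pow_succ, ← mul_assoc v, map_mul, ← h4, map_mul]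
        ring

end Pool.Agent.Helper10.MV
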