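import Pool.Agent.Helper10.MV.Stm

/-!
# PR2: divisibility of monomials becomes true on a level (helper98)
-/

set_option autoImplicit false
set_option linter.unusedSectionVars false

open scoped TensorProduct
open IsLocalRing

universe u

namespace Pool.Agent.Helper10.MV

open Pool.Agent.Helper7.LU (psi inc)
open Pool.Agent.Helper10.MU

theorem pr2_mon_two {M : Type u} [CommMonoid M] (x : Fin 2 → M) (α : Fin 2 → ℕ) :
    mon x α = x 0 ^ α 0 * x 1 ^ α 1 := by
  simp [mon, Fin.prod_univ_two]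

theorem pr2_mon_one {M : Type u} [CommMonoid M] (x : Fin 1 → M) (α : Fin 1 → ℕ) :
    mon x α = x 0 ^ α 0 := by
  simp [mon]

theorem pr2_mon_sub {M : Type u} [CommMonoid M] {e : ℕ} (x : Fin e → M) (α β : Fin e → ℕ)
    (h : α ≤ β) : mon x β = mon x α * mon x (β - α) := by
  unfold mon
  rw [← Finset.prod_mul_distrib]
  refine Finset.prod_congr rfl fun i _ => ?_
  rw [← pow_add, Pi.sub_apply, Nat.add_sub_cancel' (h i)]

section

variable {R V S W : Type u} [CommRing R] [IsLocalRing R] [IsNoetherianRing R] [CommRing V] [IsDomain V]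
  [ValuationRing V] [CommRing S] [IsNoetherianRing S] [CommRing W] [IsDomain W] [ValuationRing W] [Algebra R V]
  [Algebra R S] [Algebra V W] [Algebra R W] [Algebra S W] [IsScalarTower R S W] [IsScalarTower R V W]

theorem pr2_mem {A : Subalgebra R V} {e : ℕ} {x : Fin e → V} (h : ∀ i, x i ∈ A) (α : Fin e → ℕ) :
    mon x α ∈ A :=
  Subalgebra.prod_mem A fun i _ => Subalgebra.pow_mem A (h i) _

theorem pr2_mon_ne {e : ℕ} {x : Fin e → V} (h : ∀ i, x i ≠ 0) (α : Fin e → ℕ) : mon x α ≠ 0 :=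
  Finset.prod_ne_zero_iff.2 fun i _ => pow_ne_zero _ (h i)

/-- divisibility of the exponents -/
theorem pr2_fin {e : ℕ} {A : Subalgebra R V} {x : Fin e → V} (hm : ∀ i, x i ∈ A) {v w : V}
    {α β : Fin e → ℕ} (hv : MonAt S W A x v α) (hw : MonAt S W A x w β) (h : α ≤ β) :
    ∃ s c : S ⊗[R] A, IsUnit (ps S W A s) ∧
      ps S W A s * algebraMap V W w = ps S W A c * algebraMap V W v := by
  obtain ⟨s1, u1, hs1, hu1, e1⟩ := hv
  obtain ⟨s2, u2, hs2, hu2, e2⟩ := hw
  refine ⟨s2 * u1, s1 * u2 * inc S A ⟨mon x (β - α), pr2_mem hm _⟩, ?_, ?_⟩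
  · rw [map_mul]
    exact hs2.mul hu1
  · rw [map_mul, map_mul, map_mul, ps_inc]
    rw [pr2_mon_sub x α β h, map_mul] at e2
    linear_combination (ps S W A u1) * e2 -
      ps S W A u2 * algebraMap V W (mon x (β - α)) * e1

/-- a monomial does not divide a proper divisor -/
theorem pr2_not (hD : IsData R V S W) {e : ℕ} {A : Subalgebra R V} {x : Fin e → V}
    (hx : ∀ i, x i ∈ maximalIdeal V) (h0 : ∀ i, x i ≠ 0) {v w : V}
    {α β : Fin e → ℕ} (hv : MonAt S W A x v α) (hw : MonAt S W A x w β) (hvw : v ∣ w)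
    (h : β ≤ α) (hne : ¬ α ≤ β) : False := by
  obtain ⟨s1, u1, hs1, hu1, e1⟩ := hv
  obtain ⟨s2, u2, hs2, hu2, e2⟩ := hw
  obtain ⟨t, rfl⟩ := hvw
  rw [Pi.le_def, not_forall] at hne
  obtain ⟨i, hi⟩ := hne
  have hm : mon x (α - β) ∈ maximalIdeal V := by
    unfold mon
    refine Ideal.mem_of_dvd _ (Finset.dvd_prod_of_mem _ (Finset.mem_univ i)) ?_
    refine Ideal.pow_mem_of_mem _ (hx i) _ ?_
    have := hi
    simp only [Pi.sub_apply]
    omega
  have hmW : algebraMap V W (mon x (α - β)) ∈ maximalIdeal W := (mem_max_W hD _).2 hm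
  rw [pr2_mon_sub x β α h, map_mul] at e1
  rw [map_mul] at e2
  have hβ : algebraMap V W (mon x β) ≠ 0 := fun h1 =>
    pr2_mon_ne h0 β (hD.inj (by rw [h1, map_zero]))
  have key : algebraMap V W (mon x β) * (ps S W A s1 * ps S W A u2) =
      algebraMap V W (mon x β) *
        (ps S W A s2 * algebraMap V W t * ps S W A u1 * algebraMap V W (mon x (α - β))) := by
    linear_combination -(ps S W A s1) * e2 + ps S W A s2 * algebraMap V W t * e1
  have h2 := mul_left_cancel₀ hβ key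
  have h3 : ps S W A s1 * ps S W A u2 ∈ maximalIdeal W := by
    rw [h2]
    exact Ideal.mul_mem_left _ _ hmW
  exact (mem_nonunits_iff.1 ((mem_maximalIdeal _).1 h3)) (hs1.mul hu2)

/-- one parameter -/
theorem pr2_one (hD : IsData R V S W) {A : Subalgebra R V} {x : Fin 1 → V} (hm : ∀ i, x i ∈ A)
    (hx : ∀ i, x i ∈ maximalIdeal V) (h0 : ∀ i, x i ≠ 0) {v w : V}
    {α β : Fin 1 → ℕ} (hv : MonAt S W A x v α) (hw : MonAt S W A x w β) (hvw : v ∣ w) :
    ∃ s c : S ⊗[R] A, IsUnit (ps S W A s) ∧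
      ps S W A s * algebraMap V W w = ps S W A c * algebraMap V W v := by
  by_cases h : α ≤ β
  · exact pr2_fin hm hv hw h
  · exfalso
    refine pr2_not hD hx h0 hv hw hvw ?_ h
    intro i
    rw [Pi.le_def, not_forall] at h
    obtain ⟨j, hj⟩ := h
    have : i = j := Subsingleton.elim _ _
    subst this
    show β i ≤ α i
    omega

/-- the difference of exponents -/
def pr2_meas (α β : Fin 2 → ℕ) : ℕ := (α 0 - β 0) + (β 0 - α 0) + (α 1 - β 1) + (β 1 - α 1)

/-- the conclusion -/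
def Pr2C (S W : Type u) [CommRing S] [IsNoetherianRing S] [CommRing W] [IsDomain W] [ValuationRing W]
    [Algebra R S] [Algebra V W] [Algebra R W] [Algebra S W] [IsScalarTower R S W]
    [IsScalarTower R V W] {e : ℕ} (A : Subalgebra R V) (x : Fin e → V) (v w : V) : Prop :=
  ∃ (A' : Subalgebra R V) (e' : ℕ) (x' : Fin e' → V), Ex S W A A' x x' ∧
      ∃ s c : S ⊗[R] A', IsUnit (ps S W A' s) ∧
        ps S W A' s * algebraMap V W w = ps S W A' c * algebraMap V W v

/-- one step, `x 0 ∣ x 1` -/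
theorem pr2_step (hBLO : S_BLO.{u}) (hTR : S_TR2.{u}) (hD : IsData R V S W) (N : ℕ)
    (ih : ∀ (A : Subalgebra R V) (x : Fin 2 → V) (α β : Fin 2 → ℕ) (v w : V), Good S W A x →
      MonAt S W A x v α → MonAt S W A x w β → v ∣ w → pr2_meas α β < N → Pr2C S W A x v w)
    (A : Subalgebra R V) (x : Fin 2 → V) (α β : Fin 2 → ℕ) (v w : V) (G : Good S W A x)
    (hv : MonAt S W A x v α) (hw : MonAt S W A x w β) (hvw : v ∣ w) (hN : pr2_meas α β = N)
    (hx : x 0 ∣ x 1) : Pr2C S W A x v w := by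
  by_cases hab : α ≤ β
  · exact ⟨A, 2, x, (hTR R V S W hD 2 2 2 A A A x x x).1 G, pr2_fin G.lev.mem hv hw hab⟩
  by_cases hba : β ≤ α
  · exact (pr2_not hD G.xm G.x0 hv hw hvw hba hab).elim
  obtain ⟨T, hT⟩ := hx
  obtain ⟨A', hTA', hB⟩ := hBLO R V S W hD A x G T hT
  -- the level contains `x 0` and `T`
  have hmon : ∀ γ : Fin 2 → ℕ, mon x γ = x 0 ^ (γ 0 + γ 1) * T ^ γ 1 := by
    intro γ
    rw [pr2_mon_two, hT, mul_pow, pow_add]
    ring
  by_cases hTm : T ∈ maximalIdeal V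
  · rcases hB with ⟨g, hg, hgX, E⟩ | E
    · have hg1 := hgX hTm
      have hy : Polynomial.aeval T g = T := by
        rw [hg1]
        simp
      rw [hy] at E
      have hnew : ∀ (z : V) (γ : Fin 2 → ℕ), MonAt S W A x z γ →
          MonAt S W A' ![x 0, T] z ![γ 0 + γ 1, γ 1] := by
        rintro z γ ⟨s1, u1, hs1, hu1, e1⟩
        refine ⟨tr S E.le s1, tr S E.le u1, by rwa [ps_tr], by rwa [ps_tr], ?_⟩
        rw [ps_tr, ps_tr, e1, hmon γ, pr2_mon_two]
        simp
      have hv' := hnew v α hv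
      have hw' := hnew w β hw
      by_cases hab' : (![α 0 + α 1, α 1] : Fin 2 → ℕ) ≤ ![β 0 + β 1, β 1]
      · exact ⟨A', 2, _, E, pr2_fin E.good.lev.mem hv' hw' hab'⟩
      by_cases hba' : (![β 0 + β 1, β 1] : Fin 2 → ℕ) ≤ ![α 0 + α 1, α 1]
      · exact (pr2_not hD E.good.xm E.good.x0 hv' hw' hvw hba' hab').elim
      have hlt : pr2_meas ![α 0 + α 1, α 1] ![β 0 + β 1, β 1] < N := by
        rw [← hN]
        unfold pr2_meas
        simp only [Pi.le_def, Fin.forall_fin_two, Matrix.cons_val_zero, Matrix.cons_val_one]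
          at hab hba hab' hba' ⊢
        omega
      obtain ⟨A'', e'', x'', E'', h⟩ := ih A' _ _ _ v w E.good hv' hw' hvw hlt
      exact ⟨A'', e'', x'', (hTR R V S W hD 2 2 e'' A A' A'' x _ x'').2.1 E E'', h⟩
    · obtain ⟨α', hα'⟩ := (hTR R V S W hD 2 1 1 A A' A' x ![x 0] ![x 0]).2.2 E v α hv
      obtain ⟨β', hβ'⟩ := (hTR R V S W hD 2 1 1 A A' A' x ![x 0] ![x 0]).2.2 E w β hw
      exact ⟨A', 1, _, E, pr2_one hD E.good.lev.mem E.good.xm E.good.x0 hα' hβ' hvw⟩
  · -- `T` is a unit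
    have hTu : IsUnit (algebraMap V W T) := by
      rw [isUnit_iff_W hD]
      by_contra h
      exact hTm h
    have hfin : ∀ {e' : ℕ} (x' : Fin e' → V), Ex S W A A' x x' → Pr2C S W A x v w := by
      intro e' x' E
      have hnew : ∀ (z : V) (γ : Fin 2 → ℕ), MonAt S W A x z γ →
          MonAt S W A' (![x 0] : Fin 1 → V) z ![γ 0 + γ 1] := by
        rintro z γ ⟨s1, u1, hs1, hu1, e1⟩
        refine ⟨tr S E.le s1, tr S E.le u1 * inc S A' (⟨T, hTA'⟩ ^ γ 1), by rwa [ps_tr], ?_, ?_⟩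
        · rw [map_mul, ps_tr, ps_inc]
          refine hu1.mul ?_
          have : ((⟨T, hTA'⟩ ^ γ 1 : A') : V) = T ^ γ 1 := rfl
          rw [this, map_pow]
          exact hTu.pow _
        · rw [map_mul, ps_tr, ps_tr, ps_inc, e1, hmon γ, pr2_mon_one]
          have : ((⟨T, hTA'⟩ ^ γ 1 : A') : V) = T ^ γ 1 := rfl
          rw [this]
          simp only [Matrix.cons_val_fin_one, map_mul, map_pow]
          ring
      refine ⟨A', e', x', E, pr2_one hD ?_ ?_ ?_ (hnew v α hv) (hnew w β hw) hvw⟩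
      · intro i
        simp only [Matrix.cons_val_fin_one]
        exact E.le (G.lev.mem 0)
      · intro i
        simp only [Matrix.cons_val_fin_one]
        exact G.xm 0
      · intro i
        simp only [Matrix.cons_val_fin_one]
        exact G.x0 0
    rcases hB with ⟨g, hg, hgX, E⟩ | E
    · exact hfin _ E
    · exact hfin _ E

/-- two parameters -/
theorem pr2_two (hBLO : S_BLO.{u}) (hSWP : S_SWP.{u}) (hTR : S_TR2.{u}) (hD : IsData R V S W) (N : ℕ) :
    ∀ (A : Subalgebra R V) (x : Fin 2 → V) (α β : Fin 2 → ℕ) (v w : V), Good S W A x →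
      MonAt S W A x v α → MonAt S W A x w β → v ∣ w → pr2_meas α β < N → Pr2C S W A x v w := by
  induction N with
  | zero => intro A x α β v w _ _ _ _ h; omega
  | succ N ih =>
    intro A x α β v w G hv hw hvw hN
    rcases Nat.lt_succ_iff_lt_or_eq.1 hN with hlt | heq
    · exact ih A x α β v w G hv hw hvw hlt
    rcases ValuationRing.dvd_total (x 0) (x 1) with hx | hx
    · exact pr2_step hBLO hTR hD N ih A x α β v w G hv hw hvw heq hx
    · have E := hSWP R V S W hD A x G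
      have hnew : ∀ (z : V) (γ : Fin 2 → ℕ), MonAt S W A x z γ →
          MonAt S W A ![x 1, x 0] z ![γ 1, γ 0] := by
        rintro z γ ⟨s1, u1, hs1, hu1, e1⟩
        refine ⟨s1, u1, hs1, hu1, ?_⟩
        rw [e1, pr2_mon_two, pr2_mon_two]
        simp [mul_comm]
      obtain ⟨A'', e'', x'', E'', h⟩ := pr2_step hBLO hTR hD N ih A ![x 1, x 0] ![α 1, α 0]
        ![β 1, β 0] v w E.good (hnew v α hv) (hnew w β hw) hvw (by
          rw [← heq]
          unfold pr2_meas
          simp only [Matrix.cons_val_zero, Matrix.cons_val_one]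
          omega) (by simpa using hx)
      exact ⟨A'', e'', x'', (hTR R V S W hD 2 2 e'' A A A'' x _ x'').2.1 E E'', h⟩

end

theorem pr2 (hBLO : S_BLO.{u}) (hSWP : S_SWP.{u}) (hTR : S_TR2.{u}) : S_PR2.{u} := by
  intro R V S W _ _ _ _ _ _ _ _ _ _ _ _ _ _ _ _ _ _ hD e A x G α β hαβ
  have hself : ∀ γ : Fin e → ℕ, MonAt S W A x (mon x γ) γ := fun γ =>
    ⟨1, 1, by simp, by simp, rfl⟩
  have h1 := G.pos
  have h2 := G.le2
  obtain rfl | rfl : e = 1 ∨ e = 2 := by omega
  · exact ⟨A, 1, x, (hTR R V S W hD 1 1 1 A A A x x x).1 G,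
      pr2_one hD G.lev.mem G.xm G.x0 (hself α) (hself β) hαβ⟩
  · exact pr2_two hBLO hSWP hTR hD _ A x α β _ _ G (hself α) (hself β) hαβ (Nat.lt_succ_self _)

end Pool.Agent.Helper10.MV
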