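import Pool.Agent.Helper10.MV.Stm

/-!
# The initial form of an element
-/

set_option autoImplicit false
set_option linter.unusedSectionVars false

open scoped TensorProduct
open IsLocalRing

universe u

namespace Pool.Agent.Helper10.MV

open Pool.Agent.Helper7.LU (psi inc)
open Pool.Agent.Helper10.MU

/-- The localization of the image at the centre, as a subring of `W`. -/
def repD {B W : Type u} [CommRing B] [CommRing W] (f : B →+* W) : Subring W where
  carrier := {w | ∃ s b, IsUnit (f s) ∧ f s * w = f b}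
  zero_mem' := ⟨1, 0, by simp, by simp⟩
  one_mem' := ⟨1, 1, by simp, by simp⟩
  add_mem' := by
    rintro v w ⟨s, b, hs, hb⟩ ⟨t, c, ht, hc⟩
    refine ⟨s * t, t * b + s * c, by rw [map_mul]; exact hs.mul ht, ?_⟩
    rw [map_add, map_mul, map_mul, map_mul, ← hb, ← hc]
    ring
  mul_mem' := by
    rintro v w ⟨s, b, hs, hb⟩ ⟨t, c, ht, hc⟩
    refine ⟨s * t, b * c, by rw [map_mul]; exact hs.mul ht, ?_⟩
    rw [map_mul, map_mul, ← hb, ← hc]
    ring
  neg_mem' := by
    rintro v ⟨s, b, hs, hb⟩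
    exact ⟨s, -b, hs, by rw [map_neg, ← hb]; ring⟩

theorem rep_f {B W : Type u} [CommRing B] [CommRing W] (f : B →+* W) (b : B) : f b ∈ repD f :=
  ⟨1, b, by simp, by simp⟩

/-- division by units -/
theorem rep_div {B W : Type u} [CommRing B] [CommRing W] (f : B →+* W) {s b : B} (hs : IsUnit (f s)) :
    ∃ w ∈ repD f, f s * w = f b := by
  obtain ⟨u, hu⟩ := hs
  refine ⟨(↑(u⁻¹) : W) * f b, ⟨s, b, ⟨u, hu⟩, ?_⟩, ?_⟩ <;>
  · rw [← mul_assoc, ← hu, Units.mul_inv, one_mul]

/-- common denominators -/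
theorem rep_com {B W : Type u} [CommRing B] [CommRing W] (f : B →+* W) (a : ℕ → W)
    (ha : ∀ j, a j ∈ repD f) (N : ℕ) : ∃ (s : B) (a' : ℕ → B), IsUnit (f s) ∧
      ∀ j < N, f (a' j) = f s * a j := by
  choose s b hs hb using ha
  refine ⟨∏ i ∈ Finset.range N, s i, fun j => (∏ i ∈ (Finset.range N).erase j, s i) * b j, ?_, ?_⟩
  · rw [map_prod]
    exact IsUnit.prod_iff.2 fun i _ => hs i
  · intro j hj
    rw [map_mul, ← hb j, ← mul_assoc, ← map_mul,
      Finset.prod_erase_mul _ _ (Finset.mem_range.2 hj)]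

/-- the sum of a representation of degree `k` -/
theorem rep_step {W : Type u} [CommRing W] (x y : W) (k : ℕ) (a p q : ℕ → W)
    (h : ∀ j, a j = p j * x + q j * y) :
    ∑ j ∈ Finset.range (k + 1), a j * x ^ (k - j) * y ^ j =
      ∑ j ∈ Finset.range (k + 2),
        ((if j ≤ k then p j else 0) + (if 1 ≤ j then q (j - 1) else 0)) * x ^ (k + 1 - j) * y ^ j := by
  have e1 : ∑ j ∈ Finset.range (k + 2), (if j ≤ k then p j else 0) * x ^ (k + 1 - j) * y ^ j =
      ∑ j ∈ Finset.range (k + 1), p j * x ^ (k + 1 - j) * y ^ j := by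
    rw [Finset.sum_range_succ, if_neg (by omega), zero_mul, zero_mul, add_zero]
    refine Finset.sum_congr rfl fun j hj => ?_
    rw [if_pos (by have := Finset.mem_range.1 hj; omega)]
  have e2 : ∑ j ∈ Finset.range (k + 2), (if 1 ≤ j then q (j - 1) else 0) * x ^ (k + 1 - j) * y ^ j =
      ∑ j ∈ Finset.range (k + 1), q j * x ^ (k - j) * y ^ (j + 1) := by
    rw [Finset.sum_range_succ', if_neg (by omega), zero_mul, zero_mul, add_zero]
    refine Finset.sum_congr rfl fun j hj => ?_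
    rw [if_pos (by omega)]
    have : k + 1 - (j + 1) = k - j := by omega
    rw [this, Nat.add_sub_cancel]
  simp only [add_mul, Finset.sum_add_distrib]
  rw [e1, e2, ← Finset.sum_add_distrib]
  refine Finset.sum_congr rfl fun j hj => ?_
  have : k + 1 - j = (k - j) + 1 := by have := Finset.mem_range.1 hj; omega
  rw [h, this]
  ring

theorem rep_alt {W : Type u} [CommRing W] [IsLocalRing W] (D : Subring W) (x y : W)
    (h1 : ∀ w ∈ D, w ∈ maximalIdeal W → ∃ p ∈ D, ∃ q ∈ D, w = p * x + q * y) (b : W) (hb : b ∈ D) (k : ℕ) :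
    (∃ a : ℕ → W, (∀ j, a j ∈ D) ∧ b = ∑ j ∈ Finset.range (k + 1), a j * x ^ (k - j) * y ^ j) ∨
    ∃ r < k, ∃ a : ℕ → W, (∀ j, a j ∈ D) ∧
      b = ∑ j ∈ Finset.range (r + 1), a j * x ^ (r - j) * y ^ j ∧ ∃ j ≤ r, IsUnit (a j) := by
  induction k with
  | zero =>
    left
    exact ⟨fun _ => b, fun _ => hb, by simp⟩
  | succ k ih =>
    rcases ih with ⟨a, ha, e⟩ | ⟨r, hr, a, ha, e, hu⟩
    · by_cases hu : ∃ j ≤ k, IsUnit (a j)
      · right
        exact ⟨k, Nat.lt_succ_self k, a, ha, e, hu⟩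
      · left
        push Not at hu
        have h2 : ∀ j, ∃ p ∈ D, ∃ q ∈ D, (if j ≤ k then a j else 0) = p * x + q * y := by
          intro j
          by_cases hj : j ≤ k
          · rw [if_pos hj]
            exact h1 _ (ha j) ((mem_maximalIdeal _).2 (hu j hj))
          · rw [if_neg hj]
            exact ⟨0, D.zero_mem, 0, D.zero_mem, by ring⟩
        choose p hp q hq hpq using h2
        refine ⟨fun j => (if j ≤ k then p j else 0) + (if 1 ≤ j then q (j - 1) else 0), ?_, ?_⟩
        · intro j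
          refine D.add_mem ?_ ?_
          · split_ifs
            · exact hp j
            · exact D.zero_mem
          · split_ifs
            · exact hq _
            · exact D.zero_mem
        · rw [← rep_step x y k _ p q hpq, e]
          refine Finset.sum_congr rfl fun j hj => ?_
          rw [if_pos (by have := Finset.mem_range.1 hj; omega)]
    · right
      exact ⟨r, by omega, a, ha, e, hu⟩

theorem rep_reg {W : Type u} [CommRing W] (D : Subring W) (x y : W) (hy : y ∈ D)
    (h2 : ∀ b ∈ D, ∀ c ∈ D, b * y = c * x → ∃ d ∈ D, b = d * x) (n : ℕ) :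
    ∀ w ∈ D, ∀ c ∈ D, w * y ^ n = c * x → ∃ d ∈ D, w = d * x := by
  induction n with
  | zero =>
    intro w _ c hc e
    exact ⟨c, hc, by rw [← e, pow_zero, mul_one]⟩
  | succ n ih =>
    intro w hw c hc e
    obtain ⟨d, hd, e2⟩ := h2 (w * y ^ n) (D.mul_mem hw (D.pow_mem hy n)) c hc (by
      rw [← e, pow_succ]
      ring)
    exact ih w hw d hd e2

theorem rep_mod {W : Type u} [CommRing W] (D : Subring W) (x y : W) (hx : x ∈ D) (hy : y ∈ D) (r : ℕ)
    (a : ℕ → W) (ha : ∀ j, a j ∈ D) : ∃ c ∈ D,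
      ∑ j ∈ Finset.range (r + 1), a j * x ^ (r - j) * y ^ j = a r * y ^ r + c * x := by
  refine ⟨∑ j ∈ Finset.range r, a j * x ^ (r - j - 1) * y ^ j, ?_, ?_⟩
  · exact D.sum_mem fun j _ => D.mul_mem (D.mul_mem (ha j) (D.pow_mem hx _)) (D.pow_mem hy _)
  · rw [Finset.sum_range_succ, Nat.sub_self, pow_zero, mul_one, add_comm, Finset.sum_mul]
    congr 1
    refine Finset.sum_congr rfl fun j hj => ?_
    have : r - j = (r - j - 1) + 1 := by have := Finset.mem_range.1 hj; omega
    conv_lhs => rw [this]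
    rw [pow_succ]
    ring

/-- **REP** -/
theorem rep (hrsd : S_RSD.{u}) : S_REP.{u} := by
  intro B W _ _ _ _ _ f x y hx hy hpar hdim b n hreg
  have hrs := hrsd B W f x y hx hy hpar hdim
  -- the two properties of `D`
  have h1 : ∀ w ∈ repD f, w ∈ maximalIdeal W → ∃ p ∈ repD f, ∃ q ∈ repD f, w = p * f x + q * f y := by
    rintro w ⟨s, b, hs, hb⟩ hw
    have hbm : f b ∈ maximalIdeal W := by
      rw [← hb]
      exact Ideal.mul_mem_left _ _ hw
    obtain ⟨u, hu, hub⟩ := hpar b hbm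
    obtain ⟨z, hz, k, hk, e⟩ := Submodule.mem_sup.1 hub
    have hr : Set.range ![x, y] = {x, y} := Matrix.range_cons_cons_empty x y _
    rw [hr] at hz
    obtain ⟨p, q, hpq⟩ := Ideal.mem_span_pair.1 hz
    have e2 : f u * f s * w = f p * f x + f q * f y := by
      rw [mul_assoc, hb, ← map_mul, ← e, map_add, (RingHom.mem_ker).1 hk, add_zero, ← hpq, map_add,
        map_mul, map_mul]
    obtain ⟨v, hv⟩ := hu.mul hs
    obtain ⟨p', hp', ep⟩ := rep_div f (s := u * s) (b := p) (by rw [map_mul]; exact hu.mul hs)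
    obtain ⟨q', hq', eq'⟩ := rep_div f (s := u * s) (b := q) (by rw [map_mul]; exact hu.mul hs)
    refine ⟨p', hp', q', hq', ?_⟩
    refine (hu.mul hs).mul_left_cancel ?_
    rw [e2, ← ep, ← eq', map_mul]
    ring
  have h2 : ∀ b ∈ repD f, ∀ c ∈ repD f, b * f y = c * f x → ∃ d ∈ repD f, b = d * f x := by
    rintro b ⟨s, b₀, hs, hb⟩ c ⟨t, c₀, ht, hc⟩ e
    have e2 : f (t * b₀) * f y = f (s * c₀) * f x := by
      rw [map_mul, map_mul, ← hb, ← hc]
      linear_combination f t * f s * e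
    obtain ⟨u, hu, hub⟩ := hrs (t * b₀) (s * c₀) e2
    obtain ⟨z, hz, k, hk, e3⟩ := Submodule.mem_sup.1 hub
    obtain ⟨d, hd⟩ := Ideal.mem_span_singleton'.1 hz
    obtain ⟨d', hd', ed⟩ := rep_div f (s := u * t * s) (b := d)
      (by rw [map_mul, map_mul]; exact (hu.mul ht).mul hs)
    refine ⟨d', hd', ?_⟩
    refine ((hu.mul ht).mul hs).mul_left_cancel ?_
    have e4 := congrArg f e3
    rw [map_add, (RingHom.mem_ker).1 hk, add_zero, ← hd, map_mul, map_mul, map_mul, ← hb, ← ed,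
      map_mul, map_mul] at e4
    linear_combination -e4
  obtain ⟨s, v, c, hs, hv, e⟩ := hreg
  -- `b = v' y ^ n + c' x`
  obtain ⟨v', hv', ev⟩ := rep_div f (s := s) (b := v) hs
  obtain ⟨c', hc', ec⟩ := rep_div f (s := s) (b := c) hs
  have hvu : IsUnit v' := by
    have : IsUnit (f s * v') := by rw [ev]; exact hv
    exact isUnit_of_mul_isUnit_right this
  have eb : f b = v' * f y ^ n + c' * f x := by
    refine hs.mul_left_cancel ?_
    rw [← map_mul, e, map_add, map_mul, map_mul, map_pow, ← ev, ← ec]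
    ring
  have fin : ∀ r ≤ n, ∀ a : ℕ → W, (∀ j, a j ∈ repD f) →
      f b = ∑ j ∈ Finset.range (r + 1), a j * f x ^ (r - j) * f y ^ j → (∃ j ≤ r, IsUnit (a j)) →
      (r = n → IsUnit (a r)) → ∃ (r : ℕ) (a : ℕ → B) (s : B), r ≤ n ∧ IsUnit (f s) ∧
      f (s * b) = f (∑ j ∈ Finset.range (r + 1), a j * x ^ (r - j) * y ^ j) ∧
      (∃ j ≤ r, IsUnit (f (a j))) ∧ (r = n → IsUnit (f (a r))) := by
    intro r hr a ha ea hu hrn
    obtain ⟨s, a', hs, ha'⟩ := rep_com f a ha (r + 1)
    refine ⟨r, a', s, hr, hs, ?_, ?_, ?_⟩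
    · rw [map_mul, ea, map_sum, Finset.mul_sum]
      refine Finset.sum_congr rfl fun j hj => ?_
      rw [map_mul, map_mul, map_pow, map_pow, ha' j (Finset.mem_range.1 hj)]
      ring
    · obtain ⟨j, hj, hju⟩ := hu
      exact ⟨j, hj, by rw [ha' j (by omega)]; exact hs.mul hju⟩
    · intro h
      rw [ha' r (by omega)]
      exact hs.mul (hrn h)
  have hxD := rep_f f x
  have hyD := rep_f f y
  rcases rep_alt (repD f) (f x) (f y) h1 (f b) (rep_f f b) (n + 1) with
    ⟨a, ha, ea⟩ | ⟨r, hr, a, ha, ea, hu⟩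
  · exfalso
    obtain ⟨c₂, hc₂, e2⟩ := rep_mod (repD f) (f x) (f y) hxD hyD (n + 1) a ha
    have e3 : (v' - a (n + 1) * f y) * f y ^ n = (c₂ - c') * f x := by
      have := eb.symm.trans (ea.trans e2)
      rw [pow_succ] at this
      linear_combination this
    obtain ⟨d, hd, ed⟩ := rep_reg (repD f) (f x) (f y) hyD h2 n (v' - a (n + 1) * f y)
      ((repD f).sub_mem hv' ((repD f).mul_mem (ha _) hyD)) (c₂ - c') ((repD f).sub_mem hc₂ hc') e3
    have h3 : v' ∈ maximalIdeal W := by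
      have : v' = d * f x + a (n + 1) * f y := by rw [← ed]; ring
      rw [this]
      exact Ideal.add_mem _ (Ideal.mul_mem_left _ _ hx) (Ideal.mul_mem_left _ _ hy)
    exact (mem_maximalIdeal _).1 h3 hvu
  · refine fin r (by omega) a ha ea hu ?_
    intro hrn
    subst hrn
    obtain ⟨c₂, hc₂, e2⟩ := rep_mod (repD f) (f x) (f y) hxD hyD r a ha
    have e3 : (v' - a r) * f y ^ r = (c₂ - c') * f x := by
      have := eb.symm.trans (ea.trans e2)
      linear_combination this
    obtain ⟨d, hd, ed⟩ := rep_reg (repD f) (f x) (f y) hyD h2 r (v' - a r)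
      ((repD f).sub_mem hv' (ha _)) (c₂ - c') ((repD f).sub_mem hc₂ hc') e3
    by_contra hcon
    have h3 : v' ∈ maximalIdeal W := by
      have : v' = d * f x + a r := by rw [← ed]; ring
      rw [this]
      exact Ideal.add_mem _ (Ideal.mul_mem_left _ _ hx) ((mem_maximalIdeal _).2 hcon)
    exact (mem_maximalIdeal _).1 h3 hvu

end Pool.Agent.Helper10.MV
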