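import Pool.Agent.Helper10.MV.Stm

/-!
# RG0: `x`-divisibility and the order modulo `x`
-/

set_option autoImplicit false
set_option linter.unusedSectionVars false

open scoped TensorProduct
open IsLocalRing

universe u

namespace Pool.Agent.Helper10.MV

open Pool.Agent.Helper7.LU (psi inc)
open Pool.Agent.Helper10.MU

section

variable {B W : Type u} [CommRing B] [CommRing W] [IsDomain W] [ValuationRing W]

/-- unfold `sat` of a sum with the kernel -/
theorem rg0_sat {f : B →+* W} {I : Ideal B} {b : B} (h : b ∈ sat f (I ⊔ RingHom.ker f)) :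
    ∃ s i, IsUnit (f s) ∧ i ∈ I ∧ f (s * b) = f i := by
  obtain ⟨s, hs, hb⟩ := h
  obtain ⟨i, hi, k, hk, he⟩ := Submodule.mem_sup.1 hb
  refine ⟨s, i, hs, hi, ?_⟩
  rw [← he, map_add, RingHom.mem_ker.1 hk, add_zero]

theorem rg0_sat' {f : B →+* W} {I : Ideal B} {b s i : B} (hs : IsUnit (f s)) (hi : i ∈ I)
    (h : f (s * b) = f i) : b ∈ sat f (I ⊔ RingHom.ker f) := by
  refine ⟨s, hs, Submodule.mem_sup.2 ⟨i, hi, s * b - i, ?_, by ring⟩⟩
  rw [RingHom.mem_ker, map_sub, h, sub_self]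

/-- taking out the powers of `x` -/
theorem rg0_x (hA : Arch W) (f : B →+* W) (x : B) (hx : f x ∈ maximalIdeal W) (hx0 : f x ≠ 0) (b : B)
    (hb : f b ≠ 0) : ∃ (m : ℕ) (b₀ s : B), IsUnit (f s) ∧ f (s * b) = f (x ^ m * b₀) ∧
      b₀ ∉ sat f (Ideal.span {x} ⊔ RingHom.ker f) := by
  classical
  obtain ⟨N, hN⟩ := hA (f x) hx (f b) hb
  -- the powers that can be taken out are bounded
  have hbd : ∀ (m : ℕ) (b₀ s : B), IsUnit (f s) → f (s * b) = f (x ^ m * b₀) → m ≤ N := by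
    intro m b₀ s hs h
    by_contra hm
    rw [not_le] at hm
    -- `x ^ m ∣ s b`, `b ∣ x ^ N`
    have h1 : f x ^ m ∣ f b := by
      have h2 : f x ^ m ∣ f s * f b := by
        rw [← map_mul, h, map_mul, map_pow]
        exact dvd_mul_right _ _
      exact (hs.dvd_mul_left).1 h2
    have h3 : f x ^ m ∣ f x ^ N := h1.trans hN
    have h4 : f x ^ N * f x ^ (m - N) ∣ f x ^ N * 1 := by
      rw [← pow_add, show N + (m - N) = m by omega, mul_one]
      exact h3
    have h5 : f x ^ (m - N) ∣ 1 := (mul_dvd_mul_iff_left (pow_ne_zero _ hx0)).1 h4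
    have h6 : IsUnit (f x ^ (m - N)) := isUnit_of_dvd_one h5
    have h7 : IsUnit (f x) := (isUnit_pow_iff (by omega)).1 h6
    exact (mem_nonunits_iff.1 ((mem_maximalIdeal _).1 hx)) h7
  -- the largest power
  have hex : ∃ m : ℕ, ∃ (b₀ s : B), IsUnit (f s) ∧ f (s * b) = f (x ^ m * b₀) :=
    ⟨0, b, 1, by simp, by simp⟩
  let P : ℕ → Prop := fun m => ∃ (b₀ s : B), IsUnit (f s) ∧ f (s * b) = f (x ^ m * b₀)
  have hP0 : P 0 := ⟨b, 1, by simp, by simp⟩
  have hspec := Nat.findGreatest_spec (P := P) (Nat.zero_le N) hP0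
  have hmax : ∀ m, P m → m ≤ Nat.findGreatest P N := by
    rintro m ⟨b₀, s, hs, h⟩
    exact Nat.le_findGreatest (hbd m b₀ s hs h) ⟨b₀, s, hs, h⟩
  obtain ⟨b₀, s, hs, h⟩ := hspec
  refine ⟨Nat.findGreatest P N, b₀, s, hs, h, fun hc => ?_⟩
  obtain ⟨t, i, ht, hi, he⟩ := rg0_sat hc
  obtain ⟨c, rfl⟩ := Ideal.mem_span_singleton'.1 hi
  have := hmax (Nat.findGreatest P N + 1) ⟨c, t * s, by rw [map_mul]; exact ht.mul hs, by
    have h1 : f (t * s * b) = f t * f (s * b) := by rw [mul_assoc, map_mul]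
    rw [h1, h]
    have h2 : f t * f (x ^ Nat.findGreatest P N * b₀) = f x ^ Nat.findGreatest P N * f (t * b₀) := by
      rw [map_mul, map_mul, map_pow]; ring
    rw [h2, he, map_mul, map_mul, map_pow, pow_succ]
    ring⟩
  omega

/-- Krull's intersection theorem -/
theorem rg0_krull [IsNoetherianRing B] (f : B →+* W) (y : B) (hy : f y ∈ maximalIdeal W) (I : Ideal B) (b : B)
    (h : ∀ n : ℕ, b ∈ sat f (Ideal.span {y ^ n} ⊔ I)) : b ∈ sat f I := by
  let p : Ideal B := (maximalIdeal W).comap f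
  haveI hp : p.IsPrime := Ideal.comap_isPrime f _
  have hunit : ∀ s : B, s ∈ p.primeCompl ↔ IsUnit (f s) := by
    intro s
    rw [Ideal.mem_primeCompl_iff, Ideal.mem_comap, mem_maximalIdeal, mem_nonunits_iff, not_not]
  let L := Localization.AtPrime p
  haveI : IsNoetherianRing L := IsLocalization.isNoetherianRing p.primeCompl L inferInstance
  let φ : B →+* L := algebraMap B L
  let J : Ideal L := I.map φ
  have hy' : Ideal.span {φ y} ≠ (⊤ : Ideal L) := by
    rw [Ne, Ideal.span_singleton_eq_top]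
    intro hu
    have h1 : φ y ∈ maximalIdeal L := (IsLocalization.AtPrime.to_map_mem_maximal_iff L p y).2 hy
    exact (mem_nonunits_iff.1 ((mem_maximalIdeal _).1 h1)) hu
  have hK := Ideal.iInf_pow_smul_eq_bot_of_isLocalRing (M := L ⧸ J) (Ideal.span {φ y}) hy'
  have hb : (Submodule.Quotient.mk (φ b) : L ⧸ J) ∈
      (⨅ i : ℕ, (Ideal.span {φ y}) ^ i • (⊤ : Submodule L (L ⧸ J))) := by
    rw [Submodule.mem_iInf]
    intro n
    obtain ⟨s, hs, hsb⟩ := h n
    obtain ⟨u, hu, i, hi, he⟩ := Submodule.mem_sup.1 hsb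
    obtain ⟨c, rfl⟩ := Ideal.mem_span_singleton'.1 hu
    have hsu : IsUnit (φ s) := IsLocalization.map_units L (⟨s, (hunit s).2 hs⟩ : p.primeCompl)
    obtain ⟨w, hw⟩ := hsu.exists_left_inv
    have h1 : φ b = (φ y) ^ n * (w * φ c) + w * φ i := by
      have h2 : φ s * φ b = φ c * φ y ^ n + φ i := by
        rw [← map_mul, ← he, map_add, map_mul, map_pow]
      calc φ b = w * φ s * φ b := by rw [hw, one_mul]
        _ = w * (φ s * φ b) := by ring
        _ = _ := by rw [h2]; ring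
    have h3 : (Submodule.Quotient.mk (φ b) : L ⧸ J) =
        (φ y) ^ n • (Submodule.Quotient.mk (w * φ c) : L ⧸ J) := by
      rw [← Submodule.Quotient.mk_smul, Submodule.Quotient.eq, smul_eq_mul, h1, add_sub_cancel_left]
      exact Ideal.mul_mem_left _ _ (Ideal.mem_map_of_mem _ hi)
    rw [h3]
    exact Submodule.smul_mem_smul (Ideal.pow_mem_pow (Ideal.mem_span_singleton_self _) n) trivial
  rw [hK, Submodule.mem_bot, Submodule.Quotient.mk_eq_zero] at hb
  obtain ⟨⟨⟨i, hi⟩, ⟨s, hs⟩⟩, he⟩ := (IsLocalization.mem_map_algebraMap_iff p.primeCompl L).1 hb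
  simp only at he
  change φ b * φ s = φ i at he
  rw [← map_mul] at he
  obtain ⟨⟨u, hu⟩, he'⟩ := (IsLocalization.eq_iff_exists p.primeCompl L).1 he
  simp only at he'
  refine ⟨u * s, by rw [map_mul]; exact ((hunit u).1 hu).mul ((hunit s).1 hs), ?_⟩
  rw [show u * s * b = u * (b * s) by ring, he']
  exact Ideal.mul_mem_left _ _ hi

end

theorem rg0 : S_RG0.{u} := by
  intro B W _ _ _ _ _ hA f x y hx hy hx0 hP b hb
  obtain ⟨m, b₀, s, hs, h1, h2⟩ := rg0_x hA f x hx hx0 b hb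
  have hex : ∃ n : ℕ, b₀ ∉ sat f (Ideal.span {y ^ n} ⊔ (Ideal.span {x} ⊔ RingHom.ker f)) := by
    by_contra hc
    push Not at hc
    exact h2 (rg0_krull f y hy _ b₀ hc)
  classical
  have hn1 := Nat.find_spec hex
  have hn2 := fun k (hk : k < Nat.find hex) => Nat.find_min hex hk
  set n₁ := Nat.find hex with hn
  have hpos : n₁ ≠ 0 := by
    intro h0
    rw [h0, pow_zero] at hn1
    apply hn1
    refine le_sat _ _ ?_
    rw [Ideal.span_singleton_one]
    simp
  obtain ⟨n, hn'⟩ : ∃ n, n₁ = n + 1 := ⟨n₁ - 1, by omega⟩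
  have h3 := hn2 n (by omega)
  rw [not_not] at h3
  obtain ⟨t, ht, htb⟩ := h3
  obtain ⟨u, hu, z, hz, he⟩ := Submodule.mem_sup.1 htb
  obtain ⟨c, rfl⟩ := Ideal.mem_span_singleton'.1 hu
  obtain ⟨u', hu', k, hk, rfl⟩ := Submodule.mem_sup.1 hz
  obtain ⟨a, rfl⟩ := Ideal.mem_span_singleton'.1 hu'
  refine ⟨m, n, b₀, s, hs, h1, t, c, a, ht, ?_, ?_⟩
  · by_contra hc
    have hc' : f c ∈ maximalIdeal W := by rwa [mem_maximalIdeal, mem_nonunits_iff]
    obtain ⟨r, hr, hrc⟩ := hP c hc'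
    obtain ⟨v, hv, k', hk', he'⟩ := Submodule.mem_sup.1 hrc
    have hv' : v ∈ Ideal.span {x, y} := by
      refine Ideal.span_mono ?_ hv
      rintro _ ⟨i, rfl⟩
      fin_cases i
      · exact Or.inl rfl
      · exact Or.inr rfl
    obtain ⟨v1, v2, hv12⟩ := Ideal.mem_span_pair.1 hv'
    apply hn1
    rw [hn']
    refine ⟨r * t, by rw [map_mul]; exact hr.mul ht, ?_⟩
    have e1 : r * t * b₀ = v2 * y ^ (n + 1) + ((v1 * y ^ n + r * a) * x + (k' * y ^ n + r * k)) := by
      have e2 : r * c = v1 * x + v2 * y + k' := by rw [← he', ← hv12]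
      calc r * t * b₀ = r * (t * b₀) := by ring
        _ = r * (c * y ^ n + (a * x + k)) := by rw [he]
        _ = (r * c) * y ^ n + r * (a * x + k) := by ring
        _ = _ := by rw [e2]; ring
    rw [e1]
    refine Submodule.mem_sup.2 ⟨_, Ideal.mem_span_singleton'.2 ⟨v2, rfl⟩, _, ?_, rfl⟩
    refine Submodule.mem_sup.2 ⟨_, Ideal.mem_span_singleton'.2 ⟨_, rfl⟩, _, ?_, rfl⟩
    exact Ideal.add_mem _ (Ideal.mul_mem_right _ _ hk') (Ideal.mul_mem_left _ _ hk)
  · rw [← he]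
    rw [map_add, map_add, map_add, RingHom.mem_ker.1 hk, add_zero]

end Pool.Agent.Helper10.MV
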