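import Pool.Agent.Helper10.MV.Stm
import Pool.Agent.Helper10.MU.Rsq

/-!
# Project MV, module RSD
-/

set_option autoImplicit false
set_option linter.unusedSectionVars false

open scoped TensorProduct
open IsLocalRing

universe u

namespace Pool.Agent.Helper10.MV

open Pool.Agent.Helper10.MU

/-- The local ring of the image of `f` at the centre of `W`. -/
theorem rsd_loc (B W : Type u) [CommRing B] [IsNoetherianRing B] [CommRing W] [IsDomain W]
    [ValuationRing W] (f : B →+* W) :
    ∃ (D : Type u) (_ : CommRing D) (_ : IsDomain D) (_ : IsLocalRing D) (_ : IsNoetherianRing D)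
      (φ : B →+* D) (g : D →+* W), Function.Injective g ∧ (∀ b, g (φ b) = f b) ∧
      (∀ d, d ∈ maximalIdeal D ↔ g d ∈ maximalIdeal W) ∧
      (∀ d, ∃ b s, IsUnit (f s) ∧ φ s * d = φ b) ∧ cht f ≤ (maximalIdeal D).height := by
  let f' : f.range →+* W := f.range.subtype
  have hf' : Function.Injective f' := Subtype.val_injective
  let P : Ideal f.range := (maximalIdeal W).comap f'
  have hP : P.IsPrime := Ideal.comap_isPrime _ _
  have hnoeth : IsNoetherianRing f.range :=
    isNoetherianRing_of_surjective B f.range f.rangeRestrict f.rangeRestrict_surjective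
  have hu : ∀ y : P.primeCompl, IsUnit (f' y) := by
    intro y
    by_contra h
    exact y.2 ((mem_maximalIdeal _).mpr h)
  let g : Localization.AtPrime P →+* W := IsLocalization.lift hu
  have hg : ∀ x, g (algebraMap _ (Localization.AtPrime P) x) = f' x := fun x =>
    IsLocalization.lift_eq hu x
  have hgi : Function.Injective g := by
    rw [injective_iff_map_eq_zero]
    intro d hd
    obtain ⟨⟨b, s⟩, hbs⟩ := IsLocalization.surj P.primeCompl d
    have h1 : g (d * algebraMap _ _ (s : f.range)) = f' b := by
      rw [hbs, hg]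
    rw [map_mul, hd, zero_mul] at h1
    have h2 : b = 0 := hf' (by rw [map_zero]; exact h1.symm)
    have h3 : d * algebraMap _ _ (s : f.range) = 0 := by
      rw [hbs, h2, map_zero]
    exact ((IsLocalization.map_units (Localization.AtPrime P) s).mul_left_eq_zero).mp h3
  refine ⟨Localization.AtPrime P, inferInstance, hgi.isDomain g, inferInstance,
    IsLocalization.isNoetherianRing P.primeCompl _ inferInstance,
    (algebraMap _ _).comp f.rangeRestrict, g, hgi, ?_, ?_, ?_, ?_⟩
  · intro b
    rw [RingHom.comp_apply, hg]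
    rfl
  · intro d
    constructor
    · intro hd
      rw [mem_maximalIdeal, mem_nonunits_iff]
      intro hgd
      obtain ⟨⟨b, s⟩, hbs⟩ := IsLocalization.surj P.primeCompl d
      have h1 : g (d * algebraMap _ _ (s : f.range)) = f' b := by
        rw [hbs, hg]
      have h2 : IsUnit (f' b) := by
        rw [← h1, map_mul, hg]
        exact hgd.mul (hu s)
      have h3 : b ∈ P.primeCompl := by
        intro hb
        exact (mem_maximalIdeal _).mp hb h2
      have h4 : IsUnit (d * algebraMap _ _ (s : f.range)) := by
        rw [hbs]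
        exact IsLocalization.map_units (Localization.AtPrime P) (⟨b, h3⟩ : P.primeCompl)
      exact (mem_maximalIdeal _).mp hd (isUnit_of_mul_isUnit_left h4)
    · intro hd
      rw [mem_maximalIdeal, mem_nonunits_iff] at hd ⊢
      exact fun h => hd (h.map g)
  · intro d
    obtain ⟨⟨⟨b, ⟨b', hb'⟩⟩, ⟨⟨s, ⟨s', hs'⟩⟩, hs⟩⟩, hbs⟩ := IsLocalization.surj P.primeCompl d
    subst hb' hs'
    refine ⟨b', s', hu ⟨_, hs⟩, ?_⟩
    rw [RingHom.comp_apply, RingHom.comp_apply, mul_comm]
    exact hbs
  · have h1 := IsLocalization.AtPrime.ringKrullDim_eq_height P (Localization.AtPrime P)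
    rw [← IsLocalRing.maximalIdeal_height_eq_ringKrullDim] at h1
    have h2 : (maximalIdeal (Localization.AtPrime P)).height = P.height := by exact_mod_cast h1
    rw [h2]
    exact le_rfl

/-- The elements `x i`, `x j` of a system of parameters are a regular sequence. -/
theorem rsd_core (B W : Type u) [CommRing B] [IsNoetherianRing B] [CommRing W] [IsDomain W]
    [ValuationRing W] (f : B →+* W) (e : ℕ) (x : Fin e → B) (hx : ∀ i, f (x i) ∈ maximalIdeal W)
    (hpar : Par f x) (hd : (e : ℕ∞) ≤ cht f) (i j : Fin e) (hij : i ≠ j) (b c : B)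
    (hbc : f b * f (x j) = f c * f (x i)) : b ∈ sat f (Ideal.span {x i} ⊔ RingHom.ker f) := by
  classical
  obtain ⟨D, _, _, _, _, φ, g, hg, hφ, hm, hsur, hht⟩ := rsd_loc B W f
  have hdim' : (e : ℕ∞) ≤ (maximalIdeal D).height := hd.trans hht
  have hxm : ∀ k, φ (x k) ∈ maximalIdeal D := by
    intro k
    rw [hm, hφ]
    exact hx k
  have hunit : ∀ s, IsUnit (f s) → IsUnit (φ s) := by
    intro s hs
    by_contra h
    have h2 := (hm (φ s)).mp ((mem_maximalIdeal _).mpr h)
    rw [hφ] at h2
    exact (mem_maximalIdeal _).mp h2 hs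
  have hker : ∀ k, f k = 0 → φ k = 0 := by
    intro k hk
    apply hg
    rw [hφ, hk, map_zero]
  have hgen : maximalIdeal D = Ideal.span (Set.range fun k => φ (x k)) := by
    apply le_antisymm
    · intro d hd
      obtain ⟨b, s, hs, hb⟩ := hsur d
      have h2 : f b ∈ maximalIdeal W := by
        rw [← hφ, ← hb, map_mul]
        exact Ideal.mul_mem_left _ _ ((hm d).mp hd)
      obtain ⟨t, ht, htb⟩ := hpar b h2
      have h3 : φ (t * b) ∈ Ideal.span (Set.range fun k => φ (x k)) := by
        have h4 : Ideal.span (Set.range x) ⊔ RingHom.ker f ≤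
            (Ideal.span (Set.range fun k => φ (x k))).comap φ := by
          refine sup_le ?_ ?_
          · rw [Ideal.span_le]
            rintro _ ⟨k, rfl⟩
            exact Ideal.subset_span ⟨k, rfl⟩
          · intro k hk
            rw [Ideal.mem_comap, hker k hk]
            exact Ideal.zero_mem _
        exact h4 htb
      rw [map_mul, ← hb, ← mul_assoc] at h3
      exact ((Ideal.unit_mul_mem_iff_mem _ ((hunit t ht).mul (hunit s hs)))).mp h3
    · rw [Ideal.span_le]
      rintro _ ⟨k, rfl⟩
      exact hxm k
  -- the prime ideal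
  have hprime : (Ideal.span {φ (x i)}).IsPrime := by
    obtain ⟨n, rfl⟩ : ∃ n, e = n + 1 := ⟨e - 1, by have := i.2; omega⟩
    have hxne : Ideal.span {φ (x i)} ≠ ⊤ := by
      intro h
      rw [Ideal.span_singleton_eq_top] at h
      exact (mem_maximalIdeal _).mp (hxm i) h
    have hnt : Nontrivial (D ⧸ Ideal.span {φ (x i)}) := Ideal.Quotient.nontrivial_iff.mpr hxne
    have hloc : IsLocalRing (D ⧸ Ideal.span {φ (x i)}) :=
      IsLocalRing.of_surjective' (Ideal.Quotient.mk (Ideal.span {φ (x i)}))
        Ideal.Quotient.mk_surjective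
    have hgen' : maximalIdeal D =
        Ideal.span (insert (φ (x i)) (Set.range fun l => φ (x (i.succAbove l)))) := by
      rw [hgen]
      congr 1
      ext d
      constructor
      · rintro ⟨k, rfl⟩
        by_cases hk : k = i
        · subst hk
          exact Set.mem_insert _ _
        · obtain ⟨l, rfl⟩ := Fin.exists_succAbove_eq hk
          exact Set.mem_insert_of_mem _ ⟨l, rfl⟩
      · rintro (rfl | ⟨l, rfl⟩)
        · exact ⟨i, rfl⟩
        · exact ⟨i.succAbove l, rfl⟩
    have hq := rsq_quot_max hgen'
    rw [← Set.range_comp] at hq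
    have hd1 : (n : ℕ∞) ≤ (maximalIdeal (D ⧸ Ideal.span {φ (x i)})).height := by
      have h1 := Ideal.height_le_height_add_encard_of_subset ({φ (x i)} : Set D)
        (p := maximalIdeal D) (Set.singleton_subset_iff.mpr (hxm i))
      rw [Set.encard_singleton, rsq_map_max] at h1
      have h2 := hdim'.trans h1
      have h3 : ((n + 1 : ℕ) : ℕ∞) = (n : ℕ∞) + 1 := by push_cast; rfl
      rw [h3] at h2
      exact (ENat.add_le_add_iff_right (by simp)).mp h2
    have hdom := rsq_domain_of_regular n (D ⧸ Ideal.span {φ (x i)}) _ hq hd1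
    exact (Ideal.Quotient.isDomain_iff_prime _).mp hdom
  have hj : φ (x j) ∉ Ideal.span {φ (x i)} := by
    intro h
    let s : Finset D := (Finset.univ.erase j).image (fun k => φ (x k))
    have hs : maximalIdeal D = Ideal.span (s : Set D) := by
      apply le_antisymm
      · rw [hgen, Ideal.span_le]
        rintro _ ⟨k, rfl⟩
        by_cases hk : k = j
        · subst hk
          have h2 : Ideal.span {φ (x i)} ≤ Ideal.span (s : Set D) := by
            rw [Ideal.span_le, Set.singleton_subset_iff]
            refine Ideal.subset_span ?_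
            exact Finset.mem_coe.mpr (Finset.mem_image.mpr ⟨i, by simp [hij], rfl⟩)
          exact h2 h
        · refine Ideal.subset_span ?_
          exact Finset.mem_coe.mpr (Finset.mem_image.mpr ⟨k, by simp [hk], rfl⟩)
      · rw [Ideal.span_le]
        intro d hd
        obtain ⟨k, -, rfl⟩ := Finset.mem_image.mp (Finset.mem_coe.mp hd)
        exact hxm k
    have h3 : maximalIdeal D ∈ (Ideal.span (s : Set D)).minimalPrimes := by
      rw [← hs, Ideal.minimalPrimes_eq_subsingleton_self]
      exact Set.mem_singleton _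
    have h4 := Ideal.height_le_card_of_mem_minimalPrimes_span_finset h3
    have h5 : s.card ≤ e - 1 := by
      refine Finset.card_image_le.trans ?_
      rw [Finset.card_erase_of_mem (Finset.mem_univ _), Finset.card_univ, Fintype.card_fin]
    have h6 := hdim'.trans h4
    have h7 : e ≤ s.card := by exact_mod_cast h6
    have := i.2
    omega
  have hprod : φ b * φ (x j) ∈ Ideal.span {φ (x i)} := by
    have h2 : φ b * φ (x j) = φ c * φ (x i) := by
      apply hg
      rw [map_mul, map_mul, hφ, hφ, hφ, hφ]
      exact hbc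
    rw [h2]
    exact Ideal.mul_mem_left _ _ (Ideal.mem_span_singleton_self _)
  have hb := (hprime.mem_or_mem hprod).resolve_right hj
  obtain ⟨d, hd⟩ := Ideal.mem_span_singleton.mp hb
  obtain ⟨c', s, hs, hc'⟩ := hsur d
  refine ⟨s, hs, ?_⟩
  have h2 : f (s * b - x i * c') = 0 := by
    rw [← hφ, map_sub, map_mul, hd, map_mul, ← hc']
    have : φ s * (φ (x i) * d) - φ (x i) * (φ s * d) = 0 := by ring
    rw [this, map_zero]
  have h3 : s * b = x i * c' + (s * b - x i * c') := by ring
  rw [h3]
  exact Ideal.add_mem _ (Ideal.mem_sup_left (Ideal.mul_mem_right _ _ (Ideal.mem_span_singleton_self _)))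
    (Ideal.mem_sup_right h2)

theorem rsd : S_RSD.{u} := by
  intro B W _ _ _ _ _ f x y hx hy hpar hd b c hbc
  refine rsd_core B W f 2 ![x, y] ?_ hpar (by exact_mod_cast hd) 0 1 (by decide) b c ?_
  · intro i
    fin_cases i
    · exact hx
    · exact hy
  · simpa using hbc

end Pool.Agent.Helper10.MV
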