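import Pool.Agent.Helper10.MV.Stm

/-!
# STG: one step of the monomialization
-/

set_option autoImplicit false
set_option linter.unusedSectionVars false

open scoped TensorProduct
open IsLocalRing

universe u

namespace Pool.Agent.Helper10.MV

open Pool.Agent.Helper7.LU (psi inc)
open Pool.Agent.Helper10.MU

section

variable {B B' W : Type u} [CommRing B] [CommRing B'] [CommRing W] [IsDomain W] [ValuationRing W]

/-- multiples of `x`, up to units -/
def StgSm (f : B →+* W) (f' : B' →+* W) (x z : W) : Prop :=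
  ∃ (u : B) (c : B'), IsUnit (f u) ∧ f u * z = f' c * x

theorem StgSm.add {f : B →+* W} {f' : B' →+* W} {φ : B →+* B'} (hφ : ∀ b, f' (φ b) = f b) {x z z' : W}
    (h : StgSm f f' x z) (h' : StgSm f f' x z') : StgSm f f' x (z + z') := by
  obtain ⟨u, c, hu, hc⟩ := h
  obtain ⟨u', c', hu', hc'⟩ := h'
  refine ⟨u * u', φ u' * c + φ u * c', by rw [map_mul]; exact hu.mul hu', ?_⟩
  rw [map_mul, map_add, map_mul, map_mul, hφ, hφ]
  linear_combination (f u') * hc + (f u) * hc'

theorem StgSm.zero {f : B →+* W} {f' : B' →+* W} {x : W} : StgSm f f' x 0 :=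
  ⟨1, 0, by simp, by simp⟩

theorem StgSm.mul {f : B →+* W} {f' : B' →+* W} {x z : W} (h : StgSm f f' x z) (d : B') :
    StgSm f f' x (z * f' d) := by
  obtain ⟨u, c, hu, hc⟩ := h
  refine ⟨u, c * d, hu, ?_⟩
  rw [map_mul]
  linear_combination (f' d) * hc

theorem stg_reg {f : B →+* W} {x x2 y y2 b b2 : B} (hx : f x = f x2) (hy : f y = f y2)
    (hb : f b = f b2) {n : ℕ} (h : Reg f x y n b) : Reg f x2 y2 n b2 := by
  obtain ⟨s, v, c, hs, hv, he⟩ := h
  refine ⟨s, v, c, hs, hv, ?_⟩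
  simp only [map_mul, map_add, map_pow] at he ⊢
  rw [← hx, ← hy, ← hb]
  exact he

theorem stg_core (hDVG : S_DVG.{u}) (f : B →+* W) (f' : B' →+* W) (φ : B →+* B')
    (hφ : ∀ b, f' (φ b) = f b) (T' X' : B')
    (hx : ∀ b, f b ∈ maximalIdeal W → StgSm f f' (f' X') (f b))
    (g : Polynomial B) (hg : MinPol f (f' T') g) (P : Polynomial B) (r : ℕ) (hP : P.natDegree ≤ r)
    (hPu : ∃ i, IsUnit (f (P.coeff i))) :
    ∃ k, k ≤ r ∧ Reg f' X' (g.eval₂ φ T') k (P.eval₂ φ T') ∧
      (IsUnit (f' (P.eval₂ φ T')) → k = 0) := by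
  obtain ⟨k, s, h, ρ, hkr, hs, he, hρ, hh⟩ := hDVG B W f (f' T') g hg P r hP hPu
  have hcomp : f'.comp φ = f := RingHom.ext hφ
  have ev : ∀ p : Polynomial B, f' (p.eval₂ φ T') = p.eval₂ f (f' T') := by
    intro p
    rw [Polynomial.hom_eval₂, hcomp]
  have small : StgSm f f' (f' X') (ρ.eval₂ f (f' T')) := by
    rw [Polynomial.eval₂_eq_sum_range]
    refine Finset.sum_induction _ (StgSm f f' (f' X')) (fun a b => StgSm.add hφ) StgSm.zero ?_
    intro i _
    rw [← map_pow]
    exact (hx _ (hρ i)).mul _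
  have hmax : ρ.eval₂ f (f' T') ∈ maximalIdeal W := by
    rw [Polynomial.eval₂_eq_sum_range]
    exact Ideal.sum_mem _ fun i _ => Ideal.mul_mem_right _ _ (hρ i)
  have hev : f s * P.eval₂ f (f' T') = (g.eval₂ f (f' T')) ^ k * h.eval₂ f (f' T') +
      ρ.eval₂ f (f' T') := by
    have := congrArg (Polynomial.eval₂ f (f' T')) he
    rwa [Polynomial.eval₂_mul, Polynomial.eval₂_C, Polynomial.eval₂_add, Polynomial.eval₂_mul,
      Polynomial.eval₂_pow] at this
  obtain ⟨u, c, hu, hc⟩ := small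
  refine ⟨k, hkr, ⟨φ (u * s), φ u * h.eval₂ φ T', c, ?_, ?_, ?_⟩, ?_⟩
  · rw [hφ, map_mul]
    exact hu.mul hs
  · rw [map_mul, hφ, ev]
    exact hu.mul hh
  · simp only [map_mul, map_add, map_pow, hφ, ev]
    linear_combination (f u) * hev + hc
  · intro hun
    by_contra hk
    rw [ev] at hun
    have h1 : IsUnit (f s * P.eval₂ f (f' T')) := hs.mul hun
    rw [hev] at h1
    have h2 : (g.eval₂ f (f' T')) ^ k * h.eval₂ f (f' T') + ρ.eval₂ f (f' T') ∈ maximalIdeal W := by
      refine Ideal.add_mem _ (Ideal.mul_mem_right _ _ ?_) hmax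
      exact Ideal.pow_mem_of_mem _ hg.2.2.1 k (Nat.pos_of_ne_zero hk)
    exact (mem_maximalIdeal _).1 h2 h1

/-- the polynomial with given coefficients -/
noncomputable def stgP (r : ℕ) (a : ℕ → B) : Polynomial B :=
  ∑ j ∈ Finset.range (r + 1), Polynomial.C (a j) * Polynomial.X ^ j

theorem stgP_deg (r : ℕ) (a : ℕ → B) : (stgP r a).natDegree ≤ r := by
  unfold stgP
  refine Polynomial.natDegree_sum_le_of_forall_le _ _ fun j hj => ?_
  exact (Polynomial.natDegree_C_mul_X_pow_le _ _).trans (Nat.lt_succ_iff.1 (Finset.mem_range.1 hj))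

theorem stgP_coeff (r : ℕ) (a : ℕ → B) {i : ℕ} (hi : i ≤ r) : (stgP r a).coeff i = a i := by
  unfold stgP
  rw [Polynomial.finsetSum_coeff]
  simp only [Polynomial.coeff_C_mul_X_pow]
  rw [Finset.sum_ite_eq, if_pos (Finset.mem_range.2 (Nat.lt_succ_iff.2 hi))]

theorem stgP_eval (r : ℕ) (a : ℕ → B) (φ : B →+* B') (T : B') :
    (stgP r a).eval₂ φ T = ∑ j ∈ Finset.range (r + 1), φ (a j) * T ^ j := by
  unfold stgP
  rw [Polynomial.eval₂_finsetSum]
  refine Finset.sum_congr rfl fun j _ => ?_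
  rw [Polynomial.eval₂_mul, Polynomial.eval₂_C, Polynomial.eval₂_X_pow]

end

section

variable {R V S W : Type u} [CommRing R] [IsLocalRing R] [IsNoetherianRing R] [CommRing V] [IsDomain V]
  [ValuationRing V] [CommRing S] [IsNoetherianRing S] [CommRing W] [IsDomain W] [ValuationRing W] [Algebra R V]
  [Algebra R S] [Algebra V W] [Algebra R W] [Algebra S W] [IsScalarTower R S W] [IsScalarTower R V W]

theorem stg_sm {A A' : Subalgebra R V} (hle : A ≤ A') {x : Fin 2 → V} (hL : Lev S W A x)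
    (X' : S ⊗[R] A') (t0 t1 : S ⊗[R] A')
    (h0 : algebraMap V W (x 0) = ps S W A' t0 * ps S W A' X')
    (h1 : algebraMap V W (x 1) = ps S W A' t1 * ps S W A' X') (b : S ⊗[R] A)
    (hb : ps S W A b ∈ maximalIdeal W) :
    StgSm (ps S W A) (ps S W A') (ps S W A' X') (ps S W A b) := by
  obtain ⟨s, hs, hsb⟩ := hL.par b hb
  obtain ⟨y, hy, κ, hκ, he⟩ := Submodule.mem_sup.1 hsb
  obtain ⟨c, hc⟩ := Ideal.mem_span_range_iff_exists_fun.1 hy
  rw [Fin.sum_univ_two] at hc
  refine ⟨s, tr S hle (c 0) * t0 + tr S hle (c 1) * t1, hs, ?_⟩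
  have h2 := congrArg (ps S W A) he
  rw [map_add, (RingHom.mem_ker).1 hκ, add_zero, ← hc, map_add, map_mul, map_mul, map_mul, ps_inc,
    ps_inc] at h2
  rw [← h2, map_add, map_mul, map_mul, ps_tr, ps_tr, h0, h1]
  ring

theorem stg_eval_g {A A' : Subalgebra R V} (hle : A ≤ A') {T : V} (hT : T ∈ A')
    (g : Polynomial A) (hg : Polynomial.aeval T g ∈ A') :
    ps S W A' ((g.map (inc S A : A →+* S ⊗[R] A)).eval₂ (tr S hle : S ⊗[R] A →+* S ⊗[R] A')
      (inc S A' ⟨T, hT⟩)) = ps S W A' (inc S A' ⟨Polynomial.aeval T g, hg⟩) := by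
  rw [ps_inc, Polynomial.hom_eval₂, Polynomial.eval₂_map, ps_inc]
  have h1 : ((ps S W A').comp (tr S hle : S ⊗[R] A →+* S ⊗[R] A')).comp
      (inc S A : A →+* S ⊗[R] A) = (algebraMap V W).comp (algebraMap A V) := by
    ext a
    show ps S W A' (tr S hle (inc S A a)) = algebraMap V W (a : V)
    rw [ps_tr, ps_inc]
  rw [h1]
  show Polynomial.eval₂ ((algebraMap V W).comp (algebraMap A V)) (algebraMap V W T) g =
    algebraMap V W (Polynomial.aeval T g)
  rw [Polynomial.aeval_def, Polynomial.hom_eval₂]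

end

theorem stg (hREP : S_REP.{u}) (hDVG : S_DVG.{u}) (hBLO : S_BLO.{u}) (hSWP : S_SWP.{u})
    (hTR2 : S_TR2.{u}) : S_STG.{u} := by
  intro R V S W _ _ _ _ _ _ _ _ _ _ _ _ _ _ _ _ _ _ hd A x G n hn b hb
  have hnoeth : IsNoetherianRing (S ⊗[R] A) := by
    have : Algebra.FiniteType R A := A.fg_iff_finiteType.mp G.lev.fg
    exact Algebra.FiniteType.isNoetherianRing S (S ⊗[R] A)
  set X0 : S ⊗[R] A := inc S A ⟨x 0, G.lev.mem 0⟩ with hX0
  set X1 : S ⊗[R] A := inc S A ⟨x 1, G.lev.mem 1⟩ with hX1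
  have e0 : ps S W A X0 = algebraMap V W (x 0) := ps_inc A _
  have e1 : ps S W A X1 = algebraMap V W (x 1) := ps_inc A _
  have m0 : ps S W A X0 ∈ maximalIdeal W := by rw [e0, mem_max_W hd]; exact G.xm 0
  have m1 : ps S W A X1 ∈ maximalIdeal W := by rw [e1, mem_max_W hd]; exact G.xm 1
  have hpar : Par (ps S W A) ![X0, X1] := by
    have h1 : (fun i => inc S A ⟨x i, G.lev.mem i⟩) = ![X0, X1] := by
      funext i
      fin_cases i <;> rfl
    rw [← h1]
    exact G.lev.par
  have hdim : 2 ≤ cht (ps S W A) := by exact_mod_cast G.dim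
  obtain ⟨r, a, s, hrn, hs, he, ⟨j0, hj0, hju⟩, hrun⟩ :=
    hREP _ W (ps S W A) X0 X1 m0 m1 hpar hdim b n hb
  have hbm : ps S W A b ∈ maximalIdeal W := by
    obtain ⟨s', v, c, hs', hv, he'⟩ := hb
    rw [map_mul] at he'
    have h1 : ps S W A s' * ps S W A b ∈ maximalIdeal W := by
      rw [he', map_add, map_mul, map_mul, map_pow]
      exact Ideal.add_mem _ (Ideal.mul_mem_left _ _ (Ideal.pow_mem_of_mem _ m1 n hn))
        (Ideal.mul_mem_left _ _ m0)
    rcases (Ideal.IsPrime.mem_or_mem inferInstance h1) with h2 | h2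
    · exact absurd hs' ((mem_maximalIdeal _).1 h2)
    · exact h2
  have hr1 : 1 ≤ r := by
    by_contra hc
    have hr0 : r = 0 := by omega
    subst hr0
    have hj : j0 = 0 := by omega
    subst hj
    rw [map_mul] at he
    simp only [zero_add, Finset.range_one, Finset.sum_singleton, Nat.sub_self, pow_zero,
      mul_one] at he
    have h1 : ps S W A s * ps S W A b ∈ maximalIdeal W := Ideal.mul_mem_left _ _ hbm
    rw [he] at h1
    exact (mem_maximalIdeal _).1 h1 hju
  rw [map_mul, map_sum] at he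
  by_cases hd0 : x 0 ∣ x 1
  · -- Case I
    obtain ⟨T, hT⟩ := hd0
    obtain ⟨A', hTA, ⟨g, hg, -, E⟩ | E⟩ := hBLO R V S W hd A x G T hT
    · refine ⟨A', Or.inr ⟨_, E, ?_⟩⟩
      have hmem0 : x 0 ∈ A' := E.le (G.lev.mem 0)
      have hgm : Polynomial.aeval T g ∈ A' := E.good.lev.mem 1
      set X' : S ⊗[R] A' := inc S A' ⟨x 0, hmem0⟩ with hX'
      set T' : S ⊗[R] A' := inc S A' ⟨T, hTA⟩ with hT'
      have eX' : ps S W A' X' = algebraMap V W (x 0) := ps_inc A' _
      have eT' : ps S W A' T' = algebraMap V W T := ps_inc A' _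
      obtain ⟨k, hkr, hReg, -⟩ := stg_core hDVG (ps S W A) (ps S W A')
        (tr S E.le : S ⊗[R] A →+* S ⊗[R] A') (fun b => ps_tr E.le b) T' X'
        (stg_sm E.le G.lev X' 1 T' (by rw [map_one, one_mul, eX'])
          (by rw [eX', eT', hT, map_mul, mul_comm]))
        (g.map (inc S A : A →+* S ⊗[R] A)) (by rw [eT']; exact hg) (stgP r a) r (stgP_deg r a)
        ⟨j0, by rw [stgP_coeff r a hj0]; exact hju⟩
      refine ⟨r, k, tr S E.le s, (stgP r a).eval₂ (tr S E.le : S ⊗[R] A →+* S ⊗[R] A') T', ?_, ?_,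
        ?_, Or.inr ⟨hkr.trans hrn, hr1, rfl⟩⟩
      · rw [ps_tr]; exact hs
      · rw [ps_tr, he, stgP_eval, map_sum, Finset.sum_mul]
        refine Finset.sum_congr rfl fun j hj => ?_
        have hj' : j ≤ r := Nat.lt_succ_iff.1 (Finset.mem_range.1 hj)
        have h1 : ps S W A' ((tr S E.le : S ⊗[R] A →+* S ⊗[R] A') (a j)) = ps S W A (a j) :=
          ps_tr E.le (a j)
        rw [map_mul, map_mul, map_pow, map_pow, e0, e1, map_mul, map_pow, h1, eT', hT, map_mul]
        show _ = _ * algebraMap V W (x 0) ^ r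
        have h2 : algebraMap V W (x 0) ^ r =
            algebraMap V W (x 0) ^ (r - j) * algebraMap V W (x 0) ^ j := by
          rw [← pow_add]
          congr 1
          omega
        rw [h2]
        ring
      · exact stg_reg (by rfl) (stg_eval_g E.le hTA g hgm) rfl hReg
    · exact ⟨A', Or.inl ⟨_, E⟩⟩
  · -- Case II
    obtain ⟨T, hT⟩ := (ValuationRing.dvd_total (x 0) (x 1)).resolve_left hd0
    have hTm : T ∈ maximalIdeal V := by
      rw [mem_maximalIdeal, mem_nonunits_iff]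
      intro hu
      apply hd0
      obtain ⟨w, hw⟩ := hu.exists_right_inv
      exact ⟨w, by rw [hT, mul_assoc, hw, mul_one]⟩
    have E1 := hSWP R V S W hd A x G
    obtain ⟨A', hTA, ⟨g, hg, hgX, E⟩ | E⟩ := hBLO R V S W hd A ![x 1, x 0] E1.good T hT
    · have E2 := (hTR2 R V S W hd 2 2 2 A A A' x ![x 1, x 0] _).2.1 E1 E
      refine ⟨A', Or.inr ⟨_, E2, ?_⟩⟩
      have hmem0 : x 1 ∈ A' := E.good.lev.mem 0
      have hgm : Polynomial.aeval T g ∈ A' := E.good.lev.mem 1
      set X' : S ⊗[R] A' := inc S A' ⟨x 1, hmem0⟩ with hX'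
      set T' : S ⊗[R] A' := inc S A' ⟨T, hTA⟩ with hT'
      have eX' : ps S W A' X' = algebraMap V W (x 1) := ps_inc A' _
      have eT' : ps S W A' T' = algebraMap V W T := ps_inc A' _
      obtain ⟨k, hkr, hReg, hk0⟩ := stg_core hDVG (ps S W A) (ps S W A')
        (tr S E.le : S ⊗[R] A →+* S ⊗[R] A') (fun b => ps_tr E.le b) T' X'
        (stg_sm E.le G.lev X' T' 1 (by rw [eX', eT', hT, map_mul, mul_comm])
          (by rw [map_one, one_mul, eX']))
        (g.map (inc S A : A →+* S ⊗[R] A)) (by rw [eT']; exact hg) (stgP r fun j => a (r - j)) r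
        (stgP_deg r _)
        ⟨r - j0, by
          rw [stgP_coeff r _ (Nat.sub_le r j0)]
          have : r - (r - j0) = j0 := by omega
          rw [this]
          exact hju⟩
      have hval : ps S W A' ((stgP r fun j => a (r - j)).eval₂
          (tr S E.le : S ⊗[R] A →+* S ⊗[R] A') T') =
          ∑ j ∈ Finset.range (r + 1), ps S W A (a (r - j)) * algebraMap V W T ^ j := by
        rw [stgP_eval, map_sum]
        refine Finset.sum_congr rfl fun j _ => ?_
        have h1 : ps S W A' ((tr S E.le : S ⊗[R] A →+* S ⊗[R] A') (a (r - j))) =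
          ps S W A (a (r - j)) := ps_tr E.le _
        rw [map_mul, map_pow, h1, eT']
      have hkn : k < n := by
        by_contra hc
        have hrn' : r = n := by omega
        have hk' : k = 0 := by
          apply hk0
          rw [hval, Finset.sum_range_succ', Nat.sub_zero, pow_zero, mul_one]
          by_contra hnu
          have h1 : ∑ j ∈ Finset.range r, ps S W A (a (r - (j + 1))) * algebraMap V W T ^ (j + 1) ∈
              maximalIdeal W := by
            refine Ideal.sum_mem _ fun j _ => Ideal.mul_mem_left _ _ ?_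
            exact Ideal.pow_mem_of_mem _ ((mem_max_W hd T).2 hTm) (j + 1) (Nat.succ_pos j)
          have h2 := Ideal.sub_mem _ ((mem_maximalIdeal _).2 hnu) h1
          rw [add_sub_cancel_left] at h2
          exact (mem_maximalIdeal _).1 h2 (hrun hrn')
        omega
      refine ⟨r, k, tr S E.le s, (stgP r fun j => a (r - j)).eval₂
        (tr S E.le : S ⊗[R] A →+* S ⊗[R] A') T', ?_, ?_, ?_, Or.inl hkn⟩
      · rw [ps_tr]; exact hs
      · rw [ps_tr, he, hval, Finset.sum_mul,
          ← Finset.sum_range_reflect (fun j => ps S W A (a j * X0 ^ (r - j) * X1 ^ j)) (r + 1)]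
        refine Finset.sum_congr rfl fun j hj => ?_
        have hj' : j ≤ r := Nat.lt_succ_iff.1 (Finset.mem_range.1 hj)
        have h3 : r + 1 - 1 - j = r - j := by omega
        have h4 : r - (r - j) = j := by omega
        rw [h3, h4, map_mul, map_mul, map_pow, map_pow, e0, e1, hT, map_mul]
        show _ = _ * algebraMap V W (x 1) ^ r
        have h2 : algebraMap V W (x 1) ^ r =
            algebraMap V W (x 1) ^ j * algebraMap V W (x 1) ^ (r - j) := by
          rw [← pow_add]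
          congr 1
          omega
        rw [h2]
        ring
      · exact stg_reg (by rfl) (stg_eval_g E.le hTA g hgm) rfl hReg
    · have E2 := (hTR2 R V S W hd 2 2 1 A A A' x ![x 1, x 0] _).2.1 E1 E
      exact ⟨A', Or.inl ⟨_, E2⟩⟩

end Pool.Agent.Helper10.MV
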