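import Pool.Agent.Helper10.MV.Base

/-!
# Uniformization of valuations with a regular formal surface germ: the statements of the modules
-/

set_option autoImplicit false
set_option linter.unusedSectionVars false

open scoped TensorProduct
open IsLocalRing

universe u

namespace Pool.Agent.Helper10.MV

open Pool.Agent.Helper7.LU (psi inc)
open Pool.Agent.Helper10.MU

/-! ## Abstract modules -/

/-- RSD. `x, y` is a regular sequence, from the dimension. As `MU.rsq`, but the dimension of the localization `D` of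
`B / ker f` (or of `f.range`) at the centre of `W` is given: it is `cht f`. -/
def S_RSD : Prop := ∀ (B W : Type u) [CommRing B] [IsNoetherianRing B] [CommRing W] [IsDomain W]
  [ValuationRing W] (f : B →+* W) (x y : B) (_ : f x ∈ maximalIdeal W) (_ : f y ∈ maximalIdeal W)
  (_ : Par f ![x, y]) (_ : 2 ≤ cht f) (b c : B) (_ : f b * f y = f c * f x),
    b ∈ sat f (Ideal.span {x} ⊔ RingHom.ker f)

/-- DVG. Division by a minimal polynomial. Induction on the degree of `φ`: if `φ(t)` is a unit take `k = 0`. If not,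
pseudo-division by `g` (unit leading coefficient) gives `l ^ m φ = q g + ρ`, `deg ρ < deg g`, `deg q ≤ deg φ - deg g`, so `ρ` has coefficients
with image in the maximal ideal by minimality, and `q` has again a coefficient with unit image. -/
def S_DVG : Prop := ∀ (B W : Type u) [CommRing B] [CommRing W] [IsDomain W] [ValuationRing W] (f : B →+* W)
  (t : W) (g : Polynomial B) (_ : MinPol f t g) (φ : Polynomial B) (r : ℕ) (_ : φ.natDegree ≤ r)
  (_ : ∃ i, IsUnit (f (φ.coeff i))), ∃ (k : ℕ) (s : B) (h ρ : Polynomial B), k ≤ r ∧ IsUnit (f s) ∧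
    Polynomial.C s * φ = g ^ k * h + ρ ∧ (∀ i, f (ρ.coeff i) ∈ maximalIdeal W) ∧ IsUnit (h.eval₂ f t)

/-- MV2. Blowing up, the residue of `T` is algebraic. `Par`: if `p(T)` has image in the maximal ideal then by (pseudo-)division
`l ^ m p = q g + ρ` with `ρ` of small degree, hence the coefficients of `ρ` have images in the maximal ideal, so are in `(x, y)` up to units and
modulo the kernel, and `φ y = φ x T`. The kernel: as in `MU.mov` (Pool/Agent/Helper10/MU/Mov.lean), with RSD in place of RSQ. -/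
def S_MV2 : Prop := ∀ (B B' W : Type u) [CommRing B] [IsNoetherianRing B] [CommRing B'] [CommRing W]
  [IsDomain W] [ValuationRing W] (f : B →+* W) (f' : B' →+* W) (φ : B →+* B')
  (_ : ∀ b, f' (φ b) = f b) (x y : B) (_ : f x ∈ maximalIdeal W) (_ : f y ∈ maximalIdeal W)
  (_ : Par f ![x, y]) (_ : 2 ≤ cht f) (T : B') (_ : φ y = φ x * T)
  (_ : ∀ b : B', ∃ p : Polynomial B, b = p.eval₂ φ T) (g : Polynomial B) (_ : MinPol f (f' T) g),
    Par f' ![φ x, g.eval₂ φ T] ∧ RingHom.ker f' ≤ sat f' ((RingHom.ker f).map φ)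

/-- MV1. Blowing up, the residue of `T` is transcendental: `Par` is clear (all coefficients of `p` have images in the maximal
ideal), the kernel as in MV2; the dimension is at least one because `f x` is not zero. -/
def S_MV1 : Prop := ∀ (B B' W : Type u) [CommRing B] [IsNoetherianRing B] [CommRing B'] [CommRing W]
  [IsDomain W] [ValuationRing W] (f : B →+* W) (f' : B' →+* W) (φ : B →+* B')
  (_ : ∀ b, f' (φ b) = f b) (x y : B) (_ : f x ∈ maximalIdeal W) (_ : f y ∈ maximalIdeal W) (_ : f x ≠ 0)
  (_ : Par f ![x, y]) (_ : 2 ≤ cht f) (T : B') (_ : φ y = φ x * T)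
  (_ : ∀ b : B', ∃ p : Polynomial B, b = p.eval₂ φ T) (_ : Trans f (f' T)),
    Par f' ![φ x] ∧ RingHom.ker f' ≤ sat f' ((RingHom.ker f).map φ) ∧ 1 ≤ cht f'

/-- DMP. The dimension is preserved in MV2. Let `C = f.range`, `n` its centre, `C' = f'.range = C[t]`, `N` the preimage in
`C[X]` of the centre of `C'`. `N ∩ C = n` and `N ≠ n C[X]` (it contains the image of `g`), so `height N ≥ height n + 1 ≥ 3`.
The kernel of `C[X] → C'` is locally at `N` generated by `x X - y` (induction on the degree with RSD, as in MV2), so the height of the centre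
of `C'` is the height of `N / (x X - y)`, at least `height N - 1` by Krull
(`Ideal.height_le_height_add_one_of_mem`). -/
def S_DMP : Prop := ∀ (B B' W : Type u) [CommRing B] [IsNoetherianRing B] [CommRing B'] [CommRing W]
  [IsDomain W] [ValuationRing W] (f : B →+* W) (f' : B' →+* W) (φ : B →+* B')
  (_ : ∀ b, f' (φ b) = f b) (x y : B) (_ : f x ∈ maximalIdeal W) (_ : f y ∈ maximalIdeal W)
  (_ : Par f ![x, y]) (_ : 2 ≤ cht f) (T : B') (_ : φ y = φ x * T)
  (_ : ∀ b : B', ∃ p : Polynomial B, b = p.eval₂ φ T) (g : Polynomial B) (_ : MinPol f (f' T) g),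
    2 ≤ cht f'

/-- ONE. In a discrete valuation ring: divide by `x` until the result is a unit (`Arch`). -/
def S_ONE : Prop := ∀ (B W : Type u) [CommRing B] [CommRing W] [IsDomain W] [ValuationRing W] (_ : Arch W)
  (f : B →+* W) (x : B) (_ : f x ∈ maximalIdeal W) (_ : Par f ![x]) (b : B) (_ : f b ≠ 0),
    ∃ (m : ℕ) (s v : B), IsUnit (f s) ∧ IsUnit (f v) ∧ f (s * b) = f (v * x ^ m)

/-- RG0. Take out the powers of `x` (finitely many, `Arch`): `b₀ ∉ sat (span {x} ⊔ ker f)`. Then `n` is maximal with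
`b₀ ∈ sat (span {x, y ^ n} ⊔ ker f)`; it exists by Krull's intersection theorem in the localization of `B / (ker f ⊔ (x))` at the centre. By
`Par` the coefficient of `y ^ n` is a unit. (No dimension is needed.) -/
def S_RG0 : Prop := ∀ (B W : Type u) [CommRing B] [IsNoetherianRing B] [CommRing W] [IsDomain W]
  [ValuationRing W] (_ : Arch W) (f : B →+* W) (x y : B) (_ : f x ∈ maximalIdeal W) (_ : f y ∈ maximalIdeal W)
  (_ : f x ≠ 0) (_ : Par f ![x, y]) (b : B) (_ : f b ≠ 0), ∃ (m n : ℕ) (b₀ s : B), IsUnit (f s) ∧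
    f (s * b) = f (x ^ m * b₀) ∧ Reg f x y n b₀

/-- REP. The initial form. For each `k` either `b` is in `(x, y) ^ k` (up to units and modulo the kernel) or there is a representation with
`r < k` (if in a representation of degree `k` all coefficients have images in the maximal ideal, apply `Par` to them). It is not in
`(x, y) ^ (n + 1)`: else `y ^ n v ∈ (x)` for a unit `v`, which contradicts RSD (`n` times). For `r = n` compare modulo `x`:
`(s v - s' a_n) y ^ n ∈ (x)`, so `a_n` is a unit, by RSD. -/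
def S_REP : Prop := ∀ (B W : Type u) [CommRing B] [IsNoetherianRing B] [CommRing W] [IsDomain W]
  [ValuationRing W] (f : B →+* W) (x y : B) (_ : f x ∈ maximalIdeal W) (_ : f y ∈ maximalIdeal W)
  (_ : Par f ![x, y]) (_ : 2 ≤ cht f) (b : B) (n : ℕ) (_ : Reg f x y n b),
    ∃ (r : ℕ) (a : ℕ → B) (s : B), r ≤ n ∧ IsUnit (f s) ∧
      f (s * b) = f (∑ j ∈ Finset.range (r + 1), a j * x ^ (r - j) * y ^ j) ∧
      (∃ j ≤ r, IsUnit (f (a j))) ∧ (r = n → IsUnit (f (a r)))

/-! ## Modules on levels -/

/-- TRI. The residue of `T ∈ V` is algebraic or transcendental over the residue field of the centre of `A`. Take `g` in `A[X]` of minimal degree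
among the polynomials with `g(T) ∈ max V` and at least one coefficient that is a unit of `V` (if there is one; then the leading coefficient is a
unit). Elements of `S ⊗ A` are congruent to elements of `A` modulo elements with `ps` in the maximal ideal
(`IsData.approx_tensor`, `IsData.dom`). If `T ∈ max V` take `g = X`. -/
def S_TRI : Prop := ∀ (R V S W : Type u) [CommRing R] [IsLocalRing R] [IsNoetherianRing R] [CommRing V] [IsDomain V]
  [ValuationRing V] [CommRing S] [IsNoetherianRing S] [CommRing W] [IsDomain W] [ValuationRing W] [Algebra R V] [Algebra R S]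
  [Algebra V W] [Algebra R W] [Algebra S W] [IsScalarTower R S W] [IsScalarTower R V W] (_ : IsData R V S W)
  (A : Subalgebra R V) (T : V),
    (∃ g : Polynomial A, MinPol (ps S W A) (algebraMap V W T) (g.map (inc S A : A →+* S ⊗[R] A)) ∧
      (T ∈ maximalIdeal V → g = Polynomial.X)) ∨ Trans (ps S W A) (algebraMap V W T)

/-- BLO. Blowing up a level with two parameters, `x 1 = x 0 * T`. `A' = adjoin R (A ∪ {T})`; `MU.stp_gen` in
Pool/Agent/Helper10/MU/Stp.lean writes the elements of `S ⊗ A'` as polynomials; TRI, then MV2 and DMP, or MV1. For `mono`: `x 1 = x 0 * T` where `T` is a unit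
of `V` or the second new parameter. (`g(T) ≠ 0`: else the maximal ideal of the image would be principal up to units, but `2 ≤ cht`; this follows
from `Ideal.height_le_...` or from RSD with `b = 1`.) -/
def S_BLO : Prop := ∀ (R V S W : Type u) [CommRing R] [IsLocalRing R] [IsNoetherianRing R] [CommRing V] [IsDomain V]
  [ValuationRing V] [CommRing S] [IsNoetherianRing S] [CommRing W] [IsDomain W] [ValuationRing W] [Algebra R V] [Algebra R S]
  [Algebra V W] [Algebra R W] [Algebra S W] [IsScalarTower R S W] [IsScalarTower R V W] (_ : IsData R V S W)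
  (A : Subalgebra R V) (x : Fin 2 → V) (_ : Good S W A x) (T : V) (_ : x 1 = x 0 * T),
    ∃ A' : Subalgebra R V, T ∈ A' ∧
      ((∃ g : Polynomial A, MinPol (ps S W A) (algebraMap V W T) (g.map (inc S A : A →+* S ⊗[R] A)) ∧
        (T ∈ maximalIdeal V → g = Polynomial.X) ∧ Ex S W A A' x ![x 0, Polynomial.aeval T g]) ∨
      Ex S W A A' x ![x 0])

/-- SWP. The two parameters can be interchanged. -/
def S_SWP : Prop := ∀ (R V S W : Type u) [CommRing R] [IsLocalRing R] [IsNoetherianRing R] [CommRing V] [IsDomain V]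
  [ValuationRing V] [CommRing S] [IsNoetherianRing S] [CommRing W] [IsDomain W] [ValuationRing W] [Algebra R V] [Algebra R S]
  [Algebra V W] [Algebra R W] [Algebra S W] [IsScalarTower R S W] [IsScalarTower R V W] (_ : IsData R V S W)
  (A : Subalgebra R V) (x : Fin 2 → V) (_ : Good S W A x), Ex S W A A x ![x 1, x 0]

/-- TR2. `Ex` is reflexive and transitive, and being a monomial times a unit persists. -/
def S_TR2 : Prop := ∀ (R V S W : Type u) [CommRing R] [IsLocalRing R] [IsNoetherianRing R] [CommRing V] [IsDomain V]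
  [ValuationRing V] [CommRing S] [IsNoetherianRing S] [CommRing W] [IsDomain W] [ValuationRing W] [Algebra R V] [Algebra R S]
  [Algebra V W] [Algebra R W] [Algebra S W] [IsScalarTower R S W] [IsScalarTower R V W] (_ : IsData R V S W)
  (e e' e'' : ℕ) (A A' A'' : Subalgebra R V) (x : Fin e → V) (x' : Fin e' → V) (x'' : Fin e'' → V),
    (Good S W A x → Ex S W A A x x) ∧ (Ex S W A A' x x' → Ex S W A' A'' x' x'' → Ex S W A A'' x x'') ∧
    (Ex S W A A' x x' → ∀ (v : V) (α : Fin e → ℕ), MonAt S W A x v α → ∃ β, MonAt S W A' x' v β)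

/-- STG. One step of the monomialization of `b`, `Reg` of order `n ≥ 1`. Let `r`, `a_j` as in REP (`r ≥ 1` because `ps b` is no unit).
Case I, `x 0 ∣ x 1`, `x 1 = x 0 T`: BLO. If the residue of `T` is algebraic put `φ = Σ a_j X ^ j`; `b` is `x 0 ^ r φ(T)` up to units, by DVG
`s φ = g ^ k h + ρ`, `k ≤ r ≤ n`, and `ρ(T)` is in `(x 0)` up to units and modulo the kernel by `Lev.par` at level `A` and `x 1 = x 0 T`; so `b' = φ(T)`
is `Reg` of order `k`. Case II, `x 0 = x 1 T`, `T ∈ max V`: SWP, then BLO (`g = X`), new parameters `x 1, T`: `b` is `x 1 ^ r φ(T)` with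
`φ = Σ a_j X ^ (r - j)`; the least `k = r - j` with `a_j` a unit gives `Reg` of order `k`, and `k < n`
(if `r = n` then `a_n` is a unit and `k = 0`). -/
def S_STG : Prop := ∀ (R V S W : Type u) [CommRing R] [IsLocalRing R] [IsNoetherianRing R] [CommRing V] [IsDomain V]
  [ValuationRing V] [CommRing S] [IsNoetherianRing S] [CommRing W] [IsDomain W] [ValuationRing W] [Algebra R V] [Algebra R S]
  [Algebra V W] [Algebra R W] [Algebra S W] [IsScalarTower R S W] [IsScalarTower R V W] (_ : IsData R V S W)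
  (A : Subalgebra R V) (x : Fin 2 → V) (G : Good S W A x) (n : ℕ) (_ : 1 ≤ n) (b : S ⊗[R] A)
  (_ : Reg (ps S W A) (inc S A ⟨x 0, G.lev.mem 0⟩) (inc S A ⟨x 1, G.lev.mem 1⟩) n b),
    ∃ A' : Subalgebra R V, (∃ x' : Fin 1 → V, Ex S W A A' x x') ∨
      ∃ (x' : Fin 2 → V) (E : Ex S W A A' x x') (r n' : ℕ) (s b' : S ⊗[R] A'), IsUnit (ps S W A' s) ∧
        ps S W A' s * ps S W A b = ps S W A' b' * algebraMap V W (x' 0) ^ r ∧
        Reg (ps S W A') (inc S A' ⟨x' 0, E.good.lev.mem 0⟩) (inc S A' ⟨x' 1, E.good.lev.mem 1⟩) n' b' ∧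
        (n' < n ∨ (n' ≤ n ∧ 1 ≤ r ∧ x' 0 = x 0))

/-- MN2. Monomialization of an element. One parameter: ONE. Two parameters: RG0, then induction on `n` and, for equal `n`, on `N` with
`ps b ∣ x 0 ^ N` (`Arch`), by STG; `n = 0`: `b₀` is a unit. The powers of `x' 0` that split off are monomials times units on all later
levels (TR2). -/
def S_MN2 : Prop := ∀ (R V S W : Type u) [CommRing R] [IsLocalRing R] [IsNoetherianRing R] [CommRing V] [IsDomain V]
  [ValuationRing V] [CommRing S] [IsNoetherianRing S] [CommRing W] [IsDomain W] [ValuationRing W] [Algebra R V] [Algebra R S]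
  [Algebra V W] [Algebra R W] [Algebra S W] [IsScalarTower R S W] [IsScalarTower R V W] (_ : IsData R V S W)
  (e : ℕ) (A : Subalgebra R V) (x : Fin e → V) (_ : Good S W A x) (b : S ⊗[R] A) (_ : ps S W A b ≠ 0),
    ∃ (A' : Subalgebra R V) (e' : ℕ) (x' : Fin e' → V), Ex S W A A' x x' ∧
      ∃ (β : Fin e' → ℕ) (s v : S ⊗[R] A'), IsUnit (ps S W A' s) ∧
        IsUnit (ps S W A' v) ∧ ps S W A' s * ps S W A b = ps S W A' v * algebraMap V W (mon x' β)

/-- PR2. Divisibility of monomials becomes true on a level. One parameter: nothing to do. Two parameters: take away the common part; unless one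
exponent vector is zero the pair is `x i ^ a`, `x j ^ d` (`x j ^ d ∣ x i ^ a` in `V`); induction on `a + d`: BLO (after SWP if `x 1 ∣ x 0`).
If `T` is a unit then `x 1` is a unit times `x 0` (this includes the case of one new parameter). If `T ∈ max V` the pair becomes, after
cancellation, one with smaller `a + d`. -/
def S_PR2 : Prop := ∀ (R V S W : Type u) [CommRing R] [IsLocalRing R] [IsNoetherianRing R] [CommRing V] [IsDomain V]
  [ValuationRing V] [CommRing S] [IsNoetherianRing S] [CommRing W] [IsDomain W] [ValuationRing W] [Algebra R V] [Algebra R S]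
  [Algebra V W] [Algebra R W] [Algebra S W] [IsScalarTower R S W] [IsScalarTower R V W] (_ : IsData R V S W)
  (e : ℕ) (A : Subalgebra R V) (x : Fin e → V) (_ : Good S W A x) (α β : Fin e → ℕ) (_ : mon x α ∣ mon x β),
    ∃ (A' : Subalgebra R V) (e' : ℕ) (x' : Fin e' → V), Ex S W A A' x x' ∧
      ∃ s c : S ⊗[R] A', IsUnit (ps S W A' s) ∧
        ps S W A' s * algebraMap V W (mon x β) = ps S W A' c * algebraMap V W (mon x α)

/-- KY2. Finitely many divisibilities in `W` become true on a level: MN2 for `α k`, `β k`, PR2, one pair after the other; see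
Pool/Agent/Helper10/MU/Key.lean. -/
def S_KY2 : Prop := ∀ (R V S W : Type u) [CommRing R] [IsLocalRing R] [IsNoetherianRing R] [CommRing V] [IsDomain V]
  [ValuationRing V] [CommRing S] [IsNoetherianRing S] [CommRing W] [IsDomain W] [ValuationRing W] [Algebra R V] [Algebra R S]
  [Algebra V W] [Algebra R W] [Algebra S W] [IsScalarTower R S W] [IsScalarTower R V W] (_ : IsData R V S W)
  (e : ℕ) (A : Subalgebra R V) (x : Fin e → V) (_ : Good S W A x)
  (n : ℕ) (α β : Fin n → S ⊗[R] A) (_ : ∀ k, ps S W A (β k) ≠ 0 ∧ ps S W A (β k) ∣ ps S W A (α k)),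
    ∃ (A' : Subalgebra R V) (e' : ℕ) (x' : Fin e' → V), ∃ E : Ex S W A A' x x',
      ∀ k, tr S E.le (α k) ∈ sat (ps S W A') (Ideal.span {tr S E.le (β k)} ⊔ RingHom.ker (ps S W A'))

/-- CTR. The height of the centre of the image does not decrease under extensions inside the local ring: prime ideals of
`(ps S W A).range` inside the centre extend. -/
def S_CTR : Prop := ∀ (R V S W : Type u) [CommRing R] [IsLocalRing R] [IsNoetherianRing R] [CommRing V] [IsDomain V]
  [ValuationRing V] [CommRing S] [IsNoetherianRing S] [CommRing W] [IsDomain W] [ValuationRing W] [Algebra R V] [Algebra R S]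
  [Algebra V W] [Algebra R W] [Algebra S W] [IsScalarTower R S W] [IsScalarTower R V W] (_ : IsData R V S W)
  (A A' : Subalgebra R V) (_ : A ≤ A')
  (_ : ∀ a ∈ A', ∃ s b : S ⊗[R] A, IsUnit (ps S W A s) ∧ ps S W A s * algebraMap V W a = ps S W A b),
    cht (ps S W A) ≤ cht (ps S W A')

/-- ST2. As `MU.sta` (Pool/Agent/Helper10/MU/Sta.lean), from KY2, and CTR for the dimension. -/
def S_ST2 : Prop := ∀ (R V S W K : Type u) [CommRing R] [IsDomain R] [IsLocalRing R] [IsNoetherianRing R] [CommRing V]
  [IsDomain V]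
  [ValuationRing V] [CommRing S] [IsNoetherianRing S] [CommRing W] [IsDomain W] [ValuationRing W] [Algebra R V] [Algebra R S]
  [Algebra V W] [Algebra R W] [Algebra S W] [IsScalarTower R S W] [IsScalarTower R V W] [Field K] [Algebra R K]
  [IsFractionRing R K] [Algebra V K] [IsScalarTower R V K] (_ : Function.Injective (algebraMap V K)) (_ : IsData R V S W)
  (e : ℕ) (A : Subalgebra R V) (x : Fin e → V) (_ : Good S W A x) (F : Finset V),
    ∃ (A' : Subalgebra R V) (e' : ℕ) (x' : Fin e' → V), A ≤ A' ∧ (F : Set V) ⊆ A' ∧ Good S W A' x'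

/-- FR2. As `MU.fre` (Pool/Agent/Helper10/MU/Fre.lean), with KY2 in place of KEY. -/
def S_FR2 : Prop := ∀ (R V S W : Type u) [CommRing R] [IsLocalRing R] [IsNoetherianRing R] [CommRing V] [IsDomain V]
  [ValuationRing V] [CommRing S] [IsNoetherianRing S] [CommRing W] [IsDomain W] [ValuationRing W] [Algebra R V] [Algebra R S]
  [Algebra V W] [Algebra R W] [Algebra S W] [IsScalarTower R S W] [IsScalarTower R V W] (_ : IsData R V S W)
  (e : ℕ) (A : Subalgebra R V) (x : Fin e → V) (_ : Good S W A x)
  (h : ℕ) (g : Fin h → S ⊗[R] A) (_ : ∀ i, g i ∈ RingHom.ker (ps S W A))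
  (_ : ∀ q ∈ RingHom.ker (ps S W A), ∃ s ∉ RingHom.ker (ps S W A), s * q ∈ Ideal.span (Set.range g)),
    ∃ (A' : Subalgebra R V) (e' : ℕ) (x' : Fin e' → V), Ex S W A A' x x' ∧
      ∃ (q : Fin h → S ⊗[R] A') (w : S ⊗[R] A'), ps S W A' w ≠ 0 ∧ Free S W A' q w

/-- FP2. `Free` persists; proof as `MU.frp` (only `le` and `ker` are used). -/
def S_FP2 : Prop := ∀ (R V S W : Type u) [CommRing R] [IsLocalRing R] [IsNoetherianRing R] [CommRing V] [IsDomain V]
  [ValuationRing V] [CommRing S] [IsNoetherianRing S] [CommRing W] [IsDomain W] [ValuationRing W] [Algebra R V] [Algebra R S]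
  [Algebra V W] [Algebra R W] [Algebra S W] [IsScalarTower R S W] [IsScalarTower R V W] (_ : IsData R V S W)
  (A A' : Subalgebra R V) (le : A ≤ A')
  (_ : RingHom.ker (ps S W A') ≤ sat (ps S W A') ((RingHom.ker (ps S W A)).map (tr S le)))
  (h : ℕ) (q : Fin h → S ⊗[R] A) (w : S ⊗[R] A) (_ : Free S W A q w),
    Free S W A' (fun i => tr S le (q i)) (tr S le w)

/-- FN2. As `MU.fin` (Pool/Agent/Helper10/MU/Fin.lean), with the additional conclusion that the new algebra is inside the local ring of the image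
of `S ⊗ A` (true for the generators `v` with `τ v ∈ finA`, and these elements are a subalgebra, see `T` in
Pool/Agent/Helper10/MU/Sta.lean). -/
def S_FN2 : Prop := ∀ (R V S W : Type u) [CommRing R] [IsLocalRing R] [IsNoetherianRing R] [CommRing V] [IsDomain V]
  [ValuationRing V] [CommRing S] [IsNoetherianRing S] [CommRing W] [IsDomain W] [ValuationRing W] [Algebra R V] [Algebra R S]
  [Algebra V W] [Algebra R W] [Algebra S W] [IsScalarTower R S W] [IsScalarTower R V W] (_ : IsData R V S W)
  (e : ℕ) (A : Subalgebra R V) (x : Fin e → V) (hL : Lev S W A x) (_ : ∀ i, x i ∈ maximalIdeal V)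
  (h : ℕ) (q : Fin h → S ⊗[R] A) (w : S ⊗[R] A) (_ : Free S W A q w)
  (τ : A) (_ : (τ : V) ≠ 0) (_ : (τ : V) ∈ maximalIdeal V)
  (_ : inc S A τ ∈ sat (ps S W A) (Ideal.span {w} ⊔ RingHom.ker (ps S W A)))
  (M : ℕ) (_ : 0 < M)
  (_ : ∀ r ∈ maximalIdeal R ^ M, algebraMap R (S ⊗[R] A) r ∈
    sat (ps S W A) (Ideal.span {inc S A τ} * (maximalIdeal W).comap (ps S W A) ⊔ RingHom.ker (ps S W A))),
    ∃ (A' : Subalgebra R V) (hA : A ≤ A') (z : Fin h → A'), A'.FG ∧ (∀ i, (z i : V) ∈ maximalIdeal V) ∧
      (∀ a : A, inc S A a ∈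
        sat (ps S W A) (Ideal.span {inc S A τ} * (maximalIdeal W).comap (ps S W A) ⊔ RingHom.ker (ps S W A)) →
          ∃ v : A', (v : V) ∈ maximalIdeal V ∧ (a : V) = τ * v) ∧
      cen A' ≤ sat (algebraMap A' V)
        (Ideal.span (Set.range (fun i => Subalgebra.inclusion hA (⟨x i, hL.mem i⟩ : A)) ∪ Set.range z) ⊔
          cen A' ^ 2) ∧
      ∀ a ∈ A', ∃ s b : S ⊗[R] A, IsUnit (ps S W A s) ∧ ps S W A s * algebraMap V W a = ps S W A b

/-- DM2. `height (ker) + height (centre / ker) ≤ height (centre)` in `S ⊗ A` (`MU.abh_height` in Pool/Agent/Helper10/MU/Abh.lean), then as in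
Pool/Agent/Helper10/MU/Dim.lean. -/
def S_DM2 : Prop := ∀ (R V S W : Type u) [CommRing R] [IsLocalRing R] [IsNoetherianRing R] [CommRing V] [IsDomain V]
  [ValuationRing V] [CommRing S] [IsNoetherianRing S] [CommRing W] [IsDomain W] [ValuationRing W] [Algebra R V] [Algebra R S]
  [Algebra V W] [Algebra R W] [Algebra S W] [IsScalarTower R S W] [IsScalarTower R V W] (_ : IsData R V S W)
  (A : Subalgebra R V) (_ : A.FG), (RingHom.ker (ps S W A)).height + cht (ps S W A) ≤ (cen A).height

end Pool.Agent.Helper10.MV
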