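import Pool.Agent.Helper10.MV.Stm
import Pool.Agent.Helper10.MU.Trn

/-!
# SWP: the parameters can be interchanged
-/

set_option autoImplicit false
set_option linter.unusedSectionVars false

open scoped TensorProduct
open IsLocalRing

universe u

namespace Pool.Agent.Helper10.MV

open Pool.Agent.Helper7.LU (psi inc)
open Pool.Agent.Helper10.MU

theorem swp : S_SWP.{u} := by
  intro R V S W _ _ _ _ _ _ _ _ _ _ _ _ _ _ _ _ _ _ _ A x G
  have hmem : ∀ i, (![x 1, x 0] : Fin 2 → V) i ∈ A := by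
    intro i
    fin_cases i
    · exact G.lev.mem 1
    · exact G.lev.mem 0
  refine ⟨le_refl A, ⟨⟨G.lev.fg, hmem, ?_⟩, ?_, ?_, by norm_num, le_refl 2, G.dim⟩, ?_, ?_⟩
  · intro b hb
    refine sat_mono _ (sup_le_sup_right (Ideal.span_mono ?_) _) (G.lev.par b hb)
    rintro _ ⟨i, rfl⟩
    fin_cases i
    · exact ⟨1, rfl⟩
    · exact ⟨0, rfl⟩
  · intro i
    fin_cases i
    · exact G.xm 1
    · exact G.xm 0
  · intro i
    fin_cases i
    · exact G.x0 1
    · exact G.x0 0
  · intro i
    fin_cases i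
    · refine ⟨![0, 1], 1, 1, by simp, by simp, ?_⟩
      simp [mon, Fin.prod_univ_two]
    · refine ⟨![1, 0], 1, 1, by simp, by simp, ?_⟩
      simp [mon, Fin.prod_univ_two]
  · intro b hb
    refine le_sat _ _ ?_
    rw [← trn_tr_refl A b]
    exact Ideal.mem_map_of_mem _ hb

end Pool.Agent.Helper10.MV
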