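import Pool.Agent.Helper10.MV.Main
import Pool.Agent.Helper10.MU.Top

/-!
# Uniformization of valuations with a regular formal surface germ: valuation subrings
-/

set_option autoImplicit false
set_option linter.unusedSectionVars false
set_option synthInstance.maxHeartbeats 400000
set_option maxHeartbeats 4000000

open scoped TensorProduct
open IsLocalRing

universe u

namespace Pool.Agent.Helper10.MV

open Pool.Agent.Helper7.LU (psi inc)
open Pool.Agent.Helper10.MU

section

variable {R K L : Type u} [CommRing R] [IsDomain R] [IsLocalRing R] [IsNoetherianRing R] [Field K]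
  [Algebra R K] [IsFractionRing R K] [Field L] [Algebra K L]

/-- The centre of the valuation ring `O` on the subring `C`. -/
def centre (C : Subring L) (O : ValuationSubring L) (hC : C ≤ O.toSubring) : Ideal C :=
  (maximalIdeal O).comap (Subring.inclusion hC)

/-- **Uniformization** of valuations with a regular formal surface germ. -/
theorem top2 (hTR2 : S_TR2.{u}) (hMN2 : S_MN2.{u}) (hKY2 : S_KY2.{u}) (hST2 : S_ST2.{u})
    (hFR2 : S_FR2.{u}) (hFP2 : S_FP2.{u}) (hFN2 : S_FN2.{u}) (hCTR : S_CTR.{u}) (hDM2 : S_DM2.{u})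
    (hR : ¬ IsField R)
    (reg : ∀ (Q : Ideal (K ⊗[R] AdicCompletion (maximalIdeal R) R)) [Q.IsPrime],
      IsRegularLocalRing (Localization.AtPrime Q))
    (ρ : AdicCompletion (maximalIdeal R) R →+* L)
    (compat : ∀ r : R, ρ (algebraMap R (AdicCompletion (maximalIdeal R) R) r) = algebraMap K L (algebraMap R K r))
    (O : ValuationSubring L)
    (centred : ∀ r ∈ maximalIdeal R, O.valuation (algebraMap K L (algebraMap R K r)) < 1)
    (rank_one : ∀ a b : L, O.valuation a < 1 → b ≠ 0 → ∃ n : ℕ, O.valuation (a ^ n) ≤ O.valuation b)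
    (A₀ : Subalgebra R K) (fg : A₀.FG) (hC : hatRing ρ A₀ ≤ O.toSubring)
    (e : ℕ) (he : e = 1 ∨ e = 2) (dimension : (e : ℕ∞) ≤ (centre (hatRing ρ A₀) O hC).height)
    (x : Fin e → K) (hxA : ∀ i, x i ∈ A₀) (hx0 : ∀ i, x i ≠ 0)
    (hx1 : ∀ i, O.valuation (algebraMap K L (x i)) < 1)
    (parameters : ∀ b ∈ hatRing ρ A₀, O.valuation b < 1 → ∃ s ∈ hatRing ρ A₀, O.valuation s = 1 ∧
      ∃ c : Fin e → L, (∀ i, c i ∈ hatRing ρ A₀) ∧ s * b = ∑ i, c i * algebraMap K L (x i)) :
    ∃ h : ℕ, ∀ F : Finset K, (∀ f ∈ F, algebraMap K L f ∈ O) →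
      ∃ A : Subalgebra R K, A.FG ∧ A₀ ≤ A ∧ (∀ a ∈ A, algebraMap K L a ∈ O) ∧ (∀ f ∈ F, f ∈ A) ∧
        ∃ (P : Ideal A) (_ : P.IsPrime), (∀ a : A, a ∈ P ↔ O.valuation (algebraMap K L (a : K)) < 1) ∧
          IsRegularLocalRing (Localization.AtPrime P) ∧
          ∃ (e' : ℕ) (y : Fin e' → A) (z : Fin h → A), (e' = 1 ∨ e' = 2) ∧
            ringKrullDim (Localization.AtPrime P) = (h + e' : ℕ) ∧
            maximalIdeal (Localization.AtPrime P) =
              Ideal.span (algebraMap A (Localization.AtPrime P) '' (Set.range y ∪ Set.range z)) ∧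
            ∀ f ∈ F, f ≠ 0 → ∃ (β : Fin e' → ℕ) (s v : A), s ∉ P ∧ v ∉ P ∧
              (s : K) * f = v * ∏ i, (y i : K) ^ β i := by
  classical
  have contained : ∀ s, ρ s ∈ O := fun s => hC (Subring.subset_closure (Or.inl ⟨s, rfl⟩))
  have hA₀ : ∀ a ∈ A₀, algebraMap K L a ∈ O := fun a ha => hC (Subring.subset_closure (Or.inr ⟨a, ha, rfl⟩))
  let S := AdicCompletion (maximalIdeal R) R
  let V : ValuationSubring K := O.comap (algebraMap K L)
  have hVmem : ∀ a : K, a ∈ V ↔ algebraMap K L a ∈ O := fun a => Iff.rfl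
  have hRV : ∀ r : R, algebraMap R K r ∈ V := fun r => by
    rw [hVmem, ← compat]
    exact contained _
  let : Algebra R V := ((algebraMap R K).codRestrict V.toSubring hRV).toAlgebra
  let ιVO : V →+* O := ((algebraMap K L).comp V.subtype).codRestrict O.toSubring (fun v => v.2)
  let : Algebra V O := ιVO.toAlgebra
  let : Algebra S O := (ρ.codRestrict O.toSubring contained).toAlgebra
  let : Algebra R O := ((algebraMap S O).comp (algebraMap R S)).toAlgebra
  have hRVK : ∀ r : R, ((algebraMap R V r : V) : K) = algebraMap R K r := fun r => rfl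
  have hVO : ∀ v : V, ((algebraMap V O v : O) : L) = algebraMap K L (v : K) := fun v => rfl
  have hSO : ∀ s : S, ((algebraMap S O s : O) : L) = ρ s := fun s => rfl
  have t1 : IsScalarTower R V K := IsScalarTower.of_algebraMap_eq fun r => rfl
  have t2 : IsScalarTower R S O := IsScalarTower.of_algebraMap_eq fun r => rfl
  have t3 : IsScalarTower R V O := IsScalarTower.of_algebraMap_eq fun r => by
    apply Subtype.ext
    rw [IsScalarTower.algebraMap_apply R S O, hSO, hVO, hRVK, compat]
  have hnoeth : IsNoetherianRing S := Pool.Agent.Helper7.LU.isNoetherianRing_adicCompletion _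
  -- maximal ideals
  have hmO : ∀ w : O, w ∈ maximalIdeal O ↔ O.valuation (w : L) < 1 := fun w => O.valuation_lt_one_iff w
  have hunit : ∀ v : V, IsUnit v ↔ IsUnit (algebraMap V O v) := by
    intro v
    refine ⟨fun h => h.map _, fun h => ?_⟩
    obtain ⟨w, hw⟩ := h.exists_right_inv
    have hw' : algebraMap K L (v : K) * (w : L) = 1 := by
      have := congrArg (fun z : O => (z : L)) hw
      exact this
    have hv0 : (v : K) ≠ 0 := by
      intro h0
      rw [h0, map_zero, zero_mul] at hw'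
      exact zero_ne_one hw'
    have hmem : (v : K)⁻¹ ∈ V := by
      rw [hVmem, map_inv₀]
      have : (algebraMap K L (v : K))⁻¹ = w := inv_eq_of_mul_eq_one_right hw'
      rw [this]
      exact w.2
    refine IsUnit.of_mul_eq_one ⟨(v : K)⁻¹, hmem⟩ ?_
    apply Subtype.ext
    exact mul_inv_cancel₀ hv0
  have hmV : ∀ v : V, v ∈ maximalIdeal V ↔ O.valuation (algebraMap K L (v : K)) < 1 := by
    intro v
    rw [← hVO, ← hmO, mem_maximalIdeal, mem_maximalIdeal, mem_nonunits_iff, mem_nonunits_iff, hunit]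
  -- the data
  have hArch : Arch O := by
    intro a ha b hb
    obtain ⟨n, hn⟩ := rank_one (a : L) (b : L) ((hmO a).mp ha) (fun h => hb (Subtype.ext h))
    refine ⟨n, ?_⟩
    obtain ⟨c, hc⟩ := (O.valuation_le_iff _ _).mp hn
    refine ⟨c, Subtype.ext ?_⟩
    rw [mul_comm]
    exact hc.symm
  have hdom : ∀ r ∈ maximalIdeal R, algebraMap R V r ∈ maximalIdeal V := by
    intro r hr
    rw [hmV, hRVK]
    exact centred r hr
  have hd : IsData R V S O := by
    refine ⟨fun n s => Pool.Agent.Helper7.LU.approx_completion (maximalIdeal R) n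
      (maximalIdeal R).fg_of_isNoetherianRing s, fun n => ⟨AdicCompletion.evalₐ (maximalIdeal R) n⟩, ?_, ?_,
      hdom, hArch, ?_⟩
    · intro v v' h
      apply Subtype.ext
      exact (algebraMap K L).injective (congrArg (fun z : O => (z : L)) h)
    · rintro v v' ⟨w, hw⟩
      have hw' : algebraMap K L (v' : K) = algebraMap K L (v : K) * w := congrArg (fun z : O => (z : L)) hw
      by_cases hv : (v : K) = 0
      · refine ⟨0, Subtype.ext ?_⟩
        rw [hv, map_zero, zero_mul] at hw'
        have := (map_eq_zero (algebraMap K L)).mp hw'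
        simpa using this
      · have hmem : (v' : K) / v ∈ V := by
          rw [hVmem, map_div₀, hw', mul_div_cancel_left₀ _ (by simpa using hv)]
          exact w.2
        refine ⟨⟨(v' : K) / v, hmem⟩, Subtype.ext ?_⟩
        exact (mul_div_cancel₀ _ hv).symm
    · intro w hw
      have h1 : maximalIdeal R ≤ ((Ideal.span {w}).comap ((algebraMap V O).comp (algebraMap R V))).radical := by
        intro r hr
        have h2 : algebraMap V O (algebraMap R V r) ∈ maximalIdeal O := by
          rw [hmO, hVO, hRVK]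
          exact centred r hr
        obtain ⟨n, hn⟩ := hArch _ h2 w hw
        refine ⟨n, ?_⟩
        rw [Ideal.mem_comap, map_pow, Ideal.mem_span_singleton]
        exact hn
      obtain ⟨n, hn⟩ := Ideal.exists_pow_le_of_le_radical_of_fg h1 (maximalIdeal R).fg_of_isNoetherianRing
      refine ⟨n, fun r hr => ?_⟩
      have := hn hr
      rw [Ideal.mem_comap, Ideal.mem_span_singleton] at this
      exact this
  -- the first level
  let j : V →ₐ[R] K := IsScalarTower.toAlgHom R V K
  have hj : ∀ v : V, j v = (v : K) := fun v => rfl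
  have hjinj : Function.Injective j := fun a b hab => Subtype.ext hab
  have hA₀V : ∀ a ∈ A₀, a ∈ V := fun a ha => hA₀ a ha
  let A₁ : Subalgebra R V := A₀.comap j
  have hA₁map : A₁.map j = A₀ := by
    apply le_antisymm
    · rintro _ ⟨v, hv, rfl⟩
      exact hv
    · intro a ha
      exact ⟨⟨a, hA₀V a ha⟩, ha, rfl⟩
  have hA₁fg : A₁.FG := Subalgebra.fg_of_fg_map A₁ j hjinj (by rw [hA₁map]; exact fg)
  let x' : Fin e → V := fun i => ⟨x i, hA₀V _ (hxA i)⟩
  have hx'A : ∀ i, x' i ∈ A₁ := fun i => hxA i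
  have hx'm : ∀ i, x' i ∈ maximalIdeal V := fun i => by
    rw [hmV]
    exact hx1 i
  have hmonK : ∀ (k : ℕ) (y : Fin k → V) (α : Fin k → ℕ), ((mon y α : V) : K) = ∏ i, (y i : K) ^ α i := by
    intro k y α
    rw [mon]
    push_cast
    rfl
  -- the images of the elements of the tensor product
  have himg : ∀ b : S ⊗[R] A₁, ((ps S O A₁ b : O) : L) ∈ hatRing ρ A₀ := by
    intro b
    induction b with
    | zero =>
      rw [map_zero]
      exact Subring.zero_mem _
    | add a b ha hb =>
      rw [map_add]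
      exact Subring.add_mem _ ha hb
    | tmul s a =>
      rw [ps_tmul]
      change ((algebraMap S O s : O) : L) * ((algebraMap V O (a : V) : O) : L) ∈ _
      exact Subring.mul_mem _ (Subring.subset_closure (Or.inl ⟨s, rfl⟩))
        (Subring.subset_closure (Or.inr ⟨((a : V) : K), a.2, rfl⟩))
  have hlift : ∀ b ∈ hatRing ρ A₀, ∃ b' : S ⊗[R] A₁, ((ps S O A₁ b' : O) : L) = b := by
    intro b hb
    refine Subring.closure_induction (p := fun b _ => ∃ b' : S ⊗[R] A₁, ((ps S O A₁ b' : O) : L) = b)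
      ?_ ?_ ?_ ?_ ?_ ?_ hb
    · rintro b (⟨s, rfl⟩ | ⟨a, ha, rfl⟩)
      · refine ⟨s ⊗ₜ 1, ?_⟩
        rw [ps_tmul]
        change ((algebraMap S O s : O) : L) * ((algebraMap V O ((1 : A₁) : V) : O) : L) = _
        rw [hSO, hVO]
        simp
      · refine ⟨inc S A₁ ⟨⟨a, hA₀V a ha⟩, ha⟩, ?_⟩
        rw [ps_inc, hVO]
    · exact ⟨0, by simp⟩
    · exact ⟨1, by simp⟩
    · rintro a b _ _ ⟨a', ha'⟩ ⟨b', hb'⟩
      refine ⟨a' + b', ?_⟩
      rw [map_add, ← ha', ← hb']
      rfl
    · rintro a _ ⟨a', ha'⟩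
      refine ⟨-a', ?_⟩
      rw [map_neg, ← ha']
      rfl
    · rintro a b _ _ ⟨a', ha'⟩ ⟨b', hb'⟩
      refine ⟨a' * b', ?_⟩
      rw [map_mul, ← ha', ← hb']
      rfl
  have hLev : Lev S O A₁ x' := by
    refine ⟨hA₁fg, hx'A, ?_⟩
    intro b hb
    rw [hmO] at hb
    obtain ⟨s, hs, hs1, c, hc, hsum⟩ := parameters _ (himg b) hb
    obtain ⟨s', hs'⟩ := hlift s hs
    choose c' hc' using fun i => hlift (c i) (hc i)
    refine ⟨s', ?_, ?_⟩
    · rw [O.valuation_eq_one_iff, hs']
      exact hs1
    · have h1 : s' * b = ∑ i, c' i * inc S A₁ ⟨x' i, hx'A i⟩ +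
          (s' * b - ∑ i, c' i * inc S A₁ ⟨x' i, hx'A i⟩) := by ring
      rw [h1]
      refine Ideal.add_mem _ (Ideal.mem_sup_left (Ideal.sum_mem _ fun i _ =>
        Ideal.mul_mem_left _ _ (Ideal.subset_span ⟨i, rfl⟩))) (Ideal.mem_sup_right ?_)
      rw [RingHom.mem_ker, map_sub, map_mul, map_sum, sub_eq_zero]
      apply Subtype.ext
      change ((ps S O A₁ s' : O) : L) * ((ps S O A₁ b : O) : L) =
        ((∑ i, ps S O A₁ (c' i * inc S A₁ ⟨x' i, hx'A i⟩) : O) : L)
      rw [hs', hsum]
      push_cast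
      refine Finset.sum_congr rfl fun i _ => ?_
      rw [map_mul, ps_inc]
      change _ = ((ps S O A₁ (c' i) : O) : L) * ((algebraMap V O (x' i) : O) : L)
      rw [hc', hVO]
  -- the dimension
  have hdimL : (e : ℕ∞) ≤ cht (ps S O A₁) := by
    let ε₀ : hatRing ρ A₀ ≃+* (ps S O A₁).range :=
      { toFun := fun c => ⟨⟨(c : L), hC c.2⟩, by
          obtain ⟨b, hb⟩ := hlift c c.2
          exact ⟨b, Subtype.ext hb⟩⟩
        invFun := fun w => ⟨((w : O) : L), by
          obtain ⟨b, hb⟩ := w.2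
          rw [← hb]
          exact himg b⟩
        left_inv := fun c => rfl
        right_inv := fun w => rfl
        map_mul' := fun a b => rfl
        map_add' := fun a b => rfl }
    have h1 := RingEquiv.height_comap ε₀ ((maximalIdeal O).comap (ps S O A₁).range.subtype)
    have h2 : ((maximalIdeal O).comap (ps S O A₁).range.subtype).comap ε₀ = centre (hatRing ρ A₀) O hC := rfl
    rw [h2] at h1
    rw [cht, ← h1]
    exact dimension
  have hGood : Good S O A₁ x' := by
    refine ⟨hLev, hx'm, fun i h0 => hx0 i (congrArg Subtype.val h0), ?_, ?_, hdimL⟩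
    · rcases he with rfl | rfl <;> norm_num
    · rcases he with rfl | rfl <;> norm_num
  -- a nonzero element of the maximal ideal
  obtain ⟨t, ht, ht0⟩ : ∃ t ∈ maximalIdeal R, t ≠ 0 := by
    by_contra h
    push Not at h
    apply hR
    rw [IsLocalRing.isField_iff_maximalIdeal_eq, eq_bot_iff]
    exact fun r hr => h r hr
  obtain ⟨h, hh⟩ := main2 (K := K) hTR2 hMN2 hKY2 hST2 hFR2 hFP2 hFN2 hCTR hDM2 Subtype.val_injective reg hd t ht ht0
    e A₁ x' hGood
  refine ⟨h, fun F hF => ?_⟩
  let F' : Finset V := F.attach.image (fun f => (⟨f.1, hF f.1 f.2⟩ : V))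
  obtain ⟨B, hBfg, hAB, hFB, hp, e', y, z, hpos, hle2, hreg, hdim, hgen, hmon⟩ := hh F'
  let A : Subalgebra R K := B.map j
  have hA : ∀ a ∈ A, a ∈ V := by
    rintro a ⟨b, hb, rfl⟩
    exact b.2
  let ε : B ≃ₐ[R] A := B.equivMapOfInjective j hjinj
  have hε : ∀ b : B, ((ε b : A) : K) = ((b : V) : K) := fun b => rfl
  let P : Ideal A := (cen B).comap (ε.symm : A →+* B)
  have hP : P.IsPrime := Ideal.comap_isPrime _ _
  have hPmem : ∀ b : B, ε b ∈ P ↔ b ∈ cen B := by
    intro b
    change ε.symm (ε b) ∈ cen B ↔ _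
    rw [AlgEquiv.symm_apply_apply]
  have hcen : ∀ b : B, b ∈ cen B ↔ O.valuation (algebraMap K L ((b : V) : K)) < 1 := fun b => hmV b
  let Λ : Localization.AtPrime (cen B) ≃+* Localization.AtPrime P :=
    IsLocalization.ringEquivOfRingEquiv (M := (cen B).primeCompl) (T := P.primeCompl)
      (Localization.AtPrime (cen B)) (Localization.AtPrime P) ε.toRingEquiv (by
        ext a
        obtain ⟨b, rfl⟩ := ε.surjective a
        simp only [Submonoid.mem_map]
        constructor
        · rintro ⟨c, hc, hcb⟩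
          have : c = b := ε.injective hcb
          subst this
          exact fun h => hc ((hPmem c).mp h)
        · intro h
          exact ⟨b, fun hb => h ((hPmem b).mpr hb), rfl⟩)
  have hΛ : ∀ b : B, Λ (algebraMap B _ b) = algebraMap A _ (ε b) := fun b =>
    IsLocalization.ringEquivOfRingEquiv_eq (M := (cen B).primeCompl) (T := P.primeCompl) _ b
  have hreg' : IsRegularLocalRing (Localization.AtPrime P) :=
    IsRegularLocalRing.of_ringEquiv (R := Localization.AtPrime (cen B)) (R' := Localization.AtPrime P) Λ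
  have hΛmax : ∀ a, Λ a ∈ maximalIdeal (Localization.AtPrime P) ↔
      a ∈ maximalIdeal (Localization.AtPrime (cen B)) := by
    intro a
    rw [mem_maximalIdeal, mem_maximalIdeal, mem_nonunits_iff, mem_nonunits_iff, MulEquiv.isUnit_map]
  have hΛmap : (maximalIdeal (Localization.AtPrime (cen B))).map Λ = maximalIdeal (Localization.AtPrime P) := by
    apply le_antisymm
    · rw [Ideal.map_le_iff_le_comap]
      intro a ha
      exact (hΛmax a).mpr ha
    · intro b hb
      obtain ⟨a, rfl⟩ := Λ.surjective b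
      exact Ideal.mem_map_of_mem _ ((hΛmax a).mp hb)
  have hunit' : ∀ b : B, IsUnit (b : V) → ε b ∉ P := by
    intro b hb h1
    rw [hPmem] at h1
    exact h1 hb
  refine ⟨A, hBfg.map j, ?_, hA, ?_, P, hP, ?_, hreg', e', fun i => ε (y i), fun i => ε (z i), by omega, ?_, ?_, ?_⟩
  · rw [← hA₁map]
    exact Subalgebra.map_mono hAB
  · intro f hf
    refine ⟨⟨f, hF f hf⟩, hFB ?_, rfl⟩
    simp only [Finset.mem_coe, F', Finset.mem_image]
    exact ⟨⟨f, hf⟩, Finset.mem_attach _ _, rfl⟩
  · intro a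
    obtain ⟨b, rfl⟩ := ε.surjective a
    rw [hPmem, hcen, hε]
  · rw [← ringKrullDim_eq_of_ringEquiv Λ, hdim]
  · rw [← hΛmap, hgen, Ideal.map_span]
    congr 1
    rw [← Set.image_comp, Set.image_union, Set.image_union]
    congr 1
    · rw [← Set.range_comp, ← Set.range_comp]
      congr 1
      funext i
      exact hΛ _
    · rw [← Set.range_comp, ← Set.range_comp]
      congr 1
      funext i
      exact hΛ _
  · intro f hf hf0
    obtain ⟨β, s, v, hs, hv, h1⟩ := hmon ⟨f, hF f hf⟩ (Finset.mem_image.mpr ⟨⟨f, hf⟩, Finset.mem_attach _ _, rfl⟩)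
      (fun h => hf0 (congrArg Subtype.val h))
    refine ⟨β, ε s, ε v, hunit' s hs, hunit' v hv, ?_⟩
    rw [hε, hε]
    have h2 := congrArg (fun z : V => (z : K)) h1
    have h3 := hmonK e' (fun i => (y i : V)) β
    change ((s : V) : K) * f = ((v : V) : K) * ((mon (fun i => (y i : V)) β : V) : K) at h2
    rw [h2, h3]
    rfl

end

end Pool.Agent.Helper10.MV
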