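import Pool.Agent.Helper10.MV.Stm
import Pool.Agent.Helper10.MU.Trn

/-!
# TR2: extensions of good levels are reflexive and transitive, monomials persist
-/

set_option autoImplicit false
set_option linter.unusedSectionVars false

open scoped TensorProduct
open IsLocalRing

universe u

namespace Pool.Agent.Helper10.MV

open Pool.Agent.Helper7.LU (psi inc)
open Pool.Agent.Helper10.MU

section

variable {R V S W : Type u} [CommRing R] [CommRing V] [IsDomain V] [ValuationRing V] [CommRing S]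
  [CommRing W] [IsDomain W] [ValuationRing W]
  [Algebra R V] [Algebra R S] [Algebra V W] [Algebra R W] [Algebra S W] [IsScalarTower R S W]
  [IsScalarTower R V W]

theorem tr2_mon_add {M : Type u} [CommMonoid M] {e : ℕ} (x : Fin e → M) (α β : Fin e → ℕ) :
    mon x (α + β) = mon x α * mon x β := by
  unfold mon
  rw [← Finset.prod_mul_distrib]
  exact Finset.prod_congr rfl fun i _ => pow_add _ _ _

theorem tr2_mon_single {M : Type u} [CommMonoid M] {e : ℕ} (x : Fin e → M) (i : Fin e) :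
    mon x (Pi.single i 1) = x i := by
  unfold mon
  rw [Finset.prod_eq_single i]
  · simp
  · intro j _ hj
    rw [Pi.single_eq_of_ne hj, pow_zero]
  · intro h
    exact absurd (Finset.mem_univ i) h

theorem tr2_one {e : ℕ} (A : Subalgebra R V) (x : Fin e → V) : MonAt S W A x (1 : V) 0 :=
  ⟨1, 1, by simp, by simp, by simp [mon]⟩

theorem tr2_mul {e : ℕ} {A : Subalgebra R V} {x : Fin e → V} {f g : V} {β γ : Fin e → ℕ}
    (h : MonAt S W A x f β) (h' : MonAt S W A x g γ) : MonAt S W A x (f * g) (β + γ) := by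
  obtain ⟨s, v, hs, hv, he⟩ := h
  obtain ⟨s', v', hs', hv', he'⟩ := h'
  refine ⟨s * s', v * v', by rw [map_mul]; exact hs.mul hs', by rw [map_mul]; exact hv.mul hv', ?_⟩
  rw [map_mul, map_mul, map_mul, tr2_mon_add, map_mul]
  linear_combination (ps S W A s' * algebraMap V W g) * he + (ps S W A v * algebraMap V W (mon x β)) * he'

theorem tr2_pow {e : ℕ} {A : Subalgebra R V} {x : Fin e → V} {f : V} {β : Fin e → ℕ}
    (h : MonAt S W A x f β) (n : ℕ) : ∃ γ, MonAt S W A x (f ^ n) γ := by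
  induction n with
  | zero => exact ⟨0, by rw [pow_zero]; exact tr2_one A x⟩
  | succ n ih =>
    obtain ⟨γ, hγ⟩ := ih
    exact ⟨γ + β, by rw [pow_succ]; exact tr2_mul hγ h⟩

theorem tr2_mon {e e' : ℕ} {A : Subalgebra R V} {x : Fin e → V} {x' : Fin e' → V}
    (h : ∀ i, ∃ β, MonAt S W A x' (x i) β) (α : Fin e → ℕ) : ∃ γ, MonAt S W A x' (mon x α) γ := by
  classical
  have h1 : ∀ T : Finset (Fin e), ∃ γ, MonAt S W A x' (∏ i ∈ T, x i ^ α i) γ := by
    intro T
    induction T using Finset.induction_on with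
    | empty => exact ⟨0, by rw [Finset.prod_empty]; exact tr2_one A x'⟩
    | insert k T hk ih =>
      obtain ⟨γ, hγ⟩ := ih
      obtain ⟨β, hβ⟩ := h k
      obtain ⟨δ, hδ⟩ := tr2_pow hβ (α k)
      exact ⟨δ + γ, by rw [Finset.prod_insert hk]; exact tr2_mul hδ hγ⟩
  exact h1 Finset.univ

theorem tr2_persist {e e' : ℕ} {A A' : Subalgebra R V} {x : Fin e → V} {x' : Fin e' → V}
    (E : Ex S W A A' x x') {v : V} {α : Fin e → ℕ} (h : MonAt S W A x v α) :
    ∃ β, MonAt S W A' x' v β := by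
  obtain ⟨s, w, hs, hw, he⟩ := h
  obtain ⟨γ, s', w', hs', hw', he'⟩ := tr2_mon E.mono α
  refine ⟨γ, tr S E.le s * s', tr S E.le w * w', ?_, ?_, ?_⟩
  · rw [map_mul, ps_tr]
    exact hs.mul hs'
  · rw [map_mul, ps_tr]
    exact hw.mul hw'
  · rw [map_mul, map_mul, ps_tr, ps_tr]
    linear_combination ps S W A' s' * he + ps S W A w * he'

theorem tr2_refl {e : ℕ} {A : Subalgebra R V} {x : Fin e → V} (h : Good S W A x) :
    Ex S W A A x x := by
  refine ⟨le_refl A, h, fun i => ⟨Pi.single i 1, 1, 1, by simp, by simp, ?_⟩, fun b hb => ?_⟩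
  · rw [tr2_mon_single]
  · refine le_sat _ _ ?_
    rw [← trn_tr_refl A b]
    exact Ideal.mem_map_of_mem _ hb

theorem tr2_trans {e e' e'' : ℕ} {A A' A'' : Subalgebra R V} {x : Fin e → V} {x' : Fin e' → V}
    {x'' : Fin e'' → V} (E : Ex S W A A' x x') (E' : Ex S W A' A'' x' x'') :
    Ex S W A A'' x x'' := by
  refine ⟨E.le.trans E'.le, E'.good, fun i => ?_, ?_⟩
  · obtain ⟨β, hβ⟩ := E.mono i
    exact tr2_persist E' hβ
  · have h1 := trn_map (W := W) E'.le E.ker
    rw [trn_map_map] at h1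
    exact E'.ker.trans ((sat_mono _ h1).trans (sat_sat _ _))

end

theorem tr2 : S_TR2.{u} := by
  intro R V S W _ _ _ _ _ _ _ _ _ _ _ _ _ _ _ _ _ _ _ e e' e'' A A' A'' x x' x''
  exact ⟨tr2_refl, tr2_trans, fun E v α h => tr2_persist E h⟩

end Pool.Agent.Helper10.MV
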