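import Pool.Agent.Helper10.MV.Stm

/-!
# Module TRI (helper59)
-/

set_option autoImplicit false
set_option linter.unusedSectionVars false

open scoped TensorProduct
open IsLocalRing

universe u

namespace Pool.Agent.Helper10.MV

open Pool.Agent.Helper7.LU (psi inc)
open Pool.Agent.Helper10.MU

section

variable {R V S W : Type u} [CommRing R] [IsLocalRing R] [IsNoetherianRing R] [CommRing V] [IsDomain V]
  [ValuationRing V] [CommRing S] [IsNoetherianRing S] [CommRing W] [IsDomain W] [ValuationRing W] [Algebra R V]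
  [Algebra R S] [Algebra V W] [Algebra R W] [Algebra S W] [IsScalarTower R S W] [IsScalarTower R V W]

/-- Elements of `S ⊗ A` are congruent to elements of `A`. -/
theorem tri_approx (hd : IsData R V S W) (A : Subalgebra R V) (b : S ⊗[R] A) :
    ∃ a : A, ps S W A b - algebraMap V W (a : V) ∈ maximalIdeal W := by
  obtain ⟨a, ha⟩ := hd.approx_tensor A 1 b
  refine ⟨a, ?_⟩
  have h1 : (maximalIdeal R ^ 1).map (algebraMap R (S ⊗[R] A)) ≤ (maximalIdeal W).comap (ps S W A) := by
    rw [Ideal.map_le_iff_le_comap]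
    intro r hr
    rw [Ideal.mem_comap, Ideal.mem_comap, ps_algebraMap, mem_max_W hd]
    exact hd.dom r (Ideal.pow_le_self one_ne_zero hr)
  have h2 := h1 ha
  rwa [Ideal.mem_comap, map_sub, ps_inc] at h2

/-- Polynomials over `S ⊗ A` are congruent to polynomials over `A`. -/
theorem tri_poly (hd : IsData R V S W) (A : Subalgebra R V) (ρ : Polynomial (S ⊗[R] A)) :
    ∃ ρ' : Polynomial A, ρ'.natDegree ≤ ρ.natDegree ∧
      (∀ i, ps S W A (ρ.coeff i) - algebraMap V W ((ρ'.coeff i : A) : V) ∈ maximalIdeal W) ∧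
      ∀ T : V, ρ.eval₂ (ps S W A) (algebraMap V W T) - algebraMap V W (Polynomial.aeval T ρ') ∈
        maximalIdeal W := by
  choose a ha using tri_approx hd A
  let ρ' : Polynomial A := ∑ i ∈ Finset.range (ρ.natDegree + 1), Polynomial.monomial i (a (ρ.coeff i))
  have hc : ∀ i, ρ'.coeff i = if i ∈ Finset.range (ρ.natDegree + 1) then a (ρ.coeff i) else 0 := by
    intro i
    simp only [ρ', Polynomial.finsetSum_coeff, Polynomial.coeff_monomial]
    rw [Finset.sum_ite_eq' (Finset.range (ρ.natDegree + 1)) i (fun i => a (ρ.coeff i))]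
  have hdeg : ρ'.natDegree ≤ ρ.natDegree := by
    rw [Polynomial.natDegree_le_iff_coeff_eq_zero]
    intro N hN
    rw [hc, if_neg]
    rw [Finset.mem_range]
    omega
  have hco : ∀ i, ps S W A (ρ.coeff i) - algebraMap V W ((ρ'.coeff i : A) : V) ∈ maximalIdeal W := by
    intro i
    rw [hc]
    split_ifs with h
    · exact ha _
    · rw [Polynomial.coeff_eq_zero_of_natDegree_lt (by rw [Finset.mem_range] at h; omega)]
      simp
  refine ⟨ρ', hdeg, hco, fun T => ?_⟩
  have h1 : ρ.eval₂ (ps S W A) (algebraMap V W T) =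
      ∑ i ∈ Finset.range (ρ.natDegree + 1), ps S W A (ρ.coeff i) * algebraMap V W T ^ i :=
    Polynomial.eval₂_eq_sum_range _ _
  have h2 : algebraMap V W (Polynomial.aeval T ρ') =
      ∑ i ∈ Finset.range (ρ.natDegree + 1), algebraMap V W ((ρ'.coeff i : A) : V) * algebraMap V W T ^ i := by
    rw [Polynomial.aeval_eq_sum_range' (Nat.lt_succ_of_le hdeg), map_sum]
    refine Finset.sum_congr rfl fun i _ => ?_
    rw [Algebra.smul_def, map_mul, map_pow]
    rfl
  rw [h1, h2, ← Finset.sum_sub_distrib]
  refine Ideal.sum_mem _ fun i _ => ?_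
  rw [← sub_mul]
  exact Ideal.mul_mem_right _ _ (hco i)

theorem tri_coeff (A : Subalgebra R V) (g : Polynomial A) (T : V) :
    (g.map (inc S A : A →+* S ⊗[R] A)).eval₂ (ps S W A) (algebraMap V W T) =
      algebraMap V W (Polynomial.aeval T g) := by
  rw [Polynomial.eval₂_map, Polynomial.aeval_def, Polynomial.hom_eval₂]
  congr 1
  ext a
  change ps S W A (inc S A a) = _
  rw [ps_inc]
  rfl

end

theorem tri : S_TRI.{u} := by
  intro R V S W _ _ _ _ _ _ _ _ _ _ _ _ _ _ _ _ _ _ hd A T
  classical
  have : Nontrivial (S ⊗[R] A) := (ps S W A).domain_nontrivial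
  by_cases hT : T ∈ maximalIdeal V
  · left
    refine ⟨Polynomial.X, ⟨?_, ?_, ?_, ?_⟩, fun _ => rfl⟩
    · simp
    · simp
    · rw [tri_coeff, Polynomial.aeval_X, mem_max_W hd]
      exact hT
    · intro ρ hρ h1 i
      rw [Polynomial.map_X, Polynomial.natDegree_X] at hρ
      have h2 : ρ = Polynomial.C (ρ.coeff 0) := Polynomial.eq_C_of_natDegree_eq_zero (by omega)
      rcases Nat.eq_zero_or_pos i with rfl | hi
      · rw [h2, Polynomial.eval₂_C] at h1
        exact h1
      · rw [Polynomial.coeff_eq_zero_of_natDegree_lt (by omega), map_zero]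
        exact Ideal.zero_mem _
  · by_cases htr : Trans (ps S W A) (algebraMap V W T)
    · exact Or.inr htr
    left
    unfold Trans at htr
    push Not at htr
    obtain ⟨ρ, hρ, i, hi⟩ := htr
    -- transport to `A`
    have key : ∀ ρ : Polynomial (S ⊗[R] A), ρ.eval₂ (ps S W A) (algebraMap V W T) ∈ maximalIdeal W →
        ∀ i, ps S W A (ρ.coeff i) ∉ maximalIdeal W → ∃ g : Polynomial A, g.natDegree ≤ ρ.natDegree ∧
          Polynomial.aeval T g ∈ maximalIdeal V ∧ ∃ i, ((g.coeff i : A) : V) ∉ maximalIdeal V := by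
      intro ρ hρ i hi
      obtain ⟨ρ', h1, h2, h3⟩ := tri_poly hd A ρ
      refine ⟨ρ', h1, ?_, i, ?_⟩
      · rw [← mem_max_W hd]
        have := Ideal.sub_mem _ hρ (h3 T)
        rwa [sub_sub_cancel] at this
      · intro h4
        rw [← mem_max_W hd] at h4
        have := Ideal.add_mem _ (h2 i) h4
        rw [sub_add_cancel] at this
        exact hi this
    let P : ℕ → Prop := fun n => ∃ g : Polynomial A, g.natDegree = n ∧
      Polynomial.aeval T g ∈ maximalIdeal V ∧ ∃ i, ((g.coeff i : A) : V) ∉ maximalIdeal V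
    have hP : ∃ n, P n := by
      obtain ⟨g, -, h2, h3⟩ := key ρ hρ i hi
      exact ⟨g.natDegree, g, rfl, h2, h3⟩
    obtain ⟨g, hgn, hgT, j, hj⟩ := Nat.find_spec hP
    have hmin : ∀ m < Nat.find hP, ¬ P m := fun m hm => Nat.find_min hP hm
    have hlead : ((g.leadingCoeff : A) : V) ∉ maximalIdeal V := by
      intro hl
      have h1 : Polynomial.aeval T g.eraseLead ∈ maximalIdeal V := by
        have h2 : g.eraseLead = g - Polynomial.monomial g.natDegree g.leadingCoeff := by
          rw [Polynomial.self_sub_monomial_natDegree_leadingCoeff]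
        rw [h2, map_sub]
        refine Ideal.sub_mem _ hgT ?_
        rw [Polynomial.aeval_monomial]
        exact Ideal.mul_mem_right _ _ hl
      have hjn : j ≠ g.natDegree := by
        rintro rfl
        exact hj hl
      have h3 : ((g.eraseLead.coeff j : A) : V) ∉ maximalIdeal V := by
        rw [Polynomial.eraseLead_coeff_of_ne _ hjn]
        exact hj
      have h4 : g.eraseLead.natDegree < g.natDegree := by
        have h5 : j ≤ g.natDegree := by
          by_contra h6
          rw [Polynomial.coeff_eq_zero_of_natDegree_lt (by omega)] at hj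
          simp at hj
        have h6 := Polynomial.eraseLead_natDegree_le g
        omega
      exact hmin _ (hgn ▸ h4) ⟨g.eraseLead, rfl, h1, j, h3⟩
    have hinc : (inc S A : A →+* S ⊗[R] A) g.leadingCoeff ≠ 0 := by
      intro h0
      have h1 : ps S W A (inc S A g.leadingCoeff) = 0 := by
        have h0' : inc S A g.leadingCoeff = 0 := h0
        rw [h0', map_zero]
      rw [ps_inc] at h1
      have h2 : ((g.leadingCoeff : A) : V) = 0 := hd.inj (by rw [h1, map_zero])
      rw [h2] at hlead
      exact hlead (Ideal.zero_mem _)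
    have hnd : (g.map (inc S A : A →+* S ⊗[R] A)).natDegree = g.natDegree :=
      Polynomial.natDegree_map_of_leadingCoeff_ne_zero _ hinc
    refine ⟨g, ⟨?_, ?_, ?_, ?_⟩, fun h => absurd h hT⟩
    · rw [Polynomial.leadingCoeff_map_of_leadingCoeff_ne_zero _ hinc]
      change IsUnit (ps S W A (inc S A g.leadingCoeff))
      rw [ps_inc, isUnit_iff_W hd]
      by_contra h
      exact hlead h
    · rw [hnd]
      by_contra h
      have h1 : g.natDegree = 0 := by omega
      have h2 := Polynomial.eq_C_of_natDegree_eq_zero h1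
      rw [h2, Polynomial.aeval_C] at hgT
      apply hlead
      rw [Polynomial.leadingCoeff, h1]
      exact hgT
    · rw [tri_coeff, mem_max_W hd]
      exact hgT
    · intro ρ hρ h1 i
      by_contra h2
      obtain ⟨g', h3, h4, h5⟩ := key ρ h1 i h2
      rw [hnd] at hρ
      exact hmin g'.natDegree (by omega) ⟨g', rfl, h4, h5⟩

end Pool.Agent.Helper10.MV
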